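import Mathlib

set_option autoImplicit false

/-!
# Lie algebras over `ℚ` in the pure quaternions over a product of fields

Let `F` be a commutative reduced ring which contains `ℚ` and let `(a, b)` be a quaternion algebra
over `F` (with units `a`, `b`).
-/

open Quaternion Module

namespace Pool.Agent.H19HP.Et

section Ring

variable {F : Type} [CommRing F] {a b : F}

/-- The bilinear form `(x y + y x) / 2` on the pure quaternions. -/
def q2 (x y : ℍ[F, a, b]) : F := a * x.imI * y.imI + b * x.imJ * y.imJ - a * b * x.imK * y.imK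

theorem q2_comm (x y : ℍ[F, a, b]) : q2 x y = q2 y x := by unfold q2; ring

theorem q2_add (x y z : ℍ[F, a, b]) : q2 (x + y) z = q2 x z + q2 y z := by
  simp only [q2, QuaternionAlgebra.imI_add, QuaternionAlgebra.imJ_add, QuaternionAlgebra.imK_add]; ring

theorem q2_add' (x y z : ℍ[F, a, b]) : q2 z (x + y) = q2 z x + q2 z y := by
  rw [q2_comm, q2_add, q2_comm x, q2_comm y]

theorem q2_smul (c : F) (x z : ℍ[F, a, b]) : q2 (c • x) z = c * q2 x z := by
  simp only [q2, QuaternionAlgebra.imI_smul, QuaternionAlgebra.imJ_smul, QuaternionAlgebra.imK_smul,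
    smul_eq_mul]; ring

theorem q2_smul' (c : F) (x z : ℍ[F, a, b]) : q2 z (c • x) = c * q2 z x := by
  rw [q2_comm, q2_smul, q2_comm x]

theorem q2_zero (x : ℍ[F, a, b]) : q2 0 x = 0 := by simp [q2]

/-- the commutator -/
def cb (x y : ℍ[F, a, b]) : ℍ[F, a, b] := x * y - y * x

theorem cb_re (x y : ℍ[F, a, b]) : (cb x y).re = 0 := by
  simp only [cb, QuaternionAlgebra.re_sub, QuaternionAlgebra.re_mul]; ring

theorem cb_anti (x y : ℍ[F, a, b]) : cb x y = -cb y x := by rw [cb, cb, neg_sub]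

theorem cb_add (x y z : ℍ[F, a, b]) : cb (x + y) z = cb x z + cb y z := by
  rw [cb, cb, cb, add_mul, mul_add]; abel

theorem cb_add' (x y z : ℍ[F, a, b]) : cb z (x + y) = cb z x + cb z y := by
  rw [cb, cb, cb, add_mul, mul_add]; abel

theorem cb_smul (c : F) (x z : ℍ[F, a, b]) : cb (c • x) z = c • cb x z := by
  rw [cb, cb, smul_mul_assoc, mul_smul_comm, smul_sub]

theorem cb_smul' (c : F) (x z : ℍ[F, a, b]) : cb z (c • x) = c • cb z x := by
  rw [cb, cb, smul_mul_assoc, mul_smul_comm, smul_sub]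

theorem cb_zero (x : ℍ[F, a, b]) : cb 0 x = 0 := by rw [cb, zero_mul, mul_zero, sub_self]

theorem cb_zero' (x : ℍ[F, a, b]) : cb x 0 = 0 := by rw [cb, zero_mul, mul_zero, sub_self]

theorem cb_self (x : ℍ[F, a, b]) : cb x x = 0 := sub_self _

/-- the commutator as a bilinear map -/
def cbL : ℍ[F, a, b] →ₗ[F] ℍ[F, a, b] →ₗ[F] ℍ[F, a, b] :=
  LinearMap.mk₂ F cb cb_add (fun c x z => cb_smul c x z) (fun z x y => cb_add' x y z)
    (fun c z x => cb_smul' c x z)

/-- the product of two pure quaternions -/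
theorem two_mul_eq {x y : ℍ[F, a, b]} (hx : x.re = 0) (hy : y.re = 0) :
    (2 : F) • (x * y) = (2 * q2 x y) • (1 : ℍ[F, a, b]) + cb x y := by
  ext <;> simp [q2, cb, hx, hy] <;> ring

theorem triple {u z v : ℍ[F, a, b]} (hu : u.re = 0) (hz : z.re = 0) (hv : v.re = 0) :
    cb u (cb z v) = (4 : F) • (q2 u z • v - q2 u v • z) := by
  ext <;> simp [q2, cb, hu, hz, hv] <;> ring

theorem q2_cb (x y : ℍ[F, a, b]) : q2 x (cb x y) = 0 := by
  simp only [q2, cb, QuaternionAlgebra.imI_sub, QuaternionAlgebra.imJ_sub, QuaternionAlgebra.imK_sub,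
    QuaternionAlgebra.imI_mul, QuaternionAlgebra.imJ_mul, QuaternionAlgebra.imK_mul]; ring

theorem cramer {w x y z : ℍ[F, a, b]} (hw : w.re = 0) (hx : x.re = 0) (hy : y.re = 0)
    (hz : z.re = 0) :
    q2 x (cb y z) • w = q2 w (cb y z) • x + q2 w (cb z x) • y + q2 w (cb x y) • z := by
  ext <;> simp [q2, cb, hw, hx, hy, hz] <;> ring

/-- the unit `i` -/
abbrev uI : ℍ[F, a, b] := ⟨0, 1, 0, 0⟩
/-- the unit `j` -/
abbrev uJ : ℍ[F, a, b] := ⟨0, 0, 1, 0⟩
/-- the unit `k` -/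
abbrev uK : ℍ[F, a, b] := ⟨0, 0, 0, 1⟩

/-- Two pure quaternions with a degenerate relation. -/
theorem degenerate [IsReduced F] (ha : IsUnit a) (hb : IsUnit b) {u z : ℍ[F, a, b]}
    (h : ∀ v : ℍ[F, a, b], v.re = 0 → q2 u z • v = q2 u v • z) :
    q2 u z = 0 ∧ u.imI • z = 0 ∧ u.imJ • z = 0 ∧ u.imK • z = 0 := by
  have h1 : ∀ v y : ℍ[F, a, b], v.re = 0 → q2 u z * q2 v y = q2 u v * q2 z y := by
    intro v y hv
    rw [← q2_smul, ← q2_smul, h v hv]
  have e1 := h1 uI uI rfl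
  have e2 := h1 uJ uJ rfl
  have e3 := h1 uI uJ rfl
  have f1 : q2 (uI : ℍ[F, a, b]) uI = a := by simp [q2]
  have f2 : q2 (uJ : ℍ[F, a, b]) uJ = b := by simp [q2]
  have f3 : q2 (uI : ℍ[F, a, b]) uJ = 0 := by simp [q2]
  rw [f1] at e1
  rw [f2] at e2
  rw [f3, mul_zero] at e3
  have h2 : q2 u z = 0 := by
    have h3 : (q2 u z) ^ 2 * (a * b) = 0 := by
      have h4 : (q2 u z) ^ 2 * (a * b) = (q2 u z * a) * (q2 u z * b) := by ring
      rw [h4, e1, e2]
      linear_combination (q2 u uJ * q2 z uI) * (-e3)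
    have h4 := ((ha.mul hb).mul_left_eq_zero).1 h3
    exact pow_eq_zero_iff (two_ne_zero) |>.1 h4
  have h3 : ∀ v : ℍ[F, a, b], v.re = 0 → q2 u v • z = 0 := fun v hv => by
    rw [← h v hv, h2, zero_smul]
  refine ⟨h2, ?_, ?_, ?_⟩
  · have h4 := h3 uI rfl
    have h5 : q2 u uI = a * u.imI := by simp [q2]
    rw [h5, mul_smul] at h4
    exact ha.smul_eq_zero.1 h4
  · have h4 := h3 uJ rfl
    have h5 : q2 u uJ = b * u.imJ := by simp [q2]
    rw [h5, mul_smul] at h4
    exact hb.smul_eq_zero.1 h4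
  · have h4 := h3 uK rfl
    have h5 : q2 u uK = -(a * b) * u.imK := by simp [q2]
    rw [h5, mul_smul] at h4
    exact (ha.mul hb).neg.smul_eq_zero.1 h4

end Ring

end Pool.Agent.H19HP.Et
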