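import Pool.Agent.N208.CT.Main
import Pool.Agent.H19HP.Et1

set_option autoImplicit false
set_option linter.unusedSectionVars false

/-!
# Ideals of full subalgebras
-/

open Module Function

noncomputable section

namespace Pool.Agent.H19HP.Et

open Pool.Agent.Y102 Pool.Agent.W516.DR Pool.Agent.H204R3.GP Pool.Agent.W516.KC
  Pool.Agent.H204R3.SP

variable {g : ℕ} {A : AbVar g}

/-- If `[A, X]` commutes with `X` then it is nilpotent. -/
theorem nilpotent_of_comm {W : Type} [AddCommGroup W] [Module ℚ W] [FiniteDimensional ℚ W]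
    {X Y : Module.End ℚ W} (h : (Y * X - X * Y) * X = X * (Y * X - X * Y)) :
    IsNilpotent (Y * X - X * Y) := by
  refine isNilpotent_of_trace _ fun p => ?_
  have h1 : Polynomial.aeval (Y * X - X * Y) p * X = X * Polynomial.aeval (Y * X - X * Y) p := by
    have h2 : Commute (Y * X - X * Y) X := h
    have h3 : Commute X (Polynomial.aeval (Y * X - X * Y) p) := by
      induction p using Polynomial.induction_on' with
      | add p q hp hq =>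
        rw [map_add]
        exact hp.add_right hq
      | monomial n c =>
        rw [Polynomial.aeval_monomial]
        exact (Algebra.commute_algebraMap_right c X).mul_right (h2.symm.pow_right n)
    exact h3.symm.eq
  generalize Polynomial.aeval (Y * X - X * Y) p = R at h1
  rw [mul_sub, map_sub, ← mul_assoc, ← mul_assoc, h1, sub_eq_zero,
    LinearMap.trace_mul_comm ℚ (R * Y) X, mul_assoc]

/-- **An ideal which contains its centralizer.** -/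
theorem ideal_eq {𝔥 𝔫 : Submodule ℚ (Module.End ℚ A.H1)} (h : A.Full 𝔥) (hle : 𝔫 ≤ 𝔥)
    (hid : ∀ X ∈ 𝔥, ∀ Y ∈ 𝔫, X * Y - Y * X ∈ 𝔫)
    (hc : ∀ U ∈ 𝔥, (∀ Y ∈ 𝔫, U * Y = Y * U) → U ∈ 𝔫) : 𝔥 ≤ 𝔫 := by
  intro Z hZ
  by_contra hcon
  obtain ⟨f, hf1, hf2⟩ := Submodule.exists_dual_map_eq_bot_of_notMem hcon inferInstance
  let f' : Module.Dual ℚ 𝔥 := f.comp 𝔥.subtype
  let U := (Pool.Agent.W516.KC2.trE 𝔥 h.trace).symm f'
  have hU : ∀ X : 𝔥, LinearMap.trace ℚ A.H1 (U.1 * X.1) = f X.1 := fun X =>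
    Pool.Agent.W516.KC2.trE_symm 𝔥 h.trace f' X
  have hf0 : ∀ X ∈ 𝔫, f X = 0 := by
    intro X hX
    have h3 : f X ∈ Submodule.map f 𝔫 := Submodule.mem_map_of_mem hX
    rwa [hf2, Submodule.mem_bot] at h3
  have htr : ∀ a b c : Module.End ℚ A.H1, LinearMap.trace ℚ A.H1 ((a * b - b * a) * c) =
      LinearMap.trace ℚ A.H1 (a * (b * c - c * b)) := by
    intro a b c
    rw [sub_mul, mul_sub, map_sub, map_sub, mul_assoc a b c, mul_assoc b a c,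
      LinearMap.trace_mul_comm ℚ b (a * c), mul_assoc a c b]
  have hid' : ∀ X ∈ 𝔥, ∀ Y ∈ 𝔫, Y * X - X * Y ∈ 𝔫 := by
    intro X hX Y hY
    have h1 := 𝔫.neg_mem (hid X hX Y hY)
    rwa [neg_sub] at h1
  -- the radical
  let 𝔟 : Submodule ℚ (Module.End ℚ A.H1) :=
    { carrier := {X | X ∈ 𝔫 ∧ ∀ Y ∈ 𝔫, LinearMap.trace ℚ A.H1 (X * Y) = 0}
      zero_mem' := ⟨𝔫.zero_mem, fun Y _ => by rw [zero_mul, map_zero]⟩
      add_mem' := fun {P Q} hP hQ => ⟨𝔫.add_mem hP.1 hQ.1, fun X hX => by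
        rw [add_mul, map_add, hP.2 X hX, hQ.2 X hX, add_zero]⟩
      smul_mem' := fun c P hP => ⟨𝔫.smul_mem c hP.1, fun X hX => by
        rw [smul_mul_assoc, map_smul, hP.2 X hX, smul_zero]⟩ }
  have hcom : ∀ X ∈ 𝔥, (∀ Y ∈ 𝔫, LinearMap.trace ℚ A.H1 (X * Y) = 0) → ∀ Y ∈ 𝔫,
      X * Y = Y * X := by
    intro X hX h1 Y hY
    rw [← sub_eq_zero]
    refine h.trace _ (h.br X hX Y (hle hY)) fun V hV => ?_
    rw [htr]
    exact h1 _ (hid' V hV Y hY)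
  have hUn : ∀ Y ∈ 𝔫, LinearMap.trace ℚ A.H1 (U.1 * Y) = 0 := fun Y hY => by
    have h1 := hU ⟨Y, hle hY⟩
    rw [h1]
    exact hf0 Y hY
  have hU𝔫 : U.1 ∈ 𝔫 := hc U.1 U.2 (hcom U.1 U.2 hUn)
  have hU𝔟 : U.1 ∈ 𝔟 := ⟨hU𝔫, hUn⟩
  have hbn : ∀ X ∈ 𝔟, X ∈ 𝔫 := fun X hX => hX.1
  have hbid : ∀ X ∈ 𝔥, ∀ Y ∈ 𝔟, X * Y - Y * X ∈ 𝔟 := by
    rintro X hX Y ⟨hY, hY'⟩
    refine ⟨hid X hX Y hY, fun V hV => ?_⟩
    have h1 : (X * Y - Y * X) * V = -((Y * X - X * Y) * V) := by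
      rw [sub_mul, sub_mul, neg_sub]
    rw [h1, map_neg, htr, hY' _ (hid X hX V hV), neg_zero]
  have hbab : ∀ X ∈ 𝔟, ∀ Y ∈ 𝔟, X * Y = Y * X := fun X hX Y hY =>
    hcom X (hle hX.1) hX.2 Y hY.1
  let 𝔰 : Submodule ℚ (Module.End ℚ A.H1) :=
    Submodule.span ℚ {Z | ∃ Y ∈ 𝔥, ∃ X ∈ 𝔟, Z = Y * X - X * Y}
  have hsb : 𝔰 ≤ 𝔟 := by
    rw [Submodule.span_le]
    rintro _ ⟨Y, hY, X, hX, rfl⟩
    exact hbid Y hY X hX
  have hsnil : ∀ X ∈ 𝔰, IsNilpotent X := by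
    intro X hX
    induction hX using Submodule.span_induction with
    | mem X hX =>
      obtain ⟨Y, hY, X, hX, rfl⟩ := hX
      exact nilpotent_of_comm (hbab _ (hbid Y hY X hX) X hX)
    | zero => exact IsNilpotent.zero
    | add x y hx hy ihx ihy =>
      have h1 : Commute x y := hbab x (hsb hx) y (hsb hy)
      exact h1.isNilpotent_add ihx ihy
    | smul c x _ ih =>
      obtain ⟨n, hn⟩ := ih
      exact ⟨n, by rw [smul_pow, hn, smul_zero]⟩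
  have hs0 := eq_zero_of_nilpotent 𝔥 𝔰 h.semi (fun X hX => hle (hbn X (hsb hX)))
    (fun X hX Y hY => by
      rw [hbab X (hsb hX) Y (hsb hY), sub_self]
      exact Submodule.zero_mem _)
    (fun X hX Y hY => Submodule.subset_span ⟨X, hX, Y, hsb hY, rfl⟩) hsnil
  have hUc : ∀ Y ∈ 𝔥, Y * U.1 = U.1 * Y := fun Y hY =>
    sub_eq_zero.1 (hs0 _ (Submodule.subset_span ⟨Y, hY, U.1, hU𝔟, rfl⟩))
  have hU0 := h.pos U.2 hUc (hUn _ hU𝔫)
  apply hf1
  rw [← hU ⟨Z, hZ⟩, hU0, zero_mul, map_zero]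

end Pool.Agent.H19HP.Et
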