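import Pool.Agent.H19HP.Quat3

set_option autoImplicit false
set_option linter.unusedSectionVars false

/-!
# Lie algebras of quaternion type in an associative algebra
-/

open Quaternion Module

namespace Pool.Agent.H19HP

variable {R : Type} [Ring R] [Algebra ℚ R] {q : ℕ} {F : Fin q → Type} [∀ i, Field (F i)]
  [∀ i, NumberField (F i)] {a b : ∀ i, F i}

/-- The Lie algebra `S` is the sum of the images of the pure quaternions. -/
structure QType (S : Submodule ℚ R) (φ : ∀ i, ℍ[F i, a i, b i] →ₗ[ℚ] R) : Prop where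
  ha : ∀ i, a i ≠ 0
  hb : ∀ i, b i ≠ 0
  br : ∀ i, ∀ x y : ℍ[F i, a i, b i], x.re = 0 → y.re = 0 →
    φ i (x * y - y * x) = φ i x * φ i y - φ i y * φ i x
  comm : ∀ i j, i ≠ j → ∀ (x : ℍ[F i, a i, b i]) (y : ℍ[F j, a j, b j]), x.re = 0 → y.re = 0 →
    φ i x * φ j y = φ j y * φ i x
  inj : ∀ i, ∀ x : ℍ[F i, a i, b i], x.re = 0 → φ i x = 0 → x = 0
  span : S = Submodule.span ℚ {M | ∃ i, ∃ x : ℍ[F i, a i, b i], x.re = 0 ∧ M = φ i x}

variable {S : Submodule ℚ R} {φ : ∀ i, ℍ[F i, a i, b i] →ₗ[ℚ] R}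

/-- the sum -/
def Phi (φ : ∀ i, ℍ[F i, a i, b i] →ₗ[ℚ] R) : (∀ i, ℍ[F i, a i, b i]) →ₗ[ℚ] R :=
  ∑ i, (φ i).comp (LinearMap.proj i)

theorem Phi_apply (x : ∀ i, ℍ[F i, a i, b i]) : Phi φ x = ∑ i, φ i (x i) := by
  simp [Phi, LinearMap.sum_apply]

theorem QType.comm_Phi (h : QType S φ) {x : ∀ i, ℍ[F i, a i, b i]} (hx : ∀ i, (x i).re = 0)
    (i : Fin q) {y : ℍ[F i, a i, b i]} (hy : y.re = 0) :
    Phi φ x * φ i y - φ i y * Phi φ x = φ i (cb (x i) y) := by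
  rw [Phi_apply, Finset.sum_mul, Finset.mul_sum, ← Finset.sum_sub_distrib]
  rw [Finset.sum_eq_single i]
  · exact (h.br i _ _ (hx i) hy).symm
  · intro j _ hj
    exact sub_eq_zero.2 (h.comm j i hj _ _ (hx j) hy)
  · intro hi
    exact absurd (Finset.mem_univ i) hi

theorem QType.br_Phi (h : QType S φ) {x y : ∀ i, ℍ[F i, a i, b i]} (hx : ∀ i, (x i).re = 0)
    (hy : ∀ i, (y i).re = 0) :
    Phi φ x * Phi φ y - Phi φ y * Phi φ x = Phi φ (fun i => cb (x i) (y i)) := by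
  have h1 : Phi φ x * Phi φ y - Phi φ y * Phi φ x =
      ∑ i, (Phi φ x * φ i (y i) - φ i (y i) * Phi φ x) := by
    rw [Finset.sum_sub_distrib, ← Finset.mul_sum, ← Finset.sum_mul, ← Phi_apply]
  rw [h1]
  conv_rhs => rw [Phi_apply]
  exact Finset.sum_congr rfl fun i _ => h.comm_Phi hx i (hy i)

theorem QType.Phi_inj (h : QType S φ) {x : ∀ i, ℍ[F i, a i, b i]} (hx : ∀ i, (x i).re = 0)
    (h0 : Phi φ x = 0) : x = 0 := by
  funext i
  refine eq_zero_of_comm (h.ha i) (h.hb i) (hx i) fun y hy => ?_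
  refine h.inj i _ (cb_re _ _) ?_
  have h1 := h.comm_Phi hx i hy
  rw [h0, zero_mul, mul_zero, sub_zero] at h1
  rw [cb_anti, map_neg, ← h1, neg_zero]

theorem QType.exists_Phi (h : QType S φ) {M : R} (hM : M ∈ S) :
    ∃ x : ∀ i, ℍ[F i, a i, b i], (∀ i, (x i).re = 0) ∧ Phi φ x = M := by
  classical
  rw [h.span] at hM
  induction hM using Submodule.span_induction with
  | mem M hM =>
    obtain ⟨i, x, hx, rfl⟩ := hM
    refine ⟨Pi.single i x, fun j => ?_, ?_⟩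
    · by_cases hj : j = i
      · subst hj
        rw [Pi.single_eq_same]
        exact hx
      · rw [Pi.single_eq_of_ne hj]
        rfl
    · rw [Phi_apply, Finset.sum_eq_single i]
      · rw [Pi.single_eq_same]
      · intro j _ hj
        rw [Pi.single_eq_of_ne hj, map_zero]
      · intro hi
        exact absurd (Finset.mem_univ i) hi
  | zero => exact ⟨0, fun i => rfl, map_zero _⟩
  | add M M' _ _ hM hM' =>
    obtain ⟨x, hx, rfl⟩ := hM
    obtain ⟨x', hx', rfl⟩ := hM'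
    exact ⟨x + x', fun i => by rw [Pi.add_apply, QuaternionAlgebra.re_add, hx, hx', add_zero],
      map_add _ _ _⟩
  | smul c M _ hM =>
    obtain ⟨x, hx, rfl⟩ := hM
    exact ⟨c • x, fun i => by rw [Pi.smul_apply, QuaternionAlgebra.re_smul, hx, smul_zero],
      map_smul _ _ _⟩

theorem QType.Phi_mem (h : QType S φ) {x : ∀ i, ℍ[F i, a i, b i]} (hx : ∀ i, (x i).re = 0) :
    Phi φ x ∈ S := by
  rw [Phi_apply, h.span]
  exact Submodule.sum_mem _ fun i _ => Submodule.subset_span ⟨i, x i, hx i, rfl⟩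

/-- Subalgebras in terms of pure quaternions. -/
theorem QType.pull (h : QType S φ) {E : Submodule ℚ R} (hES : E ≤ S)
    (hbr : ∀ x ∈ E, ∀ y ∈ E, x * y - y * x ∈ E)
    (hperf : E ≤ Submodule.span ℚ {z | ∃ x ∈ E, ∃ y ∈ E, z = x * y - y * x})
    (hne : ∀ i, ∃ M ∈ E, ∃ y : ℍ[F i, a i, b i], y.re = 0 ∧ M * φ i y ≠ φ i y * M) :
    ∃ E' : Submodule ℚ (∀ i, ℍ[F i, a i, b i]),
      (∀ x, x ∈ E' ↔ (∀ i, (x i).re = 0) ∧ Phi φ x ∈ E) ∧
      (∀ x ∈ E', ∀ y ∈ E', (fun i => cb (x i) (y i)) ∈ E') ∧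
      E' ≤ Submodule.span ℚ {z | ∃ x ∈ E', ∃ y ∈ E', z = fun i => cb (x i) (y i)} ∧
      ∀ i, ∃ x ∈ E', x i ≠ 0 := by
  let E' : Submodule ℚ (∀ i, ℍ[F i, a i, b i]) :=
    { carrier := {x | (∀ i, (x i).re = 0) ∧ Phi φ x ∈ E}
      zero_mem' := ⟨fun i => rfl, by rw [map_zero]; exact E.zero_mem⟩
      add_mem' := fun {x y} hx hy => ⟨fun i => by
        rw [Pi.add_apply, QuaternionAlgebra.re_add, hx.1 i, hy.1 i, add_zero], by
        rw [map_add]; exact E.add_mem hx.2 hy.2⟩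
      smul_mem' := fun c x hx => ⟨fun i => by
        rw [Pi.smul_apply, QuaternionAlgebra.re_smul, hx.1 i, smul_zero], by
        rw [map_smul]; exact E.smul_mem c hx.2⟩ }
  refine ⟨E', fun x => Iff.rfl, ?_, ?_, ?_⟩
  · intro x hx y hy
    refine ⟨fun i => cb_re _ _, ?_⟩
    rw [← h.br_Phi hx.1 hy.1]
    exact hbr _ hx.2 _ hy.2
  · intro x hx
    have h1 := hperf hx.2
    have h2 : ∃ z ∈ Submodule.span ℚ {z | ∃ x ∈ E', ∃ y ∈ E', z = fun i => cb (x i) (y i)},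
        (∀ i, (z i).re = 0) ∧ Phi φ z = Phi φ x := by
      have h3 : ∀ M ∈ Submodule.span ℚ {z | ∃ x ∈ E, ∃ y ∈ E, z = x * y - y * x},
          ∃ z ∈ Submodule.span ℚ {z | ∃ x ∈ E', ∃ y ∈ E', z = fun i => cb (x i) (y i)},
          (∀ i, (z i).re = 0) ∧ Phi φ z = M := by
        intro M hM
        induction hM using Submodule.span_induction with
        | mem M hM =>
          obtain ⟨u, hu, v, hv, rfl⟩ := hM
          obtain ⟨x, hx, rfl⟩ := h.exists_Phi (hES hu)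
          obtain ⟨y, hy, rfl⟩ := h.exists_Phi (hES hv)
          exact ⟨_, Submodule.subset_span ⟨x, ⟨hx, hu⟩, y, ⟨hy, hv⟩, rfl⟩, fun i => cb_re _ _,
            (h.br_Phi hx hy).symm⟩
        | zero => exact ⟨0, Submodule.zero_mem _, fun i => rfl, map_zero _⟩
        | add M M' _ _ hM hM' =>
          obtain ⟨z, hz, h1, rfl⟩ := hM
          obtain ⟨z', hz', h1', rfl⟩ := hM'
          exact ⟨z + z', Submodule.add_mem _ hz hz', fun i => by
            rw [Pi.add_apply, QuaternionAlgebra.re_add, h1, h1', add_zero], map_add _ _ _⟩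
        | smul c M _ hM =>
          obtain ⟨z, hz, h1, rfl⟩ := hM
          exact ⟨c • z, Submodule.smul_mem _ c hz, fun i => by
            rw [Pi.smul_apply, QuaternionAlgebra.re_smul, h1, smul_zero], map_smul _ _ _⟩
      exact h3 _ h1
    obtain ⟨z, hz, h3, h4⟩ := h2
    have h5 : z - x = 0 := by
      refine h.Phi_inj (fun i => ?_) ?_
      · rw [Pi.sub_apply, QuaternionAlgebra.re_sub, h3, hx.1, sub_zero]
      · rw [map_sub, h4, sub_self]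
    rw [← sub_eq_zero.1 h5]
    exact hz
  · intro i
    obtain ⟨M, hM, y, hy, hne⟩ := hne i
    obtain ⟨x, hx, rfl⟩ := h.exists_Phi (hES hM)
    refine ⟨x, ⟨hx, hM⟩, fun h0 => hne ?_⟩
    have h1 := h.comm_Phi hx i hy
    rw [h0, cb_zero, map_zero] at h1
    exact sub_eq_zero.1 h1

/-- **Perfect subalgebras of Lie algebras of quaternion type.** -/
theorem QType.eq_of_perfect (h : QType S φ) (hd : ∀ i, ¬ Descends (F i) (a i) (b i))
    (hiso : ∀ i j, i ≠ j → ¬ PureIso (F i) (a i) (b i) (F j) (a j) (b j))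
    {E : Submodule ℚ R} (hES : E ≤ S) (hbr : ∀ x ∈ E, ∀ y ∈ E, x * y - y * x ∈ E)
    (hperf : E ≤ Submodule.span ℚ {z | ∃ x ∈ E, ∃ y ∈ E, z = x * y - y * x})
    (hne : ∀ i, ∃ M ∈ E, ∃ y : ℍ[F i, a i, b i], y.re = 0 ∧ M * φ i y ≠ φ i y * M) : S ≤ E := by
  obtain ⟨E', h1, h2, h3, h4⟩ := h.pull hES hbr hperf hne
  intro M hM
  obtain ⟨x, hx, rfl⟩ := h.exists_Phi hM
  exact ((h1 x).1 (full_prod h.ha h.hb hd hiso (fun x hx => ((h1 x).1 hx).1) h2 h3 h4 hx)).2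

/-- **The projections of perfect subalgebras of Lie algebras of quaternion type.** -/
theorem QType.exists_form (h : QType S φ) {E : Submodule ℚ R} (hES : E ≤ S)
    (hbr : ∀ x ∈ E, ∀ y ∈ E, x * y - y * x ∈ E)
    (hperf : E ≤ Submodule.span ℚ {z | ∃ x ∈ E, ∃ y ∈ E, z = x * y - y * x})
    (hne : ∀ i, ∃ M ∈ E, ∃ y : ℍ[F i, a i, b i], y.re = 0 ∧ M * φ i y ≠ φ i y * M) (i : Fin q) :
    ∃ F' : IntermediateField ℚ (F i), ∃ a' ∈ F', ∃ b' ∈ F', a' ≠ 0 ∧ b' ≠ 0 ∧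
      ∃ e : ℍ[F i, a', b'] ≃ₐ[F i] ℍ[F i, a i, b i], ∀ u : ℍ[F i, a', b'], u.re = 0 →
        u.imI ∈ F' → u.imJ ∈ F' → u.imK ∈ F' →
        ∃ x : ∀ j, ℍ[F j, a j, b j], (∀ j, (x j).re = 0) ∧ x i = e u ∧ ∑ j, φ j (x j) ∈ E := by
  obtain ⟨E', h1, h2, h3, h4⟩ := h.pull hES hbr hperf hne
  let p : (∀ i, ℍ[F i, a i, b i]) →ₗ[ℚ] ℍ[F i, a i, b i] := LinearMap.proj i
  obtain ⟨F', a', k1, b', k2, k3, k4, e, he⟩ := Pool.Agent.H19HP.exists_form (h.ha i) (h.hb i)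
    (E := E'.map p) (by
      rintro _ ⟨z, hz, rfl⟩
      exact ((h1 z).1 hz).1 i) (by
      rintro _ ⟨z, hz, rfl⟩ _ ⟨z', hz', rfl⟩
      exact ⟨_, h2 z hz z' hz', rfl⟩) (by
      rintro _ ⟨z, hz, rfl⟩
      have h5 := Submodule.mem_map_of_mem (f := p) (h3 hz)
      rw [Submodule.map_span] at h5
      refine Submodule.span_mono ?_ h5
      rintro _ ⟨_, ⟨x, hx, y, hy, rfl⟩, rfl⟩
      exact ⟨_, ⟨x, hx, rfl⟩, _, ⟨y, hy, rfl⟩, rfl⟩) (by
      obtain ⟨z, hz, hzi⟩ := h4 i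
      intro h0
      apply hzi
      have h5 : p z ∈ E'.map p := ⟨z, hz, rfl⟩
      rwa [h0, Submodule.mem_bot] at h5)
  refine ⟨F', a', k1, b', k2, k3, k4, e, fun u h5 h6 h7 h8 => ?_⟩
  obtain ⟨x, hx, hx'⟩ := he u h5 h6 h7 h8
  refine ⟨x, ((h1 x).1 hx).1, hx', ?_⟩
  rw [← Phi_apply]
  exact ((h1 x).1 hx).2

end Pool.Agent.H19HP
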