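import Pool.Agent.N208.CT.Main
import Pool.Agent.H19HP.Quat4

set_option autoImplicit false
set_option linter.unusedSectionVars false

/-!
# Motives whose Mumford-Tate group is of quaternion type
-/

open Module Function TensorProduct Matrix Quaternion

noncomputable section

namespace Pool.Agent.H19HP

open Pool.Agent.Y102 Pool.Agent.W516.DR Pool.Agent.H204R3.GP Pool.Agent.W516.KC
  Pool.Agent.H204R3.SP Pool.Agent.TH119.MX Pool.Agent.R917 Pool.Agent.N208.AM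
open Pool.Agent.N208 (AM.RLie.br)

variable {g : ℕ} {A : AbVar g} {s n : ℕ} {r : Fin s → ℕ} {B : Fin n → Ten A r} {w : Fin s → ℤ}
  {P : Matrix (Fin n) (Fin n) ℂ} {H : Set (Matrix (Fin n) (Fin n) ℂ)}
  {Wt : Matrix (Fin n) (Fin n) ℚ} {N : Matrix (Fin n) (Fin n) ℝ}

/-- The matrices of the elements of a space of endomorphisms. -/
def mats (B : Fin n → Ten A r) (S : Submodule ℚ (Module.End ℚ A.H1)) :
    Submodule ℚ (Matrix (Fin n) (Fin n) ℚ) where
  carrier := {M | ∃ X ∈ S, Rel B X M}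
  zero_mem' := ⟨0, S.zero_mem, Rel.zero⟩
  add_mem' := by
    rintro _ _ ⟨X, hX, h1⟩ ⟨Y, hY, h2⟩
    exact ⟨X + Y, S.add_mem hX hY, h1.add h2⟩
  smul_mem' := by
    rintro c _ ⟨X, hX, h1⟩
    exact ⟨c • X, S.smul_mem c hX, h1.smul c⟩

theorem mats_mono {S T : Submodule ℚ (Module.End ℚ A.H1)} (h : S ≤ T) : mats B S ≤ mats B T :=
  fun _ ⟨X, hX, hM⟩ => ⟨X, h hX, hM⟩

variable {q : ℕ} {F : Fin q → Type} [∀ i, Field (F i)] [∀ i, NumberField (F i)] {a b : ∀ i, F i}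
  {φ : ∀ i, ℍ[F i, a i, b i] →ₗ[ℚ] Matrix (Fin n) (Fin n) ℚ}

/-- The images of the pure quaternions are ideals. -/
theorem ideal_φ (h : Mot w B P) (hq : QType (mats B (der A.NA)) φ) {X : Module.End ℚ A.H1}
    (hX : X ∈ A.NA) {M : Matrix (Fin n) (Fin n) ℚ} (hM : Rel B X M) (i : Fin q)
    {y : ℍ[F i, a i, b i]} (hy : y.re = 0) :
    ∃ z : ℍ[F i, a i, b i], z.re = 0 ∧ M * φ i y - φ i y * M = φ i z := by
  obtain ⟨Z, hZ, d, hd, rfl, hcomm⟩ := full_NA.dec hX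
  obtain ⟨M1, hM1⟩ := h.st Z hZ
  obtain ⟨M2, hM2⟩ := h.st d (der_NA_le hd)
  obtain ⟨x, hx, hx'⟩ := hq.exists_Phi (M := M2) ⟨d, hd, hM2⟩
  have h1 : φ i y ∈ mats B (der A.NA) := by
    rw [hq.span]
    exact Submodule.subset_span ⟨i, y, hy, rfl⟩
  obtain ⟨Y, hY, hYM⟩ := h1
  have h2 : M1 * φ i y = φ i y * M1 := by
    have h3 := hYM.br hM1
    rw [← hcomm Y (der_NA_le hY), sub_self] at h3
    exact sub_eq_zero.1 (Rel.zero.uniq h.li h3).symm
  refine ⟨cb (x i) y, cb_re _ _, ?_⟩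
  rw [hM.uniq h.li (hM1.add hM2), add_mul, mul_add, h2, ← hq.comm_Phi hx i hy, hx']
  abel

/-- The derived algebra of the Lie algebra of the group is a perfect subalgebra with nonzero
components. -/
theorem mats_dq (h : Mot w B P) (hW : WRel w B Wt) (hH : PtM P H)
    (hq : QType (mats B (der A.NA)) φ) : mats B (dq B Wt H) ≤ mats B (der A.NA) ∧
    (∀ x ∈ mats B (dq B Wt H), ∀ y ∈ mats B (dq B Wt H), x * y - y * x ∈ mats B (dq B Wt H)) ∧
    mats B (dq B Wt H) ≤ Submodule.span ℚ {z | ∃ x ∈ mats B (dq B Wt H),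
      ∃ y ∈ mats B (dq B Wt H), z = x * y - y * x} ∧
    ∀ i, ∃ M ∈ mats B (dq B Wt H), ∃ y : ℍ[F i, a i, b i], y.re = 0 ∧
      M * φ i y ≠ φ i y * M := by
  have hf := qM_full h hW hH
  have hdN : dq B Wt H ≤ A.NA := fun Z hZ => (der_mem h hW hZ).1
  have hdd : dq B Wt H ≤ der A.NA := by
    unfold dq der
    exact Submodule.span_mono fun _ ⟨X, hX, Y, hY, e⟩ => ⟨X, hf.le hX, Y, hf.le hY, e⟩
  have hdb : ∀ X ∈ dq B Wt H, ∀ Y ∈ dq B Wt H, X * Y - Y * X ∈ dq B Wt H := fun X hX Y hY =>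
    Submodule.subset_span ⟨X, hf.der_le hX, Y, hf.der_le hY, rfl⟩
  refine ⟨mats_mono hdd, ?_, ?_, ?_⟩
  · rintro x ⟨X, hX, hM⟩ y ⟨Y, hY, hM'⟩
    exact ⟨Y * X - X * Y, hdb Y hY X hX, hM'.br hM⟩
  · rintro M ⟨Z, hZ, hM⟩
    have h1 := hf.perfect hZ
    have hder : ∀ c ∈ Submodule.span ℚ {Z | ∃ X ∈ dq B Wt H, ∃ Y ∈ dq B Wt H,
        Z = X * Y - Y * X}, c ∈ A.NA := by
      intro c hc
      refine (Submodule.span_le.2 ?_) hc
      rintro _ ⟨X, hX, Y, hY, rfl⟩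
      exact A.NA_bracket (hdN hX) (hdN hY)
    clear hZ
    induction h1 using Submodule.span_induction generalizing M with
    | mem Z hZ =>
      obtain ⟨X, hX, Y, hY, rfl⟩ := hZ
      obtain ⟨M1, hM1⟩ := h.st X (hdN hX)
      obtain ⟨M2, hM2⟩ := h.st Y (hdN hY)
      refine Submodule.subset_span ⟨M2, ⟨Y, hY, hM2⟩, M1, ⟨X, hX, hM1⟩, ?_⟩
      rw [hM.uniq h.li (hM1.br hM2)]
    | zero =>
      rw [hM.uniq h.li Rel.zero]
      exact Submodule.zero_mem _
    | add a b ha' hb' ha hb =>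
      obtain ⟨M1, hM1⟩ := h.st a (hder a ha')
      obtain ⟨M2, hM2⟩ := h.st b (hder b hb')
      rw [hM.uniq h.li (hM1.add hM2)]
      exact Submodule.add_mem _ (ha hM1) (hb hM2)
    | smul c a ha' ha =>
      obtain ⟨M1, hM1⟩ := h.st a (hder a ha')
      rw [hM.uniq h.li (hM1.smul c)]
      exact Submodule.smul_mem _ _ (ha hM1)
  · intro i
    by_contra hcon
    push Not at hcon
    let 𝔫 : Submodule ℚ (Module.End ℚ A.H1) :=
      { carrier := {X | X ∈ A.NA ∧ ∀ M, Rel B X M → ∀ y : ℍ[F i, a i, b i], y.re = 0 →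
          M * φ i y = φ i y * M}
        zero_mem' := ⟨A.NA.zero_mem, fun M hM y _ => by
          rw [hM.uniq h.li Rel.zero, zero_mul, mul_zero]⟩
        add_mem' := by
          rintro X Y ⟨hX, h1⟩ ⟨hY, h2⟩
          refine ⟨A.NA.add_mem hX hY, fun M hM y hy => ?_⟩
          obtain ⟨M1, hM1⟩ := h.st X hX
          obtain ⟨M2, hM2⟩ := h.st Y hY
          rw [hM.uniq h.li (hM1.add hM2), add_mul, mul_add, h1 M1 hM1 y hy, h2 M2 hM2 y hy]
        smul_mem' := by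
          rintro c X ⟨hX, h1⟩
          refine ⟨A.NA.smul_mem c hX, fun M hM y hy => ?_⟩
          obtain ⟨M1, hM1⟩ := h.st X hX
          rw [hM.uniq h.li (hM1.smul c), smul_mul_assoc, mul_smul_comm, h1 M1 hM1 y hy] }
    have h1 : ∀ X ∈ A.NA, ∀ Y ∈ A.NA, X * Y - Y * X ∈ 𝔫 := fun X hX Y hY => by
      refine der_le_of_ideal hf (𝔫 := 𝔫) ?_ (fun X hX => hX.1) ?_ hX hY
      · rintro X hX Y ⟨hY, hYt⟩
        refine ⟨A.NA_bracket hX hY, fun M hM y hy => ?_⟩
        obtain ⟨M1, hM1⟩ := h.st X hX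
        obtain ⟨M2, hM2⟩ := h.st Y hY
        obtain ⟨z, hz, hz'⟩ := ideal_φ h hq hX hM1 i hy
        have e1 := hYt M2 hM2 y hy
        have e2 := hYt M2 hM2 z hz
        rw [← hz'] at e2
        rw [hM.uniq h.li (hM1.br hM2)]
        have e3 : (M2 * M1 - M1 * M2) * φ i y - φ i y * (M2 * M1 - M1 * M2) =
            (M2 * (M1 * φ i y - φ i y * M1) - (M1 * φ i y - φ i y * M1) * M2) +
            (M2 * φ i y * M1 - φ i y * M2 * M1) - (M1 * (M2 * φ i y) - M1 * (φ i y * M2)) := by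
          noncomm_ring
        rw [e2, sub_self, e1, sub_self, sub_self, zero_add, sub_zero] at e3
        exact sub_eq_zero.1 e3
      · intro X hX Y hY
        have h2 : X * Y - Y * X ∈ dq B Wt H := Submodule.subset_span ⟨X, hX, Y, hY, rfl⟩
        exact ⟨hdN h2, fun M hM y hy => hcon M ⟨_, h2, hM⟩ y hy⟩
    -- the image of the pure quaternions is not commutative
    have h2 : ∀ x y z : ℍ[F i, a i, b i], x.re = 0 → y.re = 0 → z.re = 0 →
        cb (cb x y) z = 0 := by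
      intro x y z hx hy hz
      have hmem : ∀ x : ℍ[F i, a i, b i], x.re = 0 → φ i x ∈ mats B (der A.NA) := by
        intro x hx
        rw [hq.span]
        exact Submodule.subset_span ⟨i, x, hx, rfl⟩
      obtain ⟨X, hX, hXM⟩ := hmem x hx
      obtain ⟨Y, hY, hYM⟩ := hmem y hy
      have h3 := (h1 Y (der_NA_le hY) X (der_NA_le hX)).2 _ (hYM.br hXM) z hz
      rw [← hq.br i x y hx hy] at h3
      refine hq.inj i _ (cb_re _ _) ?_
      change φ i (cb x y * z - z * cb x y) = 0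
      rw [hq.br i _ z (cb_re x y) hz]
      exact sub_eq_zero.2 h3
    have h3 : cb (uI : ℍ[F i, a i, b i]) uJ = 0 := by
      refine eq_zero_of_comm (hq.ha i) (hq.hb i) (cb_re _ _) fun y hy => ?_
      rw [cb_anti, h2 uI uJ y rfl rfl hy, neg_zero]
    have h4 := congrArg QuaternionAlgebra.imK h3
    simp [cb] at h4

/-- **The derived algebra of the Lie algebra of the group** is everything. -/
theorem full_mats (h : Mot w B P) (hW : WRel w B Wt) (hH : PtM P H)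
    (hq : QType (mats B (der A.NA)) φ) (hd : ∀ i, ¬ Descends (F i) (a i) (b i))
    (hiso : ∀ i j, i ≠ j → ¬ PureIso (F i) (a i) (b i) (F j) (a j) (b j)) :
    mats B (der A.NA) ≤ mats B (dq B Wt H) := by
  obtain ⟨h1, h2, h3, h4⟩ := mats_dq h hW hH hq
  exact hq.eq_of_perfect hd hiso h1 h2 h3 h4

theorem mats_LQ (h : Mot w B P) (hW : WRel w B Wt) : mats B (dq B Wt H) ≤ LQ H := by
  rintro M ⟨Z, hZ, hM⟩
  obtain ⟨-, M', h1, h2⟩ := der_mem h hW hZ
  rwa [hM.uniq h.li h1]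

theorem spR_le (hle : mats B (der A.NA) ≤ mats B (dq B Wt H)) :
    spR B (der A.NA : Set (Module.End ℚ A.H1)) ≤ spR B (dq B Wt H : Set (Module.End ℚ A.H1)) := by
  unfold spR
  rw [Submodule.span_le]
  rintro _ ⟨X, hX, M, hM, rfl⟩
  obtain ⟨Z, hZ, hZM⟩ := hle ⟨X, hX, hM⟩
  exact Submodule.subset_span ⟨Z, hZ, M, hZM, rfl⟩

/-- **Main theorem**, without a condition on the centre: the derived algebra of the Lie algebra of
the Hodge group is in the Lie algebra of the group. -/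
theorem main_derQ (h : Mot w B P) (hW : WRel w B Wt)
    (hH : PtM P H) (hN : RelR B AbVar.JJ N)
    (hle : mats B (der A.NA) ≤ mats B (dq B Wt H)) :
    ∃ L : Submodule ℚ (Matrix (Fin n) (Fin n) ℚ), (∀ x ∈ L, ∀ y ∈ L, x * y - y * x ∈ L) ∧
      N ∈ Submodule.span ℝ {M | ∃ x ∈ L, M = rq x} ∧
      ∀ x ∈ L, ∀ y ∈ L, x * y - y * x ∈ LQ H := by
  obtain ⟨N', hN', t, X, M, h1, h2⟩ := exists_J h
  have h3 : N = N' := hN.uniq h.li hN'
  subst h3
  have h4 : N ∈ spR B (A.NA : Set (Module.End ℚ A.H1)) := by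
    rw [h2]
    exact Submodule.sum_mem _ fun k _ => Submodule.smul_mem _ _ (mem_spR (h1 k).1 (h1 k).2)
  obtain ⟨Nc, hNc, Nd, hNd, hNe⟩ := exists_dec h h4
  have h5 := spR_le hle hNd
  refine ⟨cdM B Wt H, fun x hx y hy => ?_, ?_, fun x hx y hy => ?_⟩
  · obtain ⟨d, hd, hd'⟩ := cdM_br h hW hH hx hy
    exact ⟨0, (cenA A).zero_mem, d, hd, 0, _, Rel.zero, hd', (zero_add _).symm⟩
  · rw [hNe]
    refine Submodule.add_mem _ ?_ ?_
    · refine Submodule.span_mono ?_ hNc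
      rintro _ ⟨Z, hZ, M, hM, rfl⟩
      exact ⟨M, ⟨Z, hZ, 0, (dq B Wt H).zero_mem, M, 0, hM, Rel.zero, (add_zero _).symm⟩, rfl⟩
    · refine Submodule.span_mono ?_ h5
      rintro _ ⟨d, hd, M, hM, rfl⟩
      exact ⟨M, ⟨0, (cenA A).zero_mem, d, hd, 0, M, Rel.zero, hM, (zero_add _).symm⟩, rfl⟩
  · obtain ⟨d, hd, hd'⟩ := cdM_br h hW hH hx hy
    obtain ⟨-, M', h6, h7⟩ := der_mem h hW hd
    rw [hd'.uniq h.li h6]
    exact h7

/-- **Main theorem**, if the centre acts trivially. -/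
theorem main_Q (h : Mot w B P) (hW : WRel w B Wt) (hH : PtM P H)
    (hc : NoCentre B) (hN : RelR B AbVar.JJ N)
    (hle : mats B (der A.NA) ≤ mats B (dq B Wt H))
    {z : ℂ} (hz : z ≠ 0) : NormedSpace.exp (KK Wt N z) ∈ H ∧
      HRel w B z (NormedSpace.exp (KK Wt N z)) := by
  obtain ⟨N', hN', t, X, M, h1, h2⟩ := exists_J h
  have h3 : N = N' := hN.uniq h.li hN'
  subst h3
  have h4 : N ∈ spR B (A.NA : Set (Module.End ℚ A.H1)) := by
    rw [h2]
    exact Submodule.sum_mem _ fun k _ => Submodule.smul_mem _ _ (mem_spR (h1 k).1 (h1 k).2)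
  obtain ⟨Nc, hNc, Nd, hNd, hNe⟩ := exists_dec h h4
  have h5 := spR_le hle hNd
  have h6 : Nc = 0 := by
    clear hNe
    induction hNc using Submodule.span_induction with
    | mem x hx =>
      obtain ⟨Z, hZ, M, hM, rfl⟩ := hx
      have h7 : Rel B Z 0 := hc Z hZ.1 fun Y hY => by
        rw [hZ.2 Y hY, sub_self]
        exact Rel.zero
      rw [hM.uniq h.li h7, rq_zero]
    | zero => rfl
    | add a b _ _ ha hb => rw [ha, hb, add_zero]
    | smul c a _ ha => rw [ha, smul_zero]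
  rw [h6, zero_add] at hNe
  rw [← hNe] at h5
  refine ⟨exp_mem hH.grp fun d => ?_, hrel_exp hW hN hz⟩
  unfold KK
  exact ((Wt_mem h hW hH hc d).smul _).add ((stab_spR h hW h5 d).smul _)

open Pool.Agent.N208.CT in
/-- **Main theorem**, if the centre is rigid. -/
theorem main_rig (h : Mot w B P) (hW : WRel w B Wt) (hH : PtM P H)
    (hrig : Pool.Agent.N208.CT.Rigid A) (hN : RelR B AbVar.JJ N)
    (hle : mats B (der A.NA) ≤ mats B (dq B Wt H))
    {z : ℂ} (hz : z ≠ 0) : NormedSpace.exp (KK Wt N z) ∈ H ∧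
      HRel w B z (NormedSpace.exp (KK Wt N z)) := by
  obtain ⟨N', hN', t, X, M, h1, h2⟩ := exists_J h
  have h3 : N = N' := hN.uniq h.li hN'
  subst h3
  have h4 : N ∈ spR B (A.NA : Set (Module.End ℚ A.H1)) := by
    rw [h2]
    exact Submodule.sum_mem _ fun k _ => Submodule.smul_mem _ _ (mem_spR (h1 k).1 (h1 k).2)
  obtain ⟨Nc, hNc, Nd, hNd, hNe⟩ := exists_dec h h4
  have h5 := spR_le hle hNd
  refine ⟨exp_mem hH.grp fun d => ?_, hrel_exp hW hN hz⟩
  have h6 : cxm N = cxm Nc + cxm Nd := by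
    rw [hNe]
    ext i j
    simp [cxm]
  unfold KK
  rw [h6]
  exact ((Wt_mem' h hW hH d).smul _).add
    (((stab_cen h hW hH hrig hNc d).add (stab_spR h hW h5 d)).smul _)

end Pool.Agent.H19HP
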