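import Pool.Agent.H19HP.Et2
import Pool.Agent.H19HP.Mot

set_option autoImplicit false
set_option linter.unusedSectionVars false

/-!
# Full subalgebras and the Lie algebra of the pure quaternions over a product of fields
-/

open Module Function Matrix Quaternion

noncomputable section

namespace Pool.Agent.H19HP.Et

open Pool.Agent.Y102 Pool.Agent.W516.DR Pool.Agent.H204R3.GP Pool.Agent.W516.KC
  Pool.Agent.H204R3.SP Pool.Agent.TH119.MX Pool.Agent.R917 Pool.Agent.N208.AM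

variable {g : ℕ} {A : AbVar g} {s n : ℕ} {r : Fin s → ℕ} {B : Fin n → Ten A r} {w : Fin s → ℤ}
  {P : Matrix (Fin n) (Fin n) ℂ}
  {F : Type} [CommRing F] [Algebra ℚ F] {a b : F}

/-- The Lie algebra `S` is the image of the pure quaternions. -/
structure ET {R : Type} [Ring R] [Algebra ℚ R] (S : Submodule ℚ R) (φ : ℍ[F, a, b] →ₗ[ℚ] R) :
    Prop where
  br : ∀ x y : ℍ[F, a, b], x.re = 0 → y.re = 0 → φ (cb x y) = φ x * φ y - φ y * φ x
  inj : ∀ x : ℍ[F, a, b], x.re = 0 → φ x = 0 → x = 0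
  mem : ∀ M, M ∈ S ↔ ∃ x : ℍ[F, a, b], x.re = 0 ∧ φ x = M

/-- The pure quaternions which correspond to a space of endomorphisms. -/
def EE (B : Fin n → Ten A r) (φ : ℍ[F, a, b] →ₗ[ℚ] Matrix (Fin n) (Fin n) ℚ)
    (S : Submodule ℚ (Module.End ℚ A.H1)) : Submodule ℚ ℍ[F, a, b] where
  carrier := {x | x.re = 0 ∧ ∃ X ∈ S, Rel B X (φ x)}
  zero_mem' := ⟨rfl, 0, S.zero_mem, by rw [map_zero]; exact Rel.zero⟩
  add_mem' := by
    rintro x y ⟨hx, X, hX, h1⟩ ⟨hy, Y, hY, h2⟩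
    refine ⟨by rw [QuaternionAlgebra.re_add, hx, hy, add_zero], X + Y, S.add_mem hX hY, ?_⟩
    rw [map_add]
    exact h1.add h2
  smul_mem' := by
    rintro c x ⟨hx, X, hX, h1⟩
    refine ⟨by rw [QuaternionAlgebra.re_smul, hx, smul_zero], c • X, S.smul_mem c hX, ?_⟩
    rw [map_smul]
    exact h1.smul c

variable {φ : ℍ[F, a, b] →ₗ[ℚ] Matrix (Fin n) (Fin n) ℚ}
  {𝔮 : Submodule ℚ (Module.End ℚ A.H1)}

theorem inj' (et : ET (mats B (der A.NA)) φ) {x y : ℍ[F, a, b]} (hx : x.re = 0) (hy : y.re = 0)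
    (h : φ x = φ y) : x = y := by
  rw [← sub_eq_zero]
  exact et.inj _ (by rw [QuaternionAlgebra.re_sub, hx, hy, sub_zero]) (by
    rw [map_sub, h, sub_self])

theorem der_mono' {S T : Submodule ℚ (Module.End ℚ A.H1)} (h : S ≤ T) : der S ≤ der T :=
  Submodule.span_mono fun _ ⟨X, hX, Y, hY, e⟩ => ⟨X, h hX, Y, h hY, e⟩

theorem rep (h : Mot w B P) (et : ET (mats B (der A.NA)) φ) {U : Module.End ℚ A.H1}
    (hU : U ∈ der A.NA) : ∃ u : ℍ[F, a, b], u.re = 0 ∧ Rel B U (φ u) := by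
  obtain ⟨M, hM⟩ := h.st U (der_NA_le hU)
  obtain ⟨u, hu, rfl⟩ := (et.mem M).1 ⟨U, hU, hM⟩
  exact ⟨u, hu, hM⟩

/-- the bracket -/
theorem rel_br (et : ET (mats B (der A.NA)) φ) {X Y : Module.End ℚ A.H1} {x y : ℍ[F, a, b]}
    (hx : x.re = 0) (hy : y.re = 0) (h1 : Rel B X (φ x)) (h2 : Rel B Y (φ y)) :
    Rel B (X * Y - Y * X) (φ (cb y x)) := by
  rw [et.br y x hy hx]
  exact h1.br h2

/-- the action of the Lie algebra -/
theorem act_NA (h : Mot w B P) (et : ET (mats B (der A.NA)) φ) {X : Module.End ℚ A.H1}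
    (hX : X ∈ A.NA) {M : Matrix (Fin n) (Fin n) ℚ} (hM : Rel B X M) :
    ∃ x : ℍ[F, a, b], x.re = 0 ∧ ∀ y : ℍ[F, a, b], y.re = 0 →
      M * φ y - φ y * M = φ (cb x y) := by
  obtain ⟨Z, hZ, d, hd, rfl, hcomm⟩ := full_NA.dec hX
  obtain ⟨M1, hM1⟩ := h.st Z hZ
  obtain ⟨x, hx, hM2⟩ := rep h et hd
  refine ⟨x, hx, fun y hy => ?_⟩
  have h1 : φ y ∈ mats B (der A.NA) := (et.mem _).2 ⟨y, hy, rfl⟩
  obtain ⟨Y, hY, hYM⟩ := h1
  have h2 : M1 * φ y = φ y * M1 := by
    have h3 := hYM.br hM1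
    rw [← hcomm Y (der_NA_le hY), sub_self] at h3
    exact sub_eq_zero.1 (Rel.zero.uniq h.li h3).symm
  rw [hM.uniq h.li (hM1.add hM2), add_mul, mul_add, h2, et.br x y hx hy]
  abel

theorem EE_br (et : ET (mats B (der A.NA)) φ) (hq : A.Full 𝔮) :
    ∀ x ∈ EE B φ (der 𝔮), ∀ y ∈ EE B φ (der 𝔮), cb x y ∈ EE B φ (der 𝔮) := by
  rintro x ⟨hx, X, hX, h1⟩ y ⟨hy, Y, hY, h2⟩
  exact ⟨cb_re _ _, Y * X - X * Y,
    Submodule.subset_span ⟨Y, hq.der_le hY, X, hq.der_le hX, rfl⟩, rel_br et hy hx h2 h1⟩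

theorem EE_perfect (h : Mot w B P) (et : ET (mats B (der A.NA)) φ) (hq : A.Full 𝔮) :
    EE B φ (der 𝔮) ≤ Submodule.span ℚ {z | ∃ x ∈ EE B φ (der 𝔮), ∃ y ∈ EE B φ (der 𝔮),
      z = cb x y} := by
  rintro x ⟨hx, Z, hZ, hM⟩
  have h1 := hq.perfect hZ
  have hdN : der 𝔮 ≤ der A.NA := der_mono' hq.le
  have hder : ∀ c ∈ Submodule.span ℚ {Z | ∃ X ∈ der 𝔮, ∃ Y ∈ der 𝔮,
      Z = X * Y - Y * X}, c ∈ der A.NA := by
    intro c hc
    refine (Submodule.span_le.2 ?_) hc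
    rintro _ ⟨X, hX, Y, hY, rfl⟩
    exact hdN (Submodule.subset_span ⟨X, hq.der_le hX, Y, hq.der_le hY, rfl⟩)
  clear hZ
  induction h1 using Submodule.span_induction generalizing x with
  | mem Z hZ =>
    obtain ⟨X, hX, Y, hY, rfl⟩ := hZ
    obtain ⟨u, hu, hM1⟩ := rep h et (hdN hX)
    obtain ⟨v, hv, hM2⟩ := rep h et (hdN hY)
    have h2 := rel_br et hu hv hM1 hM2
    rw [inj' et hx (cb_re _ _) (hM.uniq h.li h2)]
    exact Submodule.subset_span ⟨v, ⟨hv, Y, hY, hM2⟩, u, ⟨hu, X, hX, hM1⟩, rfl⟩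
  | zero =>
    have h2 : x = 0 := et.inj x hx (hM.uniq h.li Rel.zero)
    rw [h2]
    exact Submodule.zero_mem _
  | add c d hc' hd' hc hd =>
    obtain ⟨u, hu, hM1⟩ := rep h et (hder c hc')
    obtain ⟨v, hv, hM2⟩ := rep h et (hder d hd')
    have h2 : x = u + v := inj' et hx (by rw [QuaternionAlgebra.re_add, hu, hv, add_zero]) (by
      rw [map_add]
      exact hM.uniq h.li (hM1.add hM2))
    rw [h2]
    exact Submodule.add_mem _ (hc hu hM1) (hd hv hM2)
  | smul t c hc' hc =>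
    obtain ⟨u, hu, hM1⟩ := rep h et (hder c hc')
    have h2 : x = t • u := inj' et hx (by rw [QuaternionAlgebra.re_smul, hu, smul_zero]) (by
      rw [map_smul]
      exact hM.uniq h.li (hM1.smul t))
    rw [h2]
    exact Submodule.smul_mem _ _ (hc hu hM1)

/-- Ideals of a product of fields. -/
theorem exists_idem [IsReduced F] [Module.Finite ℚ F] (D : Ideal F) :
    ∃ e : F, 1 - e ∈ D ∧ ∀ d ∈ D, e * d = 0 := by
  have h1 : IsArtinianRing F := IsArtinianRing.of_finite ℚ F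
  have h2 : IsSemisimpleRing F := IsArtinianRing.isSemisimpleRing_of_isReduced F
  obtain ⟨D', hD⟩ := exists_isCompl D
  have h3 : (1 : F) ∈ D ⊔ D' := by rw [hD.sup_eq_top]; trivial
  obtain ⟨c, hc, e, he, h4⟩ := Submodule.mem_sup.1 h3
  refine ⟨e, ?_, fun d hd => ?_⟩
  · rw [← h4, add_sub_cancel_right]
    exact hc
  · have h5 : e * d ∈ D ⊓ D' := ⟨D.mul_mem_left e hd, D'.mul_mem_right d he⟩
    rw [hD.inf_eq_bot] at h5
    exact h5

/-- **The span over the ring.** -/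
theorem EE_span [IsReduced F] [Module.Finite ℚ F] (hb : IsUnit b)
    (h : Mot w B P) (et : ET (mats B (der A.NA)) φ)
    (hq : A.Full 𝔮) {v : ℍ[F, a, b]} (hv : v.re = 0) :
    v ∈ Submodule.span F (EE B φ (der 𝔮) : Set ℍ[F, a, b]) := by
  set E := EE B φ (der 𝔮) with hE
  have hre : ∀ x ∈ E, x.re = 0 := fun x hx => hx.1
  have hperf : E ≤ Submodule.span ℚ {z | ∃ x ∈ E, ∃ y ∈ E, z = cb x y} := EE_perfect h et hq
  let D : Ideal F := Ideal.span {c | ∃ x ∈ E, ∃ y ∈ E, ∃ z ∈ E, c = q2 x (cb y z)}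
  obtain ⟨e, he1, he2⟩ := exists_idem D
  -- elements of `D`
  have h1 : ∀ c ∈ D, c • v ∈ Submodule.span F (E : Set ℍ[F, a, b]) := by
    intro c hc
    induction hc using Submodule.span_induction with
    | mem c hc =>
      obtain ⟨x, hx, y, hy, z, hz, rfl⟩ := hc
      rw [cramer hv (hre x hx) (hre y hy) (hre z hz)]
      exact Submodule.add_mem _ (Submodule.add_mem _
        (Submodule.smul_mem _ _ (Submodule.subset_span hx))
        (Submodule.smul_mem _ _ (Submodule.subset_span hy)))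
        (Submodule.smul_mem _ _ (Submodule.subset_span hz))
    | zero => rw [zero_smul]; exact Submodule.zero_mem _
    | add c d _ _ hc hd => rw [add_smul]; exact Submodule.add_mem _ hc hd
    | smul t c _ hc => rw [smul_eq_mul, mul_smul]; exact Submodule.smul_mem _ _ hc
  -- `e` kills `E`
  have hsm : ∀ (t : ℚ) (x : ℍ[F, a, b]), t • x = algebraMap ℚ F t • x := fun t x =>
    (algebraMap_smul F t x).symm
  have h2 : ∀ x ∈ E, ∀ z ∈ E, e * q2 x z = 0 := by
    intro x hx z hz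
    have h3 := hperf hz
    clear hz
    induction h3 using Submodule.span_induction with
    | mem z hz =>
      obtain ⟨y, hy, z, hz, rfl⟩ := hz
      exact he2 _ (Ideal.subset_span ⟨x, hx, y, hy, z, hz, rfl⟩)
    | zero => rw [q2_comm, q2_zero, mul_zero]
    | add c d _ _ hc hd => rw [q2_add', mul_add, hc, hd, add_zero]
    | smul t c _ hc => rw [hsm, q2_smul', mul_left_comm, hc, mul_zero]
  have h3 : ∀ u ∈ E, ∀ z ∈ E, e • cb u z = 0 := by
    intro u hu z hz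
    have h4 := hperf hz
    clear hz
    induction h4 using Submodule.span_induction with
    | mem z hz =>
      obtain ⟨z, hz, v, hv, rfl⟩ := hz
      rw [triple (hre u hu) (hre z hz) (hre v hv), smul_comm, smul_sub, smul_smul, smul_smul,
        h2 u hu z hz, h2 u hu v hv, zero_smul, zero_smul, sub_zero, smul_zero]
    | zero => rw [cb_zero', smul_zero]
    | add c d _ _ hc hd => rw [cb_add', smul_add, hc, hd, add_zero]
    | smul t c _ hc => rw [hsm, cb_smul', smul_comm, hc, smul_zero]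
  have h4 : ∀ z ∈ E, e • z = 0 := by
    intro z hz
    have h5 := hperf hz
    clear hz
    induction h5 using Submodule.span_induction with
    | mem z hz =>
      obtain ⟨u, hu, z, hz, rfl⟩ := hz
      exact h3 u hu z hz
    | zero => rw [smul_zero]
    | add c d _ _ hc hd => rw [smul_add, hc, hd, add_zero]
    | smul t c _ hc => rw [hsm, smul_comm, hc, smul_zero]
  -- the ideal
  let 𝔫 : Submodule ℚ (Module.End ℚ A.H1) :=
    { carrier := {X | X ∈ A.NA ∧ ∀ M, Rel B X M → ∀ y : ℍ[F, a, b], y.re = 0 →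
        M * φ (e • y) = φ (e • y) * M}
      zero_mem' := ⟨A.NA.zero_mem, fun M hM y _ => by
        rw [hM.uniq h.li Rel.zero, zero_mul, mul_zero]⟩
      add_mem' := by
        rintro X Y ⟨hX, h1⟩ ⟨hY, h2⟩
        refine ⟨A.NA.add_mem hX hY, fun M hM y hy => ?_⟩
        obtain ⟨M1, hM1⟩ := h.st X hX
        obtain ⟨M2, hM2⟩ := h.st Y hY
        rw [hM.uniq h.li (hM1.add hM2), add_mul, mul_add, h1 M1 hM1 y hy, h2 M2 hM2 y hy]
      smul_mem' := by
        rintro c X ⟨hX, h1⟩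
        refine ⟨A.NA.smul_mem c hX, fun M hM y hy => ?_⟩
        obtain ⟨M1, hM1⟩ := h.st X hX
        rw [hM.uniq h.li (hM1.smul c), smul_mul_assoc, mul_smul_comm, h1 M1 hM1 y hy] }
  have h5 : ∀ X ∈ A.NA, ∀ Y ∈ A.NA, X * Y - Y * X ∈ 𝔫 := fun X hX Y hY => by
    refine der_le_of_ideal hq (𝔫 := 𝔫) ?_ (fun X hX => hX.1) ?_ hX hY
    · rintro X hX Y ⟨hY, hYt⟩
      refine ⟨A.NA_bracket hX hY, fun M hM y hy => ?_⟩
      obtain ⟨M1, hM1⟩ := h.st X hX
      obtain ⟨M2, hM2⟩ := h.st Y hY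
      obtain ⟨x, hx, hx'⟩ := act_NA h et hX hM1
      have hy' : (e • y).re = 0 := by rw [QuaternionAlgebra.re_smul, hy, smul_zero]
      have e0 := hx' _ hy'
      have e1 := hYt M2 hM2 y hy
      have e2 := hYt M2 hM2 (cb x y) (cb_re _ _)
      rw [← cb_smul', ← e0] at e2
      rw [hM.uniq h.li (hM1.br hM2)]
      have e3 : (M2 * M1 - M1 * M2) * φ (e • y) - φ (e • y) * (M2 * M1 - M1 * M2) =
          (M2 * (M1 * φ (e • y) - φ (e • y) * M1) - (M1 * φ (e • y) - φ (e • y) * M1) * M2) +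
          (M2 * φ (e • y) * M1 - φ (e • y) * M2 * M1) -
            (M1 * (M2 * φ (e • y)) - M1 * (φ (e • y) * M2)) := by
        noncomm_ring
      rw [e2, sub_self, e1, sub_self, sub_self, zero_add, sub_zero] at e3
      exact sub_eq_zero.1 e3
    · intro X hX Y hY
      have h6 : X * Y - Y * X ∈ der 𝔮 := Submodule.subset_span ⟨X, hX, Y, hY, rfl⟩
      refine ⟨der_NA_le (der_mono' hq.le h6), fun M hM y hy => ?_⟩
      obtain ⟨x, hx, hxM⟩ := rep h et (der_mono' hq.le h6)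
      have h7 : x ∈ E := ⟨hx, _, h6, hxM⟩
      have hy' : (e • y).re = 0 := by rw [QuaternionAlgebra.re_smul, hy, smul_zero]
      rw [hM.uniq h.li hxM, ← sub_eq_zero, ← et.br x _ hx hy', cb_smul', ← cb_smul, h4 x h7,
        cb_zero, map_zero]
  have h6 : ∀ x y z : ℍ[F, a, b], x.re = 0 → y.re = 0 → z.re = 0 →
      e • cb (cb x y) z = 0 := by
    intro x y z hx hy hz
    obtain ⟨X, hX, hXM⟩ := (et.mem _).2 ⟨x, hx, rfl⟩
    obtain ⟨Y, hY, hYM⟩ := (et.mem _).2 ⟨y, hy, rfl⟩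
    have h3 := (h5 Y (der_NA_le hY) X (der_NA_le hX)).2 _ (rel_br et hy hx hYM hXM) z hz
    have hz' : (e • z).re = 0 := by rw [QuaternionAlgebra.re_smul, hz, smul_zero]
    rw [← sub_eq_zero, ← et.br _ _ (cb_re _ _) hz', cb_smul'] at h3
    exact et.inj _ (by rw [QuaternionAlgebra.re_smul, cb_re, smul_zero]) h3
  have h7 := h6 uI uJ uJ rfl rfl rfl
  have h8 : e = 0 := by
    have h9 := congrArg QuaternionAlgebra.imI h7
    have h10 : (cb (cb (uI : ℍ[F, a, b]) uJ) uJ).imI = 4 * b := by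
      simp [cb]
      ring
    rw [QuaternionAlgebra.imI_smul, h10, smul_eq_mul] at h9
    have h11 : IsUnit (4 * b : F) := by
      refine IsUnit.mul ?_ hb
      have h12 : IsUnit (algebraMap ℚ F 4) := (isUnit_iff_ne_zero.2 (by norm_num)).map _
      rwa [map_ofNat] at h12
    exact (h11.mul_left_eq_zero).1 h9
  rw [h8, sub_zero] at he1
  have h9 := h1 1 he1
  rwa [one_smul] at h9

end Pool.Agent.H19HP.Et
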