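import Pool.Agent.H19HP.Et3

set_option autoImplicit false
set_option linter.unusedSectionVars false

/-!
# Full subalgebras and forms of quaternion algebras
-/

open Module Function Matrix Quaternion

noncomputable section

namespace Pool.Agent.H19HP.Et

open Pool.Agent.Y102 Pool.Agent.W516.DR Pool.Agent.H204R3.GP Pool.Agent.W516.KC
  Pool.Agent.H204R3.SP Pool.Agent.TH119.MX Pool.Agent.R917 Pool.Agent.N208.AM

variable {g : ℕ} {A : AbVar g} {s n : ℕ} {r : Fin s → ℕ} {B : Fin n → Ten A r} {w : Fin s → ℤ}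
  {P : Matrix (Fin n) (Fin n) ℂ}
  {F : Type} [CommRing F] [Algebra ℚ F] {a b : F}
  {φ : ℍ[F, a, b] →ₗ[ℚ] Matrix (Fin n) (Fin n) ℚ}
  {𝔮 : Submodule ℚ (Module.End ℚ A.H1)}

/-- An element which commutes with the Lie algebra is zero. -/
theorem eq_zero_of_comm' [IsReduced F] (ha : IsUnit a) (hb : IsUnit b) {z : ℍ[F, a, b]}
    (hz : z.re = 0) (h : ∀ y : ℍ[F, a, b], y.re = 0 → cb z y = 0) : z = 0 := by
  have h1 : ∀ v : ℍ[F, a, b], v.re = 0 → q2 z z • v = q2 z v • z := by
    intro v hv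
    have h2 := triple hz hz hv
    rw [h v hv, cb_zero'] at h2
    have h4 : IsUnit (4 : F) := by
      have h12 : IsUnit (algebraMap ℚ F 4) := (isUnit_iff_ne_zero.2 (by norm_num)).map _
      rwa [map_ofNat] at h12
    exact sub_eq_zero.1 (h4.smul_eq_zero.1 h2.symm)
  obtain ⟨-, h2, h3, h4⟩ := degenerate ha hb h1
  have e1 := congrArg QuaternionAlgebra.imI h2
  have e2 := congrArg QuaternionAlgebra.imJ h3
  have e3 := congrArg QuaternionAlgebra.imK h4
  simp only [QuaternionAlgebra.imI_smul, QuaternionAlgebra.imJ_smul, QuaternionAlgebra.imK_smul,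
    smul_eq_mul, QuaternionAlgebra.imI_zero, QuaternionAlgebra.imJ_zero,
    QuaternionAlgebra.imK_zero] at e1 e2 e3
  have hsq : ∀ c : F, c * c = 0 → c = 0 := fun c hc => by
    rw [← pow_two] at hc
    exact (pow_eq_zero_iff two_ne_zero).1 hc
  ext
  · exact hz
  · exact hsq _ e1
  · exact hsq _ e2
  · exact hsq _ e3

theorem smul_tower (t : ℚ) (c : F) (x : ℍ[F, a, b]) : t • (c • x) = c • (t • x) := by
  rw [smul_comm]

/-- **The squares act on the Lie algebra.** -/
theorem EE_sq [IsReduced F] [Module.Finite ℚ F] (ha : IsUnit a) (hb : IsUnit b)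
    (h : Mot w B P) (et : ET (mats B (der A.NA)) φ)
    (hq : A.Full 𝔮) {z x : ℍ[F, a, b]} (hz : z ∈ EE B φ (der 𝔮)) (hx : x ∈ EE B φ (der 𝔮)) :
    q2 z z • x ∈ EE B φ (der 𝔮) := by
  have hsp : ∀ {v : ℍ[F, a, b]}, v.re = 0 →
      v ∈ Submodule.span F (EE B φ (der 𝔮) : Set ℍ[F, a, b]) := fun hv => EE_span hb h et hq hv
  have hbr := EE_br et hq (B := B)
  set E := EE B φ (der 𝔮) with hE
  have hre : ∀ x ∈ E, x.re = 0 := fun x hx => hx.1
  have hdN : der 𝔮 ≤ der A.NA := der_mono' hq.le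
  have hd𝔮 := hq.der_le
  have h4 : IsUnit (4 : F) := by
    have h12 : IsUnit (algebraMap ℚ F 4) := (isUnit_iff_ne_zero.2 (by norm_num)).map _
    rwa [map_ofNat] at h12
  -- the ideal
  let 𝔫 : Submodule ℚ (Module.End ℚ A.H1) :=
    { carrier := {U | ∃ C ∈ 𝔮, (∀ Y ∈ 𝔮, C * Y = Y * C) ∧ ∃ U' ∈ der 𝔮, ∃ u : ℍ[F, a, b],
        u.re = 0 ∧ Rel B U' (φ u) ∧ U = C + U' ∧ q2 z z • u ∈ E}
      zero_mem' := ⟨0, 𝔮.zero_mem, fun Y _ => by rw [zero_mul, mul_zero], 0, (der 𝔮).zero_mem, 0,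
        rfl, by rw [map_zero]; exact Rel.zero, (add_zero _).symm, by
          rw [smul_zero]; exact E.zero_mem⟩
      add_mem' := by
        rintro _ _ ⟨C, hC, hC', U, hU, u, hu, h1, rfl, h2⟩ ⟨D, hD, hD', V, hV, v, hv, h1', rfl, h2'⟩
        refine ⟨C + D, 𝔮.add_mem hC hD, fun Y hY => by rw [add_mul, mul_add, hC' Y hY, hD' Y hY],
          U + V, (der 𝔮).add_mem hU hV, u + v, by
            rw [QuaternionAlgebra.re_add, hu, hv, add_zero], ?_, by abel, ?_⟩
        · rw [map_add]; exact h1.add h1'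
        · rw [smul_add]; exact E.add_mem h2 h2'
      smul_mem' := by
        rintro t _ ⟨C, hC, hC', U, hU, u, hu, h1, rfl, h2⟩
        refine ⟨t • C, 𝔮.smul_mem t hC, fun Y hY => by
          rw [smul_mul_assoc, mul_smul_comm, hC' Y hY], t • U, (der 𝔮).smul_mem t hU, t • u, by
            rw [QuaternionAlgebra.re_smul, hu, smul_zero], ?_, by rw [smul_add], ?_⟩
        · rw [map_smul]; exact h1.smul t
        · rw [← smul_tower]; exact E.smul_mem t h2 }
  have hn𝔮 : 𝔫 ≤ 𝔮 := by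
    rintro _ ⟨C, hC, hC', U, hU, u, hu, h1, rfl, h2⟩
    exact 𝔮.add_mem hC (hd𝔮 hU)
  have hbr𝔮 : ∀ {C U D V : Module.End ℚ A.H1}, (∀ Y ∈ 𝔮, C * Y = Y * C) →
      (∀ Y ∈ 𝔮, D * Y = Y * D) → C ∈ 𝔮 → U ∈ 𝔮 → V ∈ 𝔮 →
      (C + U) * (D + V) - (D + V) * (C + U) = U * V - V * U := by
    intro C U D V hC hD hC𝔮 hU hV
    have e1 := hC V hV
    have e2 := hD U hU
    have e3 := hD C hC𝔮
    rw [add_mul, mul_add, mul_add, add_mul, mul_add, mul_add, e1, e2, e3]
    abel
  obtain ⟨hzr, Z, hZ, hZM⟩ := hz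
  have hz : z ∈ E := ⟨hzr, Z, hZ, hZM⟩
  have h5 : 𝔮 ≤ 𝔫 := by
    refine ideal_eq hq hn𝔮 ?_ ?_
    · rintro X hX _ ⟨C, hC, hC', U, hU, u, hu, h1, rfl, h2⟩
      obtain ⟨D, hD, d, hd, rfl, hDc⟩ := hq.dec hX
      obtain ⟨v, hv, hvM⟩ := rep h et (hdN hd)
      have hvE : v ∈ E := ⟨hv, d, hd, hvM⟩
      refine ⟨0, 𝔮.zero_mem, fun Y _ => by rw [zero_mul, mul_zero], d * U - U * d,
        Submodule.subset_span ⟨d, hd𝔮 hd, U, hd𝔮 hU, rfl⟩, cb u v, cb_re _ _,
        rel_br et hv hu hvM h1, ?_, ?_⟩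
      · rw [zero_add]
        exact hbr𝔮 hDc hC' hD (hd𝔮 hd) (hd𝔮 hU)
      · rw [← cb_smul]
        exact hbr _ h2 _ hvE
    · intro U₀ hU₀ hcomm
      obtain ⟨C, hC, U, hU, rfl, hCc⟩ := hq.dec hU₀
      obtain ⟨u, hu, huM⟩ := rep h et (hdN hU)
      -- `u` commutes with the `[z, v]`
      have h6 : ∀ v ∈ E, cb u (cb z v) = 0 := by
        rintro v ⟨hv, V, hV, hvM⟩
        have h7 : V * Z - Z * V ∈ 𝔫 := by
          refine ⟨0, 𝔮.zero_mem, fun Y _ => by rw [zero_mul, mul_zero], V * Z - Z * V,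
            Submodule.subset_span ⟨V, hd𝔮 hV, Z, hd𝔮 hZ, rfl⟩, cb z v, cb_re _ _,
            rel_br et hv hzr hvM hZM, (zero_add _).symm, ?_⟩
          have h8 := triple hzr hzr (cb_re z v)
          rw [q2_cb, zero_smul, sub_zero] at h8
          have h9 : cb z (cb z (cb z v)) ∈ E :=
            hbr _ hz _ (hbr _ hz _ (hbr _ hz _ ⟨hv, V, hV, hvM⟩))
          rw [h8] at h9
          have h10 := E.smul_mem (4 : ℚ)⁻¹ h9
          have h11 : (4 : ℚ)⁻¹ • (4 : F) • q2 z z • cb z v = q2 z z • cb z v := by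
            have h12 : (4 : F) • (q2 z z • cb z v) = (4 : ℚ) • (q2 z z • cb z v) := by
              rw [← algebraMap_smul F (4 : ℚ), map_ofNat]
            rw [h12, smul_smul, inv_mul_cancel₀ (by norm_num), one_smul]
          rwa [h11] at h10
        have h8 := hcomm _ h7
        have h9 : U * (V * Z - Z * V) - (V * Z - Z * V) * U = 0 := by
          have h10 := hbr𝔮 (C := C) (U := U) (D := 0) (V := V * Z - Z * V) hCc
            (fun Y _ => by rw [zero_mul, mul_zero]) hC (hd𝔮 hU) (hn𝔮 h7)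
          rw [← h10, zero_add]
          exact sub_eq_zero.2 h8
        have h10 := rel_br et hu (cb_re _ _) huM (rel_br et hv hzr hvM hZM)
        rw [h9] at h10
        have h11 := et.inj _ (cb_re _ _) (h10.uniq h.li Rel.zero)
        rw [cb_anti, h11, neg_zero]
      have h7 : ∀ v : ℍ[F, a, b], v.re = 0 → cb u (cb z v) = 0 := by
        intro v hv
        have h8 : Submodule.span F (E : Set ℍ[F, a, b]) ≤
            LinearMap.ker ((cbL (a := a) (b := b) u).comp (cbL z)) :=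
          Submodule.span_le.2 fun v hv => h6 v hv
        exact h8 (hsp hv)
      have h8 : ∀ v : ℍ[F, a, b], v.re = 0 → q2 u z • v = q2 u v • z := by
        intro v hv
        have h9 := triple hu hzr hv
        rw [h7 v hv] at h9
        exact sub_eq_zero.1 (h4.smul_eq_zero.1 h9.symm)
      obtain ⟨-, k1, k2, k3⟩ := degenerate ha hb h8
      have h9 : q2 z z • u = 0 := by
        have e1 := congrArg QuaternionAlgebra.imI k1
        have e2 := congrArg QuaternionAlgebra.imJ k1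
        have e3 := congrArg QuaternionAlgebra.imK k1
        have e4 := congrArg QuaternionAlgebra.imI k2
        have e5 := congrArg QuaternionAlgebra.imJ k2
        have e6 := congrArg QuaternionAlgebra.imK k2
        have e7 := congrArg QuaternionAlgebra.imI k3
        have e8 := congrArg QuaternionAlgebra.imJ k3
        have e9 := congrArg QuaternionAlgebra.imK k3
        simp only [QuaternionAlgebra.imI_smul, QuaternionAlgebra.imJ_smul,
          QuaternionAlgebra.imK_smul, smul_eq_mul, QuaternionAlgebra.imI_zero,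
          QuaternionAlgebra.imJ_zero, QuaternionAlgebra.imK_zero] at e1 e2 e3 e4 e5 e6 e7 e8 e9
        ext
        · rw [QuaternionAlgebra.re_smul, hu, smul_zero]
          rfl
        · rw [QuaternionAlgebra.imI_smul, smul_eq_mul, q2, QuaternionAlgebra.imI_zero]
          linear_combination a * z.imI * e1 + b * z.imJ * e2 - a * b * z.imK * e3
        · rw [QuaternionAlgebra.imJ_smul, smul_eq_mul, q2, QuaternionAlgebra.imJ_zero]
          linear_combination a * z.imI * e4 + b * z.imJ * e5 - a * b * z.imK * e6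
        · rw [QuaternionAlgebra.imK_smul, smul_eq_mul, q2, QuaternionAlgebra.imK_zero]
          linear_combination a * z.imI * e7 + b * z.imJ * e8 - a * b * z.imK * e9
      exact ⟨C, hC, hCc, U, hU, u, hu, huM, rfl, by rw [h9]; exact E.zero_mem⟩
  -- conclusion
  obtain ⟨hxr, X, hX, hXM⟩ := hx
  obtain ⟨C, hC, hCc, U, hU, u, hu, huM, hXe, h6⟩ := h5 (hd𝔮 hX)
  have hCd : C ∈ der 𝔮 := by
    have h7 : C = X - U := by rw [hXe, add_sub_cancel_right]
    rw [h7]
    exact (der 𝔮).sub_mem hX hU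
  obtain ⟨c, hc, hcM⟩ := rep h et (hdN hCd)
  have h7 : ∀ y ∈ E, cb c y = 0 := by
    rintro y ⟨hy, Y, hY, hyM⟩
    have h8 := rel_br et hy hc hyM hcM
    rw [← hCc Y (hd𝔮 hY), sub_self] at h8
    exact et.inj _ (cb_re _ _) (h8.uniq h.li Rel.zero)
  have h8 : c = 0 := by
    refine eq_zero_of_comm' ha hb hc fun y hy => ?_
    have h8 : Submodule.span F (E : Set ℍ[F, a, b]) ≤ LinearMap.ker (cbL (a := a) (b := b) c) :=
      Submodule.span_le.2 fun v hv => h7 v hv
    exact h8 (hsp hy)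
  have h9 : x = u := by
    refine inj' et hxr hu ?_
    have h10 := hcM.add huM
    rw [h8, map_zero, zero_add, ← hXe] at h10
    exact hXM.uniq h.li h10
  rw [h9]
  exact h6

end Pool.Agent.H19HP.Et
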