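import Pool.Agent.H19HP.Et4

set_option autoImplicit false
set_option linter.unusedSectionVars false

/-!
# The theorem for motives of quaternion type
-/

open Module Function Matrix Quaternion

noncomputable section

namespace Pool.Agent.H19HP.Et

open Pool.Agent.Y102 Pool.Agent.W516.DR Pool.Agent.H204R3.GP Pool.Agent.W516.KC
  Pool.Agent.H204R3.SP Pool.Agent.TH119.MX Pool.Agent.R917 Pool.Agent.N208.AM

variable {g : ℕ} {A : AbVar g} {s n : ℕ} {r : Fin s → ℕ} {B : Fin n → Ten A r} {w : Fin s → ℤ}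
  {P : Matrix (Fin n) (Fin n) ℂ}
  {F : Type} [CommRing F] [Algebra ℚ F] {a b : F}
  {φ : ℍ[F, a, b] →ₗ[ℚ] Matrix (Fin n) (Fin n) ℚ}
  {𝔮 : Submodule ℚ (Module.End ℚ A.H1)}

/-- A standard part of the homology. -/
structure Std (B : Fin n → Ten A r) (φ : ℍ[F, a, b] →ₗ[ℚ] Matrix (Fin n) (Fin n) ℚ)
    (ρ : ℍ[F, a, b] → Module.End ℚ A.H1) : Prop where
  add : ∀ x y, ρ (x + y) = ρ x + ρ y
  mul : ∀ x y, ρ (x * y) = ρ x * ρ y
  comm : ∀ X ∈ A.NA, X * ρ 1 = ρ 1 * X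
  act : ∀ X ∈ der A.NA, ∀ x : ℍ[F, a, b], x.re = 0 → Rel B X (φ x) → X * ρ 1 = -ρ x

/-- The algebra generated by a part of the centre and by the centre of the Lie algebra. -/
def ZZ (ρ : ℍ[F, a, b] → Module.End ℚ A.H1) (C : Set F) : Subalgebra ℚ (Module.End ℚ A.H1) :=
  Algebra.adjoin ℚ ({X | ∃ c ∈ C, X = ρ (algebraMap F _ c)} ∪
    {X | X ∈ A.NA ∧ ∀ Y ∈ A.NA, X * Y = Y * X})

theorem mneg (X Y : Module.End ℚ A.H1) : X * -Y = -(X * Y) := LinearMap.ext fun v => by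
  change X (-(Y v)) = -(X (Y v))
  rw [map_neg]

theorem negm (X Y : Module.End ℚ A.H1) : -X * Y = -(X * Y) := rfl

theorem re_alg (f : F) : (algebraMap F ℍ[F, a, b] f).re = f := by
  simp [QuaternionAlgebra.algebraMap_eq]

theorem im_alg (f : F) : (algebraMap F ℍ[F, a, b] f).im = 0 := by
  ext <;> simp [QuaternionAlgebra.algebraMap_eq]

section Rho

variable {ρ : ℍ[F, a, b] → Module.End ℚ A.H1}

theorem Std.one_mul' (hρ : Std B φ ρ) (x : ℍ[F, a, b]) : ρ 1 * ρ x = ρ x := by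
  rw [← hρ.mul, one_mul]

theorem Std.mul_one' (hρ : Std B φ ρ) (x : ℍ[F, a, b]) : ρ x * ρ 1 = ρ x := by
  rw [← hρ.mul, mul_one]

theorem Std.zero (hρ : Std B φ ρ) : ρ 0 = 0 := by
  have h := hρ.add 0 0
  rw [add_zero] at h
  exact left_eq_add.1 h

theorem Std.neg (hρ : Std B φ ρ) (x : ℍ[F, a, b]) : ρ (-x) = -ρ x := by
  have h := hρ.add x (-x)
  rw [add_neg_cancel, hρ.zero] at h
  exact eq_neg_of_add_eq_zero_right h.symm

/-- a scalar is a product of two pure quaternions -/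
theorem scalar_eq {a' : F} (ha' : a * a' = 1) (f : F) :
    algebraMap F ℍ[F, a, b] f = ((f * a') • uI) * uI := by
  ext <;> simp [QuaternionAlgebra.algebraMap_eq]
  linear_combination (-f) * ha'

theorem Std.comm_all (ha : IsUnit a) (hρ : Std B φ ρ)
    {T : Module.End ℚ A.H1}
    (hT : ∀ x : ℍ[F, a, b], x.re = 0 → T * ρ x = ρ x * T) (x : ℍ[F, a, b]) :
    T * ρ x = ρ x * T := by
  obtain ⟨a', ha'⟩ := ha.exists_right_inv
  have h1 : x = algebraMap F ℍ[F, a, b] x.re + x.im := by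
    ext <;> simp [QuaternionAlgebra.algebraMap_eq]
  rw [h1, hρ.add, mul_add, add_mul, hT x.im rfl, scalar_eq ha', hρ.mul, ← mul_assoc,
    hT _ (by simp), mul_assoc, hT _ rfl, mul_assoc]

theorem Std.cen (ha : IsUnit a) (et : ET (mats B (der A.NA)) φ) (hρ : Std B φ ρ)
    {T : Module.End ℚ A.H1} (hT : T ∈ A.NA) (hT' : ∀ Y ∈ A.NA, T * Y = Y * T) (x : ℍ[F, a, b]) :
    T * ρ x = ρ x * T := by
  refine hρ.comm_all ha (fun x hx => ?_) x
  obtain ⟨X, hX, hXM⟩ := (et.mem _).2 ⟨x, hx, rfl⟩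
  have h1 := hρ.act X hX x hx hXM
  have h2 : ρ x = -(X * ρ 1) := by rw [h1, neg_neg]
  have h3 : T * (X * ρ 1) = X * ρ 1 * T := by
    rw [← mul_assoc, hT' X (der_NA_le hX), mul_assoc, hρ.comm T hT, mul_assoc]
  have h4 : T * -(X * ρ 1) = -(T * (X * ρ 1)) := mneg _ _
  have h5 : -(X * ρ 1) * T = -(X * ρ 1 * T) := negm _ _
  rw [h2, h4, h5, h3]

/-- The algebra commutes with the quaternions. -/
theorem ZZ_comm (ha : IsUnit a) (et : ET (mats B (der A.NA)) φ) (hρ : Std B φ ρ) {C : Set F}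
    {T : Module.End ℚ A.H1} (hT : T ∈ ZZ ρ C) (x : ℍ[F, a, b]) : T * ρ x = ρ x * T := by
  induction hT using Algebra.adjoin_induction with
  | mem T hT =>
    rcases hT with ⟨c, -, rfl⟩ | ⟨h1, h2⟩
    · rw [← hρ.mul, ← hρ.mul, Algebra.commutes]
    · exact hρ.cen ha et h1 h2 x
  | algebraMap q => exact Algebra.commutes q _
  | add X Y _ _ hX hY => rw [add_mul, mul_add, hX, hY]
  | mul X Y _ _ hX hY => rw [mul_assoc, hY, ← mul_assoc, hX, mul_assoc]

/-- The space spanned by the products. -/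
def SS (ρ : ℍ[F, a, b] → Module.End ℚ A.H1) (C : Set F) (D : Set ℍ[F, a, b]) :
    Submodule ℚ (Module.End ℚ A.H1) :=
  Submodule.span ℚ {X | ∃ β ∈ D, ∃ T ∈ ZZ ρ C, X = ρ β * T}

theorem SS_mul (ha : IsUnit a) (et : ET (mats B (der A.NA)) φ) (hρ : Std B φ ρ) {C : Set F}
    {D : Set ℍ[F, a, b]} (hD : ∀ x ∈ D, ∀ y ∈ D, x * y ∈ D)
    (h : Mot w B P) (hq : A.Full 𝔮) (hE : ∀ x ∈ EE B φ (der 𝔮), x ∈ D)
    {X Q : Module.End ℚ A.H1} (hX : X ∈ SS ρ C D) (hQ : Q ∈ 𝔮) : X * Q ∈ SS ρ C D := by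
  induction hX using Submodule.span_induction with
  | mem X hX =>
    obtain ⟨β, hβ, T, hT, rfl⟩ := hX
    obtain ⟨Cc, hC, d, hd, rfl, hcc⟩ := hq.dec hQ
    rw [mul_add]
    refine Submodule.add_mem _ ?_ ?_
    · rw [mul_assoc]
      refine Submodule.subset_span ⟨β, hβ, T * Cc, (ZZ ρ C).mul_mem hT ?_, rfl⟩
      refine Algebra.subset_adjoin (Or.inr ⟨hq.le hC, fun Y hY => ?_⟩)
      exact (hq.comm Cc (fun X hX => (hcc X hX).symm) Y hY).symm
    · obtain ⟨u, hu, huM⟩ := rep h et (der_mono' hq.le hd)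
      have h1 : ρ β * T * d = -(ρ (β * u) * T) := by
        have h2 := hρ.act d (der_mono' hq.le hd) u hu huM
        have h3 : ρ β * T * d = ρ β * T * (ρ 1 * d) := by
          rw [← mul_assoc, mul_assoc (ρ β) T (ρ 1), ZZ_comm ha et hρ hT 1, ← mul_assoc,
            hρ.mul_one']
        have h4 : ρ β * T * -ρ u = -(ρ β * T * ρ u) := mneg _ _
        rw [h3, ← hρ.comm d (hq.le (hq.der_le hd)), h2, h4, mul_assoc, ZZ_comm ha et hρ hT u,
          ← mul_assoc, ← hρ.mul]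
      rw [h1]
      exact Submodule.neg_mem _ (Submodule.subset_span ⟨β * u, hD _ hβ _ (hE u ⟨hu, d, hd, huM⟩), T,
        hT, rfl⟩)
  | zero => rw [zero_mul]; exact Submodule.zero_mem _
  | add x y _ _ hx hy => rw [add_mul]; exact Submodule.add_mem _ hx hy
  | smul c x _ hx => rw [smul_mul_assoc]; exact Submodule.smul_mem _ _ hx

theorem SS_adjoin (ha : IsUnit a) (et : ET (mats B (der A.NA)) φ) (hρ : Std B φ ρ) {C : Set F}
    {D : Set ℍ[F, a, b]} (hD : ∀ x ∈ D, ∀ y ∈ D, x * y ∈ D)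
    (h : Mot w B P) (hq : A.Full 𝔮) (hE : ∀ x ∈ EE B φ (der 𝔮), x ∈ D)
    {X Q : Module.End ℚ A.H1} (hX : X ∈ SS ρ C D)
    (hQ : Q ∈ Algebra.adjoin ℚ (𝔮 : Set (Module.End ℚ A.H1))) : X * Q ∈ SS ρ C D := by
  induction hQ using Algebra.adjoin_induction generalizing X with
  | mem Q hQ => exact SS_mul ha et hρ hD h hq hE hX hQ
  | algebraMap q =>
    rw [← Algebra.commutes, ← Algebra.smul_def]
    exact Submodule.smul_mem _ _ hX
  | add Q Q' _ _ h1 h2 => rw [mul_add]; exact Submodule.add_mem _ (h1 hX) (h2 hX)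
  | mul Q Q' _ _ h1 h2 => rw [← mul_assoc]; exact h2 (h1 hX)

theorem SS_one (ha : IsUnit a) (et : ET (mats B (der A.NA)) φ) (hρ : Std B φ ρ) {C : Set F}
    {D : Set ℍ[F, a, b]} {X : Module.End ℚ A.H1} (hX : X ∈ SS ρ C D) : X * ρ 1 = X := by
  induction hX using Submodule.span_induction with
  | mem X hX =>
    obtain ⟨β, hβ, T, hT, rfl⟩ := hX
    rw [mul_assoc, ZZ_comm ha et hρ hT 1, ← mul_assoc, hρ.mul_one']
  | zero => rw [zero_mul]
  | add x y _ _ hx hy => rw [add_mul, hx, hy]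
  | smul c x _ hx => rw [smul_mul_assoc, hx]

/-- The scalars are in the space. -/
theorem scalar_mem (ha : IsUnit a) (et : ET (mats B (der A.NA)) φ) (hρ : Std B φ ρ) {C : Set F}
    {D : Set ℍ[F, a, b]} (h1D : (1 : ℍ[F, a, b]) ∈ D) (hD : ∀ x ∈ D, ∀ y ∈ D, x * y ∈ D)
    (h : Mot w B P) (hq : A.Full 𝔮) (hE : ∀ x ∈ EE B φ (der 𝔮), x ∈ D) (f : F) :
    ρ (algebraMap F _ f) ∈ SS ρ C D := by
  obtain ⟨a', ha'⟩ := ha.exists_right_inv
  have h1 : ρ 1 ∈ SS ρ C D := Submodule.subset_span ⟨1, h1D, 1, (ZZ ρ C).one_mem, (mul_one _).symm⟩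
  have h2 : ∀ X ∈ SS ρ C D, ∀ x : ℍ[F, a, b], x.re = 0 → X * ρ x ∈ SS ρ C D := by
    intro X hX x hx
    obtain ⟨Y, hY, hYM⟩ := (et.mem _).2 ⟨x, hx, rfl⟩
    have h3 := hρ.act Y hY x hx hYM
    have h4 : X * ρ x = -(X * Y) := by
      have h5 : ρ x = -(ρ 1 * Y) := by rw [← hρ.comm Y (der_NA_le hY), h3, neg_neg]
      have h6 : X * -(ρ 1 * Y) = -(X * (ρ 1 * Y)) := mneg _ _
      rw [h5, h6, ← mul_assoc, SS_one ha et hρ hX]
    rw [h4]
    exact Submodule.neg_mem _ (SS_adjoin ha et hρ hD h hq hE hX (hq.adjoin (der_NA_le hY)))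
  rw [scalar_eq ha', hρ.mul, ← hρ.one_mul' ((f * a') • uI)]
  exact h2 _ (h2 _ h1 _ (by simp)) _ rfl

/-- the average -/
theorem average {a' b' : F} (ha' : a * a' = 1) (hb' : b * b' = 1) (β : ℍ[F, a, b]) :
    β + uI * β * (a' • uI) + uJ * β * (b' • uJ) + uK * β * (-(a' * b') • uK) =
      algebraMap F _ (4 * β.re) := by
  ext
  · simp [QuaternionAlgebra.algebraMap_eq]
    linear_combination (β.re) * ha' + (β.re) * hb' + (β.re * (a * a') ) * hb' + β.re * ha'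
  · simp [QuaternionAlgebra.algebraMap_eq]
    linear_combination (β.imI) * ha' - (β.imI) * hb' - (β.imI * (a * a') ) * hb' - β.imI * ha'
  · simp [QuaternionAlgebra.algebraMap_eq]
    linear_combination -(β.imJ) * ha' + (β.imJ) * hb' - (β.imJ * (a * a') ) * hb' - β.imJ * ha'
  · simp [QuaternionAlgebra.algebraMap_eq]
    linear_combination -(β.imK) * ha' - (β.imK) * hb' + (β.imK * (a * a') ) * hb' + β.imK * ha'

/-- The average of an element of the space. -/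
theorem av_mem (ha : IsUnit a) (et : ET (mats B (der A.NA)) φ) (hρ : Std B φ ρ)
    {C : Set F} {a' b' : F} (ha' : a * a' = 1) (hb' : b * b' = 1)
    {D : Set ℍ[F, a, b]} (hDC : ∀ x ∈ D, x.re ∈ C)
    {X : Module.End ℚ A.H1} (hX : X ∈ SS ρ C D) :
    ∃ T ∈ ZZ ρ C, X + ρ uI * X * ρ (a' • uI) + ρ uJ * X * ρ (b' • uJ) +
      ρ uK * X * ρ (-(a' * b') • uK) = (4 : ℚ) • (ρ 1 * T) := by
  induction hX using Submodule.span_induction with
  | mem X hX =>
    obtain ⟨β, hβ, T, hT, rfl⟩ := hX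
    have h1 : ∀ x y : ℍ[F, a, b], ρ x * (ρ β * T) * ρ y = ρ (x * β * y) * T := by
      intro x y
      rw [hρ.mul, hρ.mul, mul_assoc, mul_assoc, ZZ_comm ha et hρ hT y, ← mul_assoc, ← mul_assoc]
    refine ⟨ρ (algebraMap F _ β.re) * T, (ZZ ρ C).mul_mem (Algebra.subset_adjoin
      (Or.inl ⟨_, hDC β hβ, rfl⟩)) hT, ?_⟩
    rw [h1, h1, h1, ← add_mul, ← add_mul, ← add_mul, ← hρ.add, ← hρ.add, ← hρ.add,
      average ha' hb', ← mul_assoc, hρ.one_mul']
    have h2 : algebraMap F ℍ[F, a, b] (4 * β.re) = algebraMap F _ β.re + algebraMap F _ β.re +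
        algebraMap F _ β.re + algebraMap F _ β.re := by
      rw [← map_add, ← map_add, ← map_add]
      congr 1
      ring
    rw [h2, hρ.add, hρ.add, hρ.add, add_mul, add_mul, add_mul]
    module
  | zero => exact ⟨0, (ZZ ρ C).zero_mem, by simp⟩
  | add x y _ _ hx hy =>
    obtain ⟨T, hT, h1⟩ := hx
    obtain ⟨T', hT', h2⟩ := hy
    refine ⟨T + T', (ZZ ρ C).add_mem hT hT', ?_⟩
    rw [mul_add (ρ 1), smul_add, ← h1, ← h2]
    simp only [mul_add, add_mul]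
    abel
  | smul c x _ hx =>
    obtain ⟨T, hT, h1⟩ := hx
    refine ⟨c • T, (ZZ ρ C).smul_mem hT c, ?_⟩
    rw [mul_smul_comm c (ρ 1) T, smul_comm, ← h1]
    simp only [mul_smul_comm, smul_mul_assoc, smul_add]

/-- **The centre of the quaternion algebra** is in the algebra generated by the centres. -/
theorem scalar_ZZ (ha : IsUnit a) (hb : IsUnit b) (et : ET (mats B (der A.NA)) φ)
    (hρ : Std B φ ρ) {C : Set F}
    {D : Set ℍ[F, a, b]} (h1D : (1 : ℍ[F, a, b]) ∈ D) (hD : ∀ x ∈ D, ∀ y ∈ D, x * y ∈ D)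
    (hDC : ∀ x ∈ D, x.re ∈ C)
    (h : Mot w B P) (hq : A.Full 𝔮) (hE : ∀ x ∈ EE B φ (der 𝔮), x ∈ D) (f : F) :
    ∃ T ∈ ZZ ρ C, ρ (algebraMap F _ f) = ρ 1 * T := by
  obtain ⟨a', ha'⟩ := ha.exists_right_inv
  obtain ⟨b', hb'⟩ := hb.exists_right_inv
  obtain ⟨T, hT, h1⟩ := av_mem ha et hρ ha' hb' hDC
    (scalar_mem ha et hρ (C := C) h1D hD h hq hE f)
  refine ⟨T, hT, ?_⟩
  have h2 : ∀ x y : ℍ[F, a, b], ρ x * ρ (algebraMap F _ f) * ρ y =
      ρ (x * algebraMap F _ f * y) := by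
    intro x y
    rw [hρ.mul, hρ.mul]
  rw [h2, h2, h2, ← hρ.add, ← hρ.add, ← hρ.add, average ha' hb'] at h1
  have h3 : algebraMap F ℍ[F, a, b] (4 * (algebraMap F ℍ[F, a, b] f).re) = algebraMap F _ f +
      algebraMap F _ f + algebraMap F _ f + algebraMap F _ f := by
    rw [← map_add, ← map_add, ← map_add]
    congr 1
    simp [QuaternionAlgebra.algebraMap_eq]
    ring
  rw [h3, hρ.add, hρ.add, hρ.add] at h1
  have h4 : (4 : ℚ) • ρ (algebraMap F _ f) = (4 : ℚ) • (ρ 1 * T) := by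
    rw [← h1]
    module
  have h5 := congrArg ((4 : ℚ)⁻¹ • ·) h4
  simpa [smul_smul] using h5

end Rho

/-- The scalars which act on a space. -/
def CC (E : Submodule ℚ ℍ[F, a, b]) : Set F := {c | ∀ u ∈ E, c • u ∈ E}

/-- **The form of the quaternion algebra.** -/
def DD (E : Submodule ℚ ℍ[F, a, b]) (hbr : ∀ x ∈ E, ∀ y ∈ E, cb x y ∈ E)
    (hre : ∀ x ∈ E, x.re = 0) (hq2 : ∀ x ∈ E, ∀ y ∈ E, q2 x y ∈ CC E) :
    Subalgebra ℚ ℍ[F, a, b] where
  carrier := {x | x.re ∈ CC E ∧ x.im ∈ E}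
  mul_mem' := by
    rintro x y ⟨hx1, hx2⟩ ⟨hy1, hy2⟩
    have e1 : (x * y).re = x.re * y.re + q2 x.im y.im := by
      simp [q2]
      ring
    have e2 : (2 : ℚ) • (x * y).im = (2 : ℚ) • (x.re • y.im + y.re • x.im) + cb x.im y.im := by
      have h2 : ∀ z : ℍ[F, a, b], (2 : ℚ) • z = (2 : F) • z := fun z => by
        rw [← algebraMap_smul F (2 : ℚ), map_ofNat]
      rw [h2, h2]
      ext <;> simp [cb] <;> ring
    refine ⟨?_, ?_⟩
    · rw [e1]
      intro u hu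
      rw [add_smul, mul_smul]
      exact E.add_mem (hx1 _ (hy1 _ hu)) (hq2 _ hx2 _ hy2 _ hu)
    · have h3 : (2 : ℚ) • (x * y).im ∈ E := by
        rw [e2]
        exact E.add_mem (E.smul_mem _ (E.add_mem (hx1 _ hy2) (hy1 _ hx2))) (hbr _ hx2 _ hy2)
      have h4 := E.smul_mem (2 : ℚ)⁻¹ h3
      rwa [smul_smul, inv_mul_cancel₀ (by norm_num), one_smul] at h4
  add_mem' := by
    rintro x y ⟨hx1, hx2⟩ ⟨hy1, hy2⟩
    refine ⟨?_, ?_⟩
    · intro u hu
      rw [QuaternionAlgebra.re_add, add_smul]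
      exact E.add_mem (hx1 u hu) (hy1 u hu)
    · have h1 : (x + y).im = x.im + y.im := by ext <;> simp
      rw [h1]
      exact E.add_mem hx2 hy2
  algebraMap_mem' := by
    intro c
    have h1 : algebraMap ℚ ℍ[F, a, b] c = algebraMap F _ (algebraMap ℚ F c) := by
      rw [← IsScalarTower.algebraMap_apply]
    refine ⟨?_, ?_⟩
    · rw [h1]
      intro u hu
      rw [re_alg, algebraMap_smul]
      exact E.smul_mem c hu
    · rw [h1]
      rw [im_alg]
      exact E.zero_mem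

/-- **The Lie algebra is everything**, if every proper form is excluded by a standard part. -/
theorem EE_all [IsReduced F] [Module.Finite ℚ F] (ha : IsUnit a) (hb : IsUnit b)
    (h : Mot w B P) (et : ET (mats B (der A.NA)) φ) (hq : A.Full 𝔮)
    (hS : ∀ D : Subalgebra ℚ ℍ[F, a, b], Submodule.span F (D : Set ℍ[F, a, b]) = ⊤ → D ≠ ⊤ →
      ∃ ρ : ℍ[F, a, b] → Module.End ℚ A.H1, Std B φ ρ ∧ ∃ f : F,
        ∀ T ∈ ZZ ρ {c | algebraMap F _ c ∈ D}, ρ (algebraMap F _ f) ≠ ρ 1 * T)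
    {x : ℍ[F, a, b]} (hx : x.re = 0) : x ∈ EE B φ (der 𝔮) := by
  have hsp : ∀ {v : ℍ[F, a, b]}, v.re = 0 →
      v ∈ Submodule.span F (EE B φ (der 𝔮) : Set ℍ[F, a, b]) := fun hv => EE_span hb h et hq hv
  have hbr := EE_br et hq (B := B)
  have hsq : ∀ x ∈ EE B φ (der 𝔮), ∀ y ∈ EE B φ (der 𝔮), q2 x x • y ∈ EE B φ (der 𝔮) :=
    fun x hx y hy => EE_sq ha hb h et hq hx hy
  set E := EE B φ (der 𝔮) with hE
  have hre : ∀ x ∈ E, x.re = 0 := fun x hx => hx.1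
  have hq2 : ∀ x ∈ E, ∀ y ∈ E, q2 x y ∈ CC E := by
    intro x hx y hy u hu
    have h1 := hsq _ (E.add_mem hx hy) u hu
    have h2 := E.sub_mem (E.sub_mem h1 (hsq x hx u hu)) (hsq y hy u hu)
    have h3 : q2 (x + y) (x + y) • u - q2 x x • u - q2 y y • u = (2 : ℚ) • (q2 x y • u) := by
      have h2 : ∀ z : ℍ[F, a, b], (2 : ℚ) • z = (2 : F) • z := fun z => by
        rw [← algebraMap_smul F (2 : ℚ), map_ofNat]
      rw [h2, ← sub_smul, ← sub_smul, smul_smul, q2_add, q2_add', q2_add', q2_comm y x]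
      congr 1
      ring
    rw [h3] at h2
    have h4 := E.smul_mem (2 : ℚ)⁻¹ h2
    rwa [smul_smul, inv_mul_cancel₀ (by norm_num), one_smul] at h4
  let D := DD E hbr hre hq2
  have hD : ∀ x, x ∈ D ↔ x.re ∈ CC E ∧ x.im ∈ E := fun x => Iff.rfl
  have hED : ∀ x ∈ E, x ∈ D := by
    intro x hx
    have h1 : x.im = x := by
      ext
      · exact (hre x hx).symm
      · rfl
      · rfl
      · rfl
    refine (hD x).2 ⟨?_, by rw [h1]; exact hx⟩
    rw [hre x hx]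
    intro u _
    rw [zero_smul]
    exact E.zero_mem
  by_cases htop : D = ⊤
  · have h1 : x ∈ D := by rw [htop]; trivial
    have h2 := ((hD x).1 h1).2
    have h3 : x.im = x := by
      ext
      · exact hx.symm
      · rfl
      · rfl
      · rfl
    rwa [h3] at h2
  · exfalso
    have hspan : Submodule.span F (D : Set ℍ[F, a, b]) = ⊤ := by
      rw [eq_top_iff]
      intro y _
      have h1 : y = y.re • (1 : ℍ[F, a, b]) + y.im := by
        ext <;> simp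
      rw [h1]
      refine Submodule.add_mem _ (Submodule.smul_mem _ _ (Submodule.subset_span D.one_mem)) ?_
      have h2 : Submodule.span F (E : Set ℍ[F, a, b]) ≤ Submodule.span F (D : Set ℍ[F, a, b]) :=
        Submodule.span_mono hED
      exact h2 (hsp rfl)
    obtain ⟨ρ, hρ, f, hf⟩ := hS D hspan htop
    obtain ⟨T, hT, h1⟩ := scalar_ZZ ha hb et hρ (C := {c | algebraMap F ℍ[F, a, b] c ∈ D})
      (D := D) D.one_mem (fun x hx y hy => D.mul_mem hx hy) (fun x hx => by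
        have h2 := ((hD x).1 hx).1
        refine (hD _).2 ⟨?_, ?_⟩
        · rwa [re_alg]
        · rw [im_alg]
          exact E.zero_mem) h hq hED f
    exact hf T hT h1

/-- **The derived algebra of the Lie algebra of the group** is everything. -/
theorem full_mats' [IsReduced F] [Module.Finite ℚ F] (ha : IsUnit a) (hb : IsUnit b)
    {H : Set (Matrix (Fin n) (Fin n) ℂ)} {Wt : Matrix (Fin n) (Fin n) ℚ}
    (h : Mot w B P) (hW : WRel w B Wt) (hH : PtM P H) (et : ET (mats B (der A.NA)) φ)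
    (hS : ∀ D : Subalgebra ℚ ℍ[F, a, b], Submodule.span F (D : Set ℍ[F, a, b]) = ⊤ → D ≠ ⊤ →
      ∃ ρ : ℍ[F, a, b] → Module.End ℚ A.H1, Std B φ ρ ∧ ∃ f : F,
        ∀ T ∈ ZZ ρ {c | algebraMap F _ c ∈ D}, ρ (algebraMap F _ f) ≠ ρ 1 * T) :
    mats B (der A.NA) ≤ mats B (dq B Wt H) := by
  intro M hM
  obtain ⟨x, hx, rfl⟩ := (et.mem M).1 hM
  exact (EE_all ha hb h et (qM_full h hW hH) hS hx).2

end Pool.Agent.H19HP.Et

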