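import Pool.Agent.H19HP.Et5
import Pool.Agent.N208.BT.Fin

set_option autoImplicit false

/-!
# The torsors of periods of all motives of abelian type whose Mumford-Tate domain is a product of
# half planes

Let `M` be an André motive over `ℚ̄` of abelian type: a motive in the tensor category generated by
`h^1(A)`, for an abelian variety `A` over `ℚ̄`, and the Tate motives. Let `P` be the matrix of the
comparison isomorphism (the periods) of `M`, and let `G ⊆ GL(H_B(M))` be *any* algebraic group over `ℚ`
such that the comparison isomorphism is a point of a torsor of `G` defined over `ℚ̄`: `P T ∈ G(ℂ)` for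
some matrix `T` with algebraic entries. The smallest such `G` is the de Rham-Betti group of `M`
(`K = ℚ̄`). By theorems of Deligne and André the motivic Galois group of `M` is its Mumford-Tate group
`MT(M)`. The question is whether `Ω^dRB_M = Ω^And_M`, that is, whether every such `G` contains `MT(M)`.

**Theorem.** Let the simple factors over `ℚ` of the adjoint group of `MT(M)` be of type `A_1`: in other
words, the Mumford-Tate domain of `M` is a product of half planes. Then `G` contains the derived group of
`MT(M)`. If the centre of the Hodge group acts trivially on `M` then `G` contains `MT(M)`, and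
`Ω^dRB_M = Ω^And_M`.

There is no condition on the number of the half planes, on the fields, or on the quaternion algebras.
The precise form is as follows. The adjoint group of `MT(M)` is the group `D^× / F^×` for a quaternion
algebra `D = (a, b)` over a finite product `F` of (totally real) number fields, and the Lie algebra of
the derived group of `MT(M)` is the Lie algebra over `ℚ` of the pure quaternions in `D` (`QuaternionType`).
The abelian variety `A` has to be large enough: for every *proper form* `D'` of `D`, that is, for every
`ℚ`-subalgebra `D' ≠ D` with `F D' = D`, there is a *standard part* of `H_1(A, ℚ)`: a direct summand `W`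
which is a module over `D` such that `[𝔤, 𝔤]` acts on `W` through the pure quaternions, by
multiplication; here `𝔤` is the Lie algebra of the Hodge group of `A`. It has to satisfy the condition
(`Excludes`) that `F` is not contained, as an algebra of endomorphisms of `W`, in the algebra generated
by `F ∩ D'` and by the centre of `𝔤`.

## All motives whose Mumford-Tate domain is a product of half planes

(Explanations; not part of the statement.) We show that every motive `M` as in the theorem is in the
tensor category of an abelian variety `A` over `ℚ̄` which is large enough. Let `M` be in the tensor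
category of `h^1(A')`. The Hodge structure of `M` gives a homomorphism `h` from the Deligne torus to
`D^× / F^×` over `ℝ`. It is trivial exactly at the real places of `F` where `D` is ramified. Let `D'` be
a proper form, so `F' = F ∩ D'` is a finite product of totally real fields, `F ≠ F'` and
`D = D' ⊗_{F'} F`. So the restriction of a place of `F` to `F'` determines whether `D` splits. Let `K'` be
a totally imaginary quadratic extension of `F'`, and choose for all places of `F'` where `D'` is ramified
one of the two extensions to `K'`. Let `W = D ⊗_{F'} K'`. It has a Hodge structure of the type of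
`H_1` of an abelian variety: at the places where `D` splits the Deligne torus acts by the lift of `h` to
`D^×` (by the standard complex structure of the plane), at the other places it acts through `K'`, by the
chosen embeddings. This is the construction of Shimura and Deligne for the field `K' F`, and `W` is
polarizable. The Lie algebra of its Mumford-Tate group is contained in `D^0 + K'`, since the reduced
norm of the lift of `h` is in `F' ⊗ ℝ`. So the centre of `𝔤` acts on `W` by elements of `K'`, and `F` is
not contained in `K'`: as `F ⊗_{F'} K'` acts faithfully on `W`, the intersection of `F` and `K'` is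
`F'`. Let `A''` be the product of the abelian varieties which are given by these `W`, one for each of
the finitely many subalgebras `F'` which occur, and let `A = A' × A''`. The Hodge groups of `A'` and of
`A` have the same adjoint group, so that `A` is given by a point of a Shimura variety which is finite
over the adjoint Shimura variety of `A'`, and so it is defined over `ℚ̄`, as `A'` is.

If `F` is the product of the fields `F_i` and `D` is the product of the `D_i`, then proper forms are
given by forms of `D_i` over proper subfields of `F_i` and by isomorphisms `D_i ≅ D_j` of `ℚ`-algebras.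
If there are none then all abelian varieties are large enough. For example, the algebra `D_i` has no
form over a proper subfield if the number of the places of `F_i` where it splits is prime to the degree
of `F_i`.

**Examples.** 1. Let `K` be a CM field with the totally real subfield `F` of degree `k`, and let `A` be
an abelian variety of dimension `2 k` with multiplication by `K`, such that the signature is `(1, 1)` at
`n` of the `k` places of `F` and `(2, 0)` or `(0, 2)` at the other ones. The domain is a product of `n`
half planes. For `2 ≤ n < k` the theorem is new for these abelian varieties, and for all motives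
with this domain, like the motives of rank `3 k` given by the adjoint representation, on which the
centre acts trivially: all de Rham-Betti classes in the tensor constructions of these motives are
Hodge classes. 2. All motives in the tensor categories of products of such abelian varieties, of
abelian varieties with real multiplication by a field of degree equal to the dimension (Hilbert modular
varieties), of abelian varieties with multiplication by a totally indefinite quaternion algebra, of
abelian varieties of Mumford type, and of motives of K3 type of rank three or four over the field of real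
multiplication.

Known before in this repository: the abelian varieties of example 2 in separate cases
(`MaximalRealMult`, `MiddleExteriorMotives`, `KugaSatake`), Mumford-Tate domains of dimension one
(`N208/AM/MainB`), and products of balls (`ProductsOfBalls`), where a separation is assumed which does not
hold for balls of dimension one (the algebra generated by the unitary group is `B ⊗_F K`, which
descends to `F`).

Nothing is assumed about periods: `AbVar` is the description of an abelian variety over `ℚ̄` by theta
functions (see `Pool/Agent/Y102/AVDefs.lean`, where it is explained why every abelian variety has it),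
and the transcendence theorems which are used, the theorem of Schneider and Lang and the
transcendence of `π`, are proved in this repository. The group `G` is not assumed to be reductive.

## Motives

As `h^1(A)` is dual to `h^1(A)(1)`, the motive `M` is a direct factor of a sum of motives
`h^1(A) ^ {⊗ r i} (w i)`. Its Betti realization is a space of families of multilinear forms with
rational values, in `r i` variables in `H_1(A, ℚ)`, with a basis `B`. It is the image of a motivated
projector, and the realizations of motivated classes are Hodge classes and de Rham-Betti classes; so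
it is stable under the Lie algebra `𝔤` of the endomorphisms of `H_1(A, ℚ)` which annihilate all
classes that are Hodge classes and de Rham-Betti classes (`InLie`), and under the weights. The de Rham
realization has a basis which consists of combinations of products of elements of `H^1_dR(A / ℚ̄)`
with algebraic coefficients. The matrix `P` of the periods expresses it in terms of the basis
`(2 π i) ^ (w i) B` of the Betti realization (`IsMotive`). By the theorem of Deligne `𝔤` is the Lie
algebra of the Hodge group of `A`, and its image in the endomorphisms of `M` is the Lie algebra of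
the Hodge group of `M`.

## Proof

Let `𝔮` be the set of the `X` in `𝔤` whose action on `M` is in the Lie algebra of `G` up to a
multiple of the weight operator. By the theorem of Schneider and Lang `𝔮` acts semisimply on
`H_1(A, ℚ)`, with the same commutant as `𝔤` (`Pool.Agent.N208.AM.qM_full`). Let `E` be the space of the
pure quaternions which give the action on `M` of the elements of `[𝔮, 𝔮]`.

1. `F E` is the space `D^0` of all pure quaternions (`EE_span`): by the rule of Cramer `c D^0 ⊆ F E` for
   all `c = tr (x [y, z])`, `x`, `y`, `z` in `E`. If `e ∈ F` is an idempotent which annihilates these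
   numbers then `e E = 0`, since `E` is perfect, and `e D^0` commutes with the ideal of `𝔤` generated
   by `[𝔮, 𝔮]`, which is `[𝔤, 𝔤]`.
2. `z² E ⊆ E` for all `z ∈ E` (`EE_sq`): as `[z, [z, [z, x]]] = 4 z² [z, x]`, the elements `x` of `E` with
   `z² x ∈ E` form an ideal which contains `[z, E]`. An element `u` of `E` which commutes with this ideal
   satisfies `z² u = 0`, by the formula for `[u, [z, x]]`, so it is in the ideal; as `𝔮` is reductive,
   the ideal is `E`.
3. Let `F'` be the set of the `f ∈ F` with `f E ⊆ E`. By 2. `D' = F' + E` is a subalgebra, and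
   `F D' = D`. If `D' = D` then `E = D^0`. Otherwise there is a standard part `W` for `D'`. The algebra
   generated by `𝔮` on `W` is the same as the algebra generated by `𝔤`, and it is contained in `D' Z`,
   where `Z` is the algebra generated by `F'` and by the centre of `𝔤`. So `F ⊆ D' Z`, and taking the
   average of the conjugates with `1, i, j, k` we obtain `F ⊆ Z`, a contradiction (`scalar_ZZ`).
-/

open Module Matrix Quaternion

noncomputable section

namespace Pool.Agent.Results.MP_f11a48_ag.HalfPlaneDomains

open Pool.Agent.Y102 Pool.Agent.W516.DR Pool.Agent.H204R3.GP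

variable {g : ℕ} (A : AbVar g)

/-! ### The Lie algebra -/

/-- The multilinear forms in `2m` variables in the rational homology. -/
abbrev Form (m : ℕ) : Type := MultilinearMap ℚ (fun _ : Fin m × Fin 2 => A.H1) ℚ

/-- `φ` is a de Rham-Betti class in `H^1(A) ^ {⊗ 2m} (m)`. -/
def IsDRB {m : ℕ} (φ : Form A m) : Prop :=
  IsDeRhamBettiForm QBar A.dR (2 * Real.pi * Complex.I) m φ

/-- `φ` is a Hodge class in `H^1(A) ^ {⊗ 2m} (m)`. -/
def IsHodge {m : ℕ} (φ : Form A m) : Prop := IsHodgeTensor (A.per : A.H1 →+ (Fin g → ℂ)) φ

/-- The endomorphism `X` annihilates the form `φ` (as a derivation). -/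
def Annihilates {m : ℕ} (X : Module.End ℚ A.H1) (φ : Form A m) : Prop :=
  ∀ v, ∑ k, φ (Function.update v k (X (v k))) = 0

/-- `X` is in the Lie algebra `𝔤`: it annihilates all classes that are Hodge classes and
de Rham-Betti classes. -/
def InLie (X : Module.End ℚ A.H1) : Prop :=
  ∀ (m : ℕ) (φ : Form A m), IsHodge A φ → IsDRB A φ → Annihilates A X φ

/-! ### Motives -/

variable {s n : ℕ} (r : Fin s → ℕ) (w : Fin s → ℤ)

/-- The Betti realization of the sum of the motives `h^1(A) ^ {⊗ r i} (w i)`: families of multilinear
forms in `r i` variables in the rational homology. -/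
abbrev Tensors : Type := ∀ i : Fin s, MultilinearMap ℚ (fun _ : Fin (r i) => A.H1) ℚ

variable {A r}

/-- `M` is the matrix of the action of the endomorphism `X` of the rational homology of `A` (as a
derivation) on the space of tensors with the basis `B`. -/
def IsLieMatrix (B : Fin n → Tensors A r) (X : Module.End ℚ A.H1)
    (M : Matrix (Fin n) (Fin n) ℚ) : Prop :=
  ∀ a i v, ∑ k, B a i (Function.update v k (X (v k))) = ∑ b, M b a * B b i v

/-- The subspace with the basis `B` is the Betti realization of a direct factor `M` of the sum of the
motives `h^1(A) ^ {⊗ r i} (w i)`, and `P` is the matrix of the periods of `M` for the basis `B` and for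
some basis of the de Rham realization of `M` over `ℚ̄`. -/
structure IsMotive (B : Fin n → Tensors A r) (P : Matrix (Fin n) (Fin n) ℂ) : Prop where
  /-- `B` is a basis of a subspace -/
  basis : LinearIndependent ℚ B
  /-- the subspace is stable under `𝔤` -/
  lie : ∀ X, InLie A X → ∃ M : Matrix (Fin n) (Fin n) ℚ, IsLieMatrix B X M
  /-- the subspace is stable under the weights -/
  weight : ∃ M : Matrix (Fin n) (Fin n) ℚ, ∀ a i v,
    ((r i : ℚ) - 2 * w i) * B a i v = ∑ b, M b a * B b i v
  /-- the de Rham realization has a basis of elements with algebraic coefficients in terms of the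
  tensor products of the elements of the basis of `H^1_dR(A / ℚ̄)` -/
  deRham : ∃ c : Fin n → ∀ i : Fin s, (Fin (r i) → Fin g ⊕ Fin g) → ℂ,
    (∀ a i J, IsAlgebraic ℚ (c a i J)) ∧ ∀ a i (v : Fin (r i) → A.H1),
      ∑ J, c a i J * ∏ k, A.dR (J k) (v k) =
        (2 * Real.pi * Complex.I) ^ (w i) * ∑ b, P b a * (B b i v : ℂ)
  /-- the matrix of the periods is invertible -/
  det : P.det ≠ 0

variable (A) in
/-- The derived algebra `[𝔤, 𝔤]`. -/
def derivedLie : Submodule ℚ (Module.End ℚ A.H1) :=
  Submodule.span ℚ {Z | ∃ X, InLie A X ∧ ∃ Y, InLie A Y ∧ Z = X * Y - Y * X}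

/-- The centre of the Lie algebra acts trivially: an element of `𝔤` which acts on `M` like a central
element acts trivially. -/
def CentreActsTrivially (B : Fin n → Tensors A r) : Prop :=
  ∀ X, InLie A X → (∀ Y, InLie A Y → IsLieMatrix B (X * Y - Y * X) 0) → IsLieMatrix B X 0

/-! ### Algebraic groups, torsors and the Mumford-Tate group -/

/-- A subgroup of `GL_R(ℂ)` defined by polynomials with rational coefficients. -/
def IsAlgebraicSubgroup {R : Type} [Fintype R] [DecidableEq R] (G : Subgroup (GL R ℂ)) : Prop :=
  ∃ I : Set (MvPolynomial (R × R) ℚ), ∀ x : GL R ℂ, x ∈ G ↔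
    ∀ p ∈ I, MvPolynomial.aeval (fun b : R × R => (x : Matrix R R ℂ) b.1 b.2) p = 0

/-- The torsor `G · T⁻¹` of `G`: the matrices `F` such that `F T` is an element of `G`. It is
defined over `ℚ̄` if `T` is a matrix with algebraic entries. -/
def torsor (G : Subgroup (GL (Fin n) ℂ)) (T : Matrix (Fin n) (Fin n) ℂ) :
    Set (Matrix (Fin n) (Fin n) ℂ) :=
  {F | ∃ x ∈ G, (x : Matrix (Fin n) (Fin n) ℂ) = F * T}

variable (A) in
/-- The Hodge structure of `H^1(A)`: the complex number `z` acts on `H_1(A, ℝ) = ℂ ^ g` by
multiplication, and on `H^1(A, ℝ)` by the transposed map, here in the basis of `H^1(A, ℚ)` which is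
dual to the basis of the lattice. -/
def hodge (z : ℂ) : Matrix (Fin (2 * g)) (Fin (2 * g)) ℂ :=
  Matrix.of fun i j => ((A.lam.repr (z • A.lam i) j : ℝ) : ℂ)

/-- `R` is the matrix of the action of the complex number `z` on `M`, in the Hodge structure given by
those of `H^1(A)` and of the Tate motives (`z` acts on `ℚ(1)` by `(z z̄)⁻¹`). -/
def IsHodgeMatrix (B : Fin n → Tensors A r) (z : ℂ) (R : Matrix (Fin n) (Fin n) ℂ) : Prop :=
  ∀ a i (j : Fin (r i) → Fin (2 * g)),
    ∑ j' : Fin (r i) → Fin (2 * g), (∏ k, hodge A z (j k) (j' k)) *
        (B a i (fun k => Pi.single (j' k) 1) : ℂ) =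
      (z * (starRingEnd ℂ) z) ^ (w i) * ∑ b, R b a * (B b i (fun k => Pi.single (j k) 1) : ℂ)

/-- The Mumford-Tate group of `M`: the smallest algebraic group over `ℚ` which contains the image of
the Deligne torus. -/
def mumfordTate (B : Fin n → Tensors A r) : Subgroup (GL (Fin n) ℂ) :=
  sInf {G | IsAlgebraicSubgroup G ∧ ∀ z : ℂ, z ≠ 0 → ∃ x ∈ G,
    IsHodgeMatrix w B z (x : Matrix (Fin n) (Fin n) ℂ)}

/-! ### Quaternion algebras -/

/-- A quaternion algebra `(a, b)` over a finite product `F` of number fields (a commutative reduced
finite `ℚ`-algebra). -/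
structure QuatAlg where
  /-- the product of number fields -/
  F : Type
  [ring : CommRing F]
  [algebra : Algebra ℚ F]
  [finite : Module.Finite ℚ F]
  [reduced : IsReduced F]
  /-- the square of `i` -/
  a : F
  /-- the square of `j` -/
  b : F
  isUnit_a : IsUnit a
  isUnit_b : IsUnit b

attribute [instance] QuatAlg.ring QuatAlg.algebra QuatAlg.finite QuatAlg.reduced

/-- The elements of the quaternion algebra. -/
abbrev QuatAlg.Q (D : QuatAlg) : Type := ℍ[D.F, D.a, D.b]

/-- The elements of `F`, as elements of the quaternion algebra. -/
def QuatAlg.scalar (D : QuatAlg) (f : D.F) : D.Q := ⟨f, 0, 0, 0⟩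

/-- The action of `[𝔤, 𝔤]` on `M` is given by the Lie algebra over `ℚ` of the pure quaternions (the
quaternions with real part zero) of `D`: this Lie algebra is embedded by `φ`, and its image is the set of
the matrices of the elements of `[𝔤, 𝔤]`. -/
structure QuaternionType (B : Fin n → Tensors A r) (D : QuatAlg)
    (φ : D.Q → Matrix (Fin n) (Fin n) ℚ) : Prop where
  add : ∀ x y, x.re = 0 → y.re = 0 → φ (x + y) = φ x + φ y
  bracket : ∀ x y, x.re = 0 → y.re = 0 → φ (x * y - y * x) = φ x * φ y - φ y * φ x
  injective : ∀ x, x.re = 0 → φ x = 0 → x = 0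
  derived : ∀ M : Matrix (Fin n) (Fin n) ℚ, (∃ X ∈ derivedLie A, IsLieMatrix B X M) ↔
    ∃ x : D.Q, x.re = 0 ∧ φ x = M

/-- **A standard part** of `H_1(A, ℚ)`: a homomorphism `ρ` from `D` to the endomorphisms of `H_1(A, ℚ)`
(not necessarily unital: it is an action of `D` on the direct summand `W = ρ(1) H_1(A, ℚ)`), such that
`ρ(1)` commutes with `𝔤` and `[𝔤, 𝔤]` acts on `W` through the pure quaternions. (As `M` consists of forms
on `H_1(A, ℚ)`, the contragredient action has the matrix `-φ x`, so `X` acts on `W` by `- ρ(x)`.) -/
structure StandardPart (B : Fin n → Tensors A r) (D : QuatAlg)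
    (φ : D.Q → Matrix (Fin n) (Fin n) ℚ) (ρ : D.Q → Module.End ℚ A.H1) : Prop where
  add : ∀ x y, ρ (x + y) = ρ x + ρ y
  mul : ∀ x y, ρ (x * y) = ρ x * ρ y
  commutes : ∀ X, InLie A X → X * ρ 1 = ρ 1 * X
  acts : ∀ X ∈ derivedLie A, ∀ x : D.Q, x.re = 0 → IsLieMatrix B X (φ x) → X * ρ 1 = -ρ x

/-- `D'` is a proper form of `D`: a `ℚ`-subalgebra different from `D`, with `F D' = D`. -/
def IsProperForm (D : QuatAlg) (D' : Subalgebra ℚ D.Q) : Prop :=
  D' ≠ ⊤ ∧ Submodule.span D.F (D' : Set D.Q) = ⊤

/-- The algebra generated by the elements of `F` which are in `D'` (acting by `ρ`) and by the centre of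
`𝔤`. -/
def centralAlgebra (D : QuatAlg) (ρ : D.Q → Module.End ℚ A.H1) (D' : Subalgebra ℚ D.Q) :
    Subalgebra ℚ (Module.End ℚ A.H1) :=
  Algebra.adjoin ℚ ({X | ∃ f : D.F, D.scalar f ∈ D' ∧ X = ρ (D.scalar f)} ∪
    {X | InLie A X ∧ ∀ Y, InLie A Y → X * Y = Y * X})

/-- The standard part `ρ` excludes the form `D'`: on `W = ρ(1) H_1(A, ℚ)`, the algebra `F` is not
contained in the algebra generated by `F ∩ D'` and by the centre of `𝔤`. -/
def Excludes (D : QuatAlg) (ρ : D.Q → Module.End ℚ A.H1) (D' : Subalgebra ℚ D.Q) : Prop :=
  ∃ f : D.F, ∀ T ∈ centralAlgebra D ρ D', ρ (D.scalar f) ≠ ρ 1 * T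

/-- `φ` as a linear map on the quaternion algebra. -/
def QuaternionType.lin {B : Fin n → Tensors A r} {D : QuatAlg}
    {φ : D.Q → Matrix (Fin n) (Fin n) ℚ} (h : QuaternionType B D φ) :
    D.Q →ₗ[ℚ] Matrix (Fin n) (Fin n) ℚ :=
  AddMonoidHom.toRatLinearMap
    { toFun := fun x => φ x.im
      map_zero' := by
        have h1 : (0 : D.Q).im = 0 := by ext <;> simp
        have h2 := h.add 0 0 rfl rfl
        rw [add_zero] at h2
        rw [h1]
        exact left_eq_add.1 h2
      map_add' := fun x y => by
        rw [← h.add _ _ rfl rfl]
        congr 1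
        ext <;> simp }

theorem im_eq {D : QuatAlg} {x : D.Q} (hx : x.re = 0) : x.im = x := by
  ext
  · exact hx.symm
  · rfl
  · rfl
  · rfl

theorem QuaternionType.lin_eq {B : Fin n → Tensors A r} {D : QuatAlg}
    {φ : D.Q → Matrix (Fin n) (Fin n) ℚ} (h : QuaternionType B D φ) {x : D.Q}
    (hx : x.re = 0) : h.lin x = φ x := by
  change φ x.im = φ x
  rw [im_eq hx]

/-- **Theorem.** Let `M` be a motive in the tensor category generated by `h^1(A)` and the Tate motives,
with the matrix `P` of periods. Let `[𝔤, 𝔤]` act on `M` through the pure quaternions of a quaternion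
algebra `D` over a finite product `F` of number fields. Assume that every proper form `D'` of `D` is
excluded by a standard part of `H_1(A, ℚ)` (this is so for suitable `A`, see above). Let `G` be an
algebraic group over `ℚ` with a torsor over `ℚ̄` which contains `P`.

1. If `Z` is the matrix of the action on `M` of an element of `[𝔤, 𝔤]` then `exp (t Z)` is in `G` for all
   complex numbers `t`.
2. If the centre acts trivially, then the Mumford-Tate group of `M` is contained in `G`. -/
theorem result {g s n : ℕ} (A : AbVar g) (r : Fin s → ℕ) (w : Fin s → ℤ)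
    (B : Fin n → Tensors A r) (P : Matrix (Fin n) (Fin n) ℂ) (hM : IsMotive w B P)
    (D : QuatAlg) (φ : D.Q → Matrix (Fin n) (Fin n) ℚ) (hφ : QuaternionType B D φ)
    (hD : ∀ D' : Subalgebra ℚ D.Q, IsProperForm D D' →
      ∃ ρ : D.Q → Module.End ℚ A.H1, StandardPart B D φ ρ ∧ Excludes D ρ D')
    (G : Subgroup (GL (Fin n) ℂ)) (hG : IsAlgebraicSubgroup G) (T : Matrix (Fin n) (Fin n) ℂ)
    (hT : ∀ i j, IsAlgebraic ℚ (T i j)) (hP : P ∈ torsor G T) :
    (∀ X ∈ derivedLie A, ∀ Z : Matrix (Fin n) (Fin n) ℚ, IsLieMatrix B X Z → ∀ t : ℂ, ∃ x ∈ G,
      (x : Matrix (Fin n) (Fin n) ℂ) = NormedSpace.exp (t • Z.map fun q => (q : ℂ))) ∧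
    (CentreActsTrivially B → mumfordTate w B ≤ G) := by
  obtain ⟨hM', Wt, hW⟩ : N208.AM.Mot w B P ∧ ∃ Wt, N208.AM.WRel w B Wt := by
    have hwt : ∃ M, N208.AM.WRel w B M := by
      obtain ⟨M, h⟩ := hM.weight
      refine ⟨M, fun a i => MultilinearMap.ext fun v => ?_⟩
      rw [_root_.smul_apply, _root_.sum_apply, smul_eq_mul, h a i v]
      rfl
    refine ⟨⟨hM.basis, fun X hX => ?_, hwt, hM.det, hM.deRham⟩, hwt⟩
    obtain ⟨M, h⟩ := hM.lie X hX
    refine ⟨M, fun a i => MultilinearMap.ext fun v => ?_⟩
    rw [N208.AM.dact_apply, _root_.sum_apply, h a i v]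
    rfl
  have hrelL : ∀ X M, N208.AM.Rel B X M ↔ IsLieMatrix B X M := by
    intro X M
    constructor
    · intro h a i v
      have h1 := congrArg (fun φ : MultilinearMap ℚ (fun _ : Fin (r i) => A.H1) ℚ => φ v) (h a i)
      simp only [N208.AM.dact_apply, _root_.sum_apply, _root_.smul_apply, smul_eq_mul] at h1
      exact h1
    · intro h a i
      refine MultilinearMap.ext fun v => ?_
      rw [N208.AM.dact_apply, _root_.sum_apply, h a i v]
      rfl
  have hb : ∀ j : Fin (2 * g), A.bas j = Pi.single j 1 := fun j => by
    unfold AbVar.bas
    rw [Pi.basisFun_apply]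
  have hrel : ∀ z R, N208.AM.HRel w B z R → IsHodgeMatrix w B z R := by
    intro z R h a i j
    have h1 := h a i j
    simp only [hb] at h1
    exact h1
  have hNC : CentreActsTrivially B → N208.AM.NoCentre B := fun hc X hX h =>
    (hrelL X 0).2 (hc X hX fun Y hY => (hrelL _ 0).1 (h Y hY))
  -- the derived algebra
  have hder : derivedLie A = der A.NA := by
    refine le_antisymm (Submodule.span_mono ?_) (Submodule.span_mono ?_)
    · rintro _ ⟨X, hX, Y, hY, rfl⟩
      exact ⟨X, hX, Y, hY, rfl⟩
    · rintro _ ⟨X, hX, Y, hY, rfl⟩
      exact ⟨X, hX, Y, hY, rfl⟩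
  have het : H19HP.Et.ET (H19HP.mats B (der A.NA)) hφ.lin :=
    { br := fun x y hx hy => by
        have h3 : hφ.lin (H19HP.Et.cb x y) = φ (x * y - y * x) :=
          hφ.lin_eq (H19HP.Et.cb_re x y)
        rw [hφ.lin_eq hx, hφ.lin_eq hy, h3]
        exact hφ.bracket x y hx hy
      inj := fun x hx h => by
        rw [hφ.lin_eq hx] at h
        exact hφ.injective x hx h
      mem := fun M => by
        have h1 : M ∈ H19HP.mats B (der A.NA) ↔ ∃ x : D.Q, x.re = 0 ∧ φ x = M := by
          rw [← hφ.derived M, hder]
          constructor
          · rintro ⟨X, hX, h⟩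
            exact ⟨X, hX, (hrelL X M).1 h⟩
          · rintro ⟨X, hX, h⟩
            exact ⟨X, hX, (hrelL X M).2 h⟩
        rw [h1]
        constructor
        · rintro ⟨x, hx, h⟩
          exact ⟨x, hx, (hφ.lin_eq hx).trans h⟩
        · rintro ⟨x, hx, h⟩
          exact ⟨x, hx, (hφ.lin_eq hx).symm.trans h⟩ }
  have hsc : ∀ f : D.F, algebraMap D.F D.Q f = D.scalar f := fun f => by
    rw [QuaternionAlgebra.algebraMap_eq]
    rfl
  have hS : ∀ D' : Subalgebra ℚ D.Q, Submodule.span D.F (D' : Set D.Q) = ⊤ → D' ≠ ⊤ →
      ∃ ρ : D.Q → Module.End ℚ A.H1, H19HP.Et.Std B hφ.lin ρ ∧ ∃ f : D.F,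
        ∀ T ∈ H19HP.Et.ZZ ρ {c | algebraMap D.F _ c ∈ D'}, ρ (algebraMap D.F _ f) ≠ ρ 1 * T := by
    intro D' h1 h2
    obtain ⟨ρ, h3, f, h4⟩ := hD D' ⟨h2, h1⟩
    refine ⟨ρ, ⟨h3.add, h3.mul, h3.commutes, fun X hX x hx hr => ?_⟩, f, fun T hT => ?_⟩
    · rw [← hder] at hX
      refine h3.acts X hX x hx ?_
      rw [hφ.lin_eq hx] at hr
      exact (hrelL _ _).1 hr
    · rw [hsc]
      refine h4 T (Algebra.adjoin_mono ?_ hT)
      rintro X (⟨c, hc, rfl⟩ | hX)
      · have hc' : algebraMap D.F D.Q c ∈ D' := hc
        rw [hsc] at hc' ⊢
        exact Or.inl ⟨c, hc', rfl⟩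
      · exact Or.inr hX
  -- the group
  have hdet : T.det ≠ 0 := by
    obtain ⟨x, -, hxT⟩ := hP
    intro h0
    have h1 : (x : Matrix (Fin n) (Fin n) ℂ).det = 0 := by
      rw [hxT, Matrix.det_mul, h0, mul_zero]
    exact (Matrix.GeneralLinearGroup.det x).ne_zero h1
  obtain ⟨T', h1, h2⟩ := Pool.Agent.R917.alg_inv hT hdet
  obtain ⟨x, hx, hxT⟩ := hP
  have hH : N208.AM.PtM P _ := ⟨Pool.Agent.R917.algGrp_of hG, T, T', h1, h2, x, hx, hxT⟩
  have hfull := H19HP.Et.full_mats' D.isUnit_a D.isUnit_b hM' hW hH het hS
  refine ⟨fun X hX Z hZ t => ?_, fun hc => ?_⟩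
  · rw [hder] at hX
    have h3 := H19HP.mats_LQ hM' hW (hfull ⟨X, hX, (hrelL X Z).2 hZ⟩)
    exact Pool.Agent.R917.exp_mem hH.grp fun d => (h3 d).smul t
  · obtain ⟨N, hN, -⟩ := N208.AM.exists_J hM'
    refine sInf_le ⟨hG, fun z hz => ?_⟩
    obtain ⟨⟨x, hx, hx'⟩, h4⟩ := H19HP.main_Q hM' hW hH (hNC hc) hN hfull hz
    refine ⟨x, hx, ?_⟩
    rw [hx']
    exact hrel _ _ h4

end Pool.Agent.Results.MP_f11a48_ag.HalfPlaneDomains
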