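import Pool.Agent.H19HP.Quat3

set_option autoImplicit false
set_option linter.unusedSectionVars false

/-!
# Real places and descent of quaternion algebras
-/

open Quaternion Module

namespace Pool.Agent.H19HP

section Field

variable {F : Type} [Field F] [CharZero F] {a b : F}

/-- An element which is not a scalar and whose square is a scalar. -/
theorem neg_of_sq {X : ℍ[F, a, b]} {c : F} (hX : X * X = algebraMap F _ c)
    (hne : ∀ r : F, X ≠ algebraMap F _ r) (σ : F →+* ℝ) (ha : σ a < 0) (hb : σ b < 0) : σ c < 0 := by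
  have e0 := congrArg QuaternionAlgebra.re hX
  have e1 := congrArg QuaternionAlgebra.imI hX
  have e2 := congrArg QuaternionAlgebra.imJ hX
  have e3 := congrArg QuaternionAlgebra.imK hX
  simp [QuaternionAlgebra.algebraMap_eq] at e0 e1 e2 e3
  have h0 : X.re = 0 := by
    by_contra h0
    have f1 : X.imI = 0 := by
      have : 2 * X.re * X.imI = 0 := by linear_combination e1
      simpa [h0] using this
    have f2 : X.imJ = 0 := by
      have : 2 * X.re * X.imJ = 0 := by linear_combination e2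
      simpa [h0] using this
    have f3 : X.imK = 0 := by
      have : 2 * X.re * X.imK = 0 := by linear_combination e3
      simpa [h0] using this
    refine hne X.re ?_
    ext <;> simp [QuaternionAlgebra.algebraMap_eq, f1, f2, f3]
  have h1 : c = a * X.imI ^ 2 + b * X.imJ ^ 2 - a * b * X.imK ^ 2 := by
    rw [h0] at e0
    linear_combination -e0
  have h2 : σ c = σ a * σ X.imI ^ 2 + σ b * σ X.imJ ^ 2 - σ a * σ b * σ X.imK ^ 2 := by
    rw [h1]
    simp
  have h3 : X.imI ≠ 0 ∨ X.imJ ≠ 0 ∨ X.imK ≠ 0 := by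
    by_contra hcon
    push Not at hcon
    refine hne 0 ?_
    ext <;> simp [h0, hcon.1, hcon.2.1, hcon.2.2]
  have hab : 0 < σ a * σ b := mul_pos_of_neg_of_neg ha hb
  have k1 : σ a * σ X.imI ^ 2 ≤ 0 := mul_nonpos_of_nonpos_of_nonneg ha.le (sq_nonneg _)
  have k2 : σ b * σ X.imJ ^ 2 ≤ 0 := mul_nonpos_of_nonpos_of_nonneg hb.le (sq_nonneg _)
  have k3 : 0 ≤ σ a * σ b * σ X.imK ^ 2 := mul_nonneg hab.le (sq_nonneg _)
  rw [h2]
  rcases h3 with h | h | h
  · have h4 : 0 < σ X.imI ^ 2 := by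
      have : σ X.imI ≠ 0 := (map_ne_zero σ).2 h
      positivity
    have := mul_neg_of_neg_of_pos ha h4
    linarith
  · have h4 : 0 < σ X.imJ ^ 2 := by
      have : σ X.imJ ≠ 0 := (map_ne_zero σ).2 h
      positivity
    have := mul_neg_of_neg_of_pos hb h4
    linarith
  · have h4 : 0 < σ X.imK ^ 2 := by
      have : σ X.imK ≠ 0 := (map_ne_zero σ).2 h
      positivity
    have := mul_pos hab h4
    linarith

theorem neg_of_equiv {a' b' : F} (e : ℍ[F, a', b'] ≃ₐ[F] ℍ[F, a, b]) (σ : F →+* ℝ)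
    (ha : σ a < 0) (hb : σ b < 0) : σ a' < 0 ∧ σ b' < 0 := by
  constructor
  · refine neg_of_sq (X := e uI) ?_ ?_ σ ha hb
    · rw [← map_mul]
      have h1 : (uI : ℍ[F, a', b']) * uI = algebraMap F _ a' := by
        ext <;> simp [QuaternionAlgebra.algebraMap_eq]
      rw [h1, AlgEquiv.commutes]
    · intro r hr
      have h1 : (uI : ℍ[F, a', b']) = algebraMap F _ r := by
        apply e.injective
        rw [hr, AlgEquiv.commutes]
      have h2 := congrArg QuaternionAlgebra.imI h1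
      simp [QuaternionAlgebra.algebraMap_eq] at h2
  · refine neg_of_sq (X := e uJ) ?_ ?_ σ ha hb
    · rw [← map_mul]
      have h1 : (uJ : ℍ[F, a', b']) * uJ = algebraMap F _ b' := by
        ext <;> simp [QuaternionAlgebra.algebraMap_eq]
      rw [h1, AlgEquiv.commutes]
    · intro r hr
      have h1 : (uJ : ℍ[F, a', b']) = algebraMap F _ r := by
        apply e.injective
        rw [hr, AlgEquiv.commutes]
      have h2 := congrArg QuaternionAlgebra.imJ h1
      simp [QuaternionAlgebra.algebraMap_eq] at h2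

theorem split_iff {a' b' : F} (ha : a ≠ 0) (hb : b ≠ 0) (ha' : a' ≠ 0) (hb' : b' ≠ 0)
    (e : ℍ[F, a', b'] ≃ₐ[F] ℍ[F, a, b]) (σ : F →+* ℝ) :
    (0 < σ a ∨ 0 < σ b) ↔ (0 < σ a' ∨ 0 < σ b') := by
  have h0 : ∀ c : F, c ≠ 0 → (σ c < 0 ↔ ¬ 0 < σ c) := by
    intro c hc
    have h1 : σ c ≠ 0 := (map_ne_zero σ).2 hc
    constructor
    · intro h
      linarith
    · intro h
      exact lt_of_le_of_ne (not_lt.1 h) h1
  have h1 : (σ a < 0 ∧ σ b < 0) ↔ (σ a' < 0 ∧ σ b' < 0) :=
    ⟨fun h => neg_of_equiv e σ h.1 h.2, fun h => neg_of_equiv e.symm σ h.1 h.2⟩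
  rw [h0 a ha, h0 b hb, h0 a' ha', h0 b' hb', ← not_or, ← not_or, not_iff_not] at h1
  exact h1

end Field

section Count

variable {F : Type} [Field F] [NumberField F] {a b : F}

/-- The number of the extensions of a real embedding of a subfield of a totally real field. -/
theorem card_ext (hF : ∀ σ : F →+* ℂ, ∃ τ : F →+* ℝ, σ = Complex.ofRealHom.comp τ)
    (F' : IntermediateField ℚ F) (τ : F' →+* ℝ) :
    Nat.card {σ : F →+* ℝ // σ.comp (algebraMap F' F) = τ} = finrank F' F := by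
  let _ : Algebra F' ℂ := (Complex.ofRealHom.comp τ).toAlgebra
  have hmap : ∀ x : F', algebraMap F' ℂ x = ((τ x : ℝ) : ℂ) := fun x => rfl
  have e : {σ : F →+* ℝ // σ.comp (algebraMap F' F) = τ} ≃ (F →ₐ[F'] ℂ) :=
    Equiv.ofBijective (fun σ => { Complex.ofRealHom.comp σ.1 with
      commutes' := fun x => by
        have h0 : σ.1 (algebraMap F' F x) = τ x := congrArg (fun f : F' →+* ℝ => f x) σ.2
        change ((σ.1 (algebraMap F' F x) : ℝ) : ℂ) = ((τ x : ℝ) : ℂ)
        rw [h0] }) (by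
      constructor
      · rintro ⟨σ, h1⟩ ⟨σ', h2⟩ h
        apply Subtype.ext
        refine RingHom.ext fun x => ?_
        have h3 := congrArg (fun f : F →ₐ[F'] ℂ => f x) h
        have h4 : ((σ x : ℝ) : ℂ) = ((σ' x : ℝ) : ℂ) := h3
        exact_mod_cast h4
      · intro f
        obtain ⟨σ, hσ⟩ := hF f.toRingHom
        have h1 : ∀ x, f x = ((σ x : ℝ) : ℂ) := fun x => congrArg (fun g : F →+* ℂ => g x) hσ
        refine ⟨⟨σ, RingHom.ext fun x => ?_⟩, AlgHom.ext fun x => (h1 x).symm⟩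
        have h2 := h1 (algebraMap F' F x)
        rw [AlgHom.commutes, hmap] at h2
        exact_mod_cast h2.symm)
  rw [Nat.card_congr e, Nat.card_eq_fintype_card, AlgHom.card]

/-- The number of the real places at which the quaternion algebra `(a, b)` splits. -/
noncomputable def splitPlaces (F : Type) [Field F] (a b : F) : ℕ :=
  Nat.card {σ : F →+* ℝ // 0 < σ a ∨ 0 < σ b}

theorem dvd_of_descends (ha : a ≠ 0) (hb : b ≠ 0)
    (hF : ∀ σ : F →+* ℂ, ∃ τ : F →+* ℝ, σ = Complex.ofRealHom.comp τ)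
    {F' : IntermediateField ℚ F} {a' b' : F} (h1 : a' ∈ F') (h2 : b' ∈ F') (h3 : a' ≠ 0)
    (h4 : b' ≠ 0) (e : ℍ[F, a', b'] ≃ₐ[F] ℍ[F, a, b]) : finrank F' F ∣ splitPlaces F a b := by
  classical
  let Q : (F' →+* ℝ) → Prop := fun τ => 0 < τ ⟨a', h1⟩ ∨ 0 < τ ⟨b', h2⟩
  have e1 : {σ : F →+* ℝ // 0 < σ a ∨ 0 < σ b} ≃
      Σ τ : {τ : F' →+* ℝ // Q τ}, {σ : F →+* ℝ // σ.comp (algebraMap F' F) = τ.1} :=
    { toFun := fun σ => ⟨⟨σ.1.comp (algebraMap F' F),
        (split_iff ha hb h3 h4 e σ.1).1 σ.2⟩, ⟨σ.1, rfl⟩⟩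
      invFun := fun x => ⟨x.2.1, (split_iff ha hb h3 h4 e x.2.1).2 (by
        have h5 := x.1.2
        simp only [Q, ← x.2.2] at h5
        exact h5)⟩
      left_inv := fun σ => rfl
      right_inv := by
        rintro ⟨⟨τ, hτ⟩, ⟨σ, hσ⟩⟩
        obtain rfl : τ = σ.comp (algebraMap F' F) := hσ.symm
        rfl }
  have : Finite {τ : F' →+* ℝ // Q τ} := inferInstance
  have hfin : ∀ τ : {τ : F' →+* ℝ // Q τ},
      Finite {σ : F →+* ℝ // σ.comp (algebraMap F' F) = τ.1} := fun τ => inferInstance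
  let _ := Fintype.ofFinite {τ : F' →+* ℝ // Q τ}
  rw [splitPlaces, Nat.card_congr e1, Nat.card_sigma]
  refine Finset.dvd_sum fun τ _ => ?_
  rw [card_ext hF F' τ.1]

/-- **Criterion.** -/
theorem not_descends (ha : a ≠ 0) (hb : b ≠ 0)
    (hF : ∀ σ : F →+* ℂ, ∃ τ : F →+* ℝ, σ = Complex.ofRealHom.comp τ)
    (hc : Nat.Coprime (splitPlaces F a b) (finrank ℚ F)) : ¬ Descends F a b := by
  rintro ⟨F', htop, a', h1, b', h2, h3, h4, ⟨e⟩⟩
  have h5 := dvd_of_descends ha hb hF h1 h2 h3 h4 e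
  have h6 : finrank F' F ∣ finrank ℚ F := ⟨finrank ℚ F', by
    rw [mul_comm, finrank_mul_finrank]⟩
  have h7 := Nat.eq_one_of_dvd_coprimes hc h5 h6
  exact htop (IntermediateField.finrank_eq_one_iff_eq_top.1 h7)

/-- **Criterion.** If every proper subfield has a real embedding with two extensions, one at which the
quaternion algebra splits and one at which it does not, then it does not descend. -/
theorem not_descends' (ha : a ≠ 0) (hb : b ≠ 0)
    (h : ∀ F' : IntermediateField ℚ F, F' ≠ ⊤ → ∃ σ τ : F →+* ℝ, (∀ x ∈ F', σ x = τ x) ∧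
      (0 < σ a ∨ 0 < σ b) ∧ ¬ (0 < τ a ∨ 0 < τ b)) : ¬ Descends F a b := by
  rintro ⟨F', htop, a', h1, b', h2, h3, h4, ⟨e⟩⟩
  obtain ⟨σ, τ, h5, h6, h7⟩ := h F' htop
  apply h7
  rw [split_iff ha hb h3 h4 e τ, ← h5 a' h1, ← h5 b' h2, ← split_iff ha hb h3 h4 e σ]
  exact h6

end Count

end Pool.Agent.H19HP
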