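import Mathlib

set_option autoImplicit false

/-!
# Lie algebras over `ℚ` in the pure quaternions over a number field

Let `F` be a number field and `B = (a, b)` a quaternion algebra over `F`. A nonzero perfect Lie algebra
over `ℚ` which consists of pure quaternions contains all pure quaternions, unless `B` is the extension of
scalars of a quaternion algebra over a proper subfield of `F`.
-/

open Quaternion Module

namespace Pool.Agent.H19HP

section Field

variable {F : Type} [Field F] {a b : F}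

/-- The bilinear form `(x y + y x) / 2` on the pure quaternions. -/
def q2 (x y : ℍ[F, a, b]) : F := a * x.imI * y.imI + b * x.imJ * y.imJ - a * b * x.imK * y.imK

theorem q2_comm (x y : ℍ[F, a, b]) : q2 x y = q2 y x := by unfold q2; ring

theorem q2_add (x y z : ℍ[F, a, b]) : q2 (x + y) z = q2 x z + q2 y z := by
  simp only [q2, QuaternionAlgebra.imI_add, QuaternionAlgebra.imJ_add, QuaternionAlgebra.imK_add]; ring

theorem q2_add' (x y z : ℍ[F, a, b]) : q2 z (x + y) = q2 z x + q2 z y := by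
  rw [q2_comm, q2_add, q2_comm x, q2_comm y]

theorem q2_smul (c : F) (x z : ℍ[F, a, b]) : q2 (c • x) z = c * q2 x z := by
  simp only [q2, QuaternionAlgebra.imI_smul, QuaternionAlgebra.imJ_smul, QuaternionAlgebra.imK_smul,
    smul_eq_mul]; ring

theorem q2_smul' (c : F) (x z : ℍ[F, a, b]) : q2 z (c • x) = c * q2 z x := by
  rw [q2_comm, q2_smul, q2_comm x]

theorem q2_zero (x : ℍ[F, a, b]) : q2 0 x = 0 := by simp [q2]

/-- the commutator -/
def cb (x y : ℍ[F, a, b]) : ℍ[F, a, b] := x * y - y * x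

theorem cb_re (x y : ℍ[F, a, b]) : (cb x y).re = 0 := by
  simp only [cb, QuaternionAlgebra.re_sub, QuaternionAlgebra.re_mul]; ring

theorem cb_anti (x y : ℍ[F, a, b]) : cb x y = -cb y x := by rw [cb, cb, neg_sub]

theorem cb_add (x y z : ℍ[F, a, b]) : cb (x + y) z = cb x z + cb y z := by
  rw [cb, cb, cb, add_mul, mul_add]; abel

theorem cb_add' (x y z : ℍ[F, a, b]) : cb z (x + y) = cb z x + cb z y := by
  rw [cb, cb, cb, add_mul, mul_add]; abel

theorem cb_smul (c : F) (x z : ℍ[F, a, b]) : cb (c • x) z = c • cb x z := by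
  rw [cb, cb, smul_mul_assoc, mul_smul_comm, smul_sub]

theorem cb_smul' (c : F) (x z : ℍ[F, a, b]) : cb z (c • x) = c • cb z x := by
  rw [cb, cb, smul_mul_assoc, mul_smul_comm, smul_sub]

theorem cb_zero (x : ℍ[F, a, b]) : cb 0 x = 0 := by rw [cb, zero_mul, mul_zero, sub_self]

theorem cb_zero' (x : ℍ[F, a, b]) : cb x 0 = 0 := by rw [cb, zero_mul, mul_zero, sub_self]

theorem cb_self (x : ℍ[F, a, b]) : cb x x = 0 := sub_self _

theorem cb_jac (x y z : ℍ[F, a, b]) : cb x (cb y z) = cb (cb x y) z + cb y (cb x z) := by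
  simp only [cb]; noncomm_ring

theorem sq_eq {x : ℍ[F, a, b]} (hx : x.re = 0) : x * x = algebraMap F _ (q2 x x) := by
  ext <;> simp [q2, hx, QuaternionAlgebra.algebraMap_eq] <;> ring

theorem anti_eq {x y : ℍ[F, a, b]} (hx : x.re = 0) (hy : y.re = 0) :
    x * y + y * x = algebraMap F _ (2 * q2 x y) := by
  ext <;> simp [q2, hx, hy, QuaternionAlgebra.algebraMap_eq] <;> ring

theorem dbl {x y : ℍ[F, a, b]} (hx : x.re = 0) (hy : y.re = 0) :
    cb x (cb x y) = (4 : F) • (q2 x x • y - q2 x y • x) := by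
  ext <;> simp [q2, cb, hx, hy] <;> ring

theorem q2_cb (x y : ℍ[F, a, b]) : q2 x (cb x y) = 0 := by
  simp only [q2, cb, QuaternionAlgebra.imI_sub, QuaternionAlgebra.imJ_sub, QuaternionAlgebra.imK_sub,
    QuaternionAlgebra.imI_mul, QuaternionAlgebra.imJ_mul, QuaternionAlgebra.imK_mul]; ring

theorem q2_cb_cb {x u v : ℍ[F, a, b]} (hx : x.re = 0) (hu : u.re = 0) (hv : v.re = 0) :
    q2 (cb x u) (cb x v) = -(4 * (q2 x x * q2 u v - q2 x u * q2 x v)) := by
  simp only [q2, cb, QuaternionAlgebra.imI_sub, QuaternionAlgebra.imJ_sub, QuaternionAlgebra.imK_sub,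
    QuaternionAlgebra.imI_mul, QuaternionAlgebra.imJ_mul, QuaternionAlgebra.imK_mul, hx, hu, hv]; ring

end Field

end Pool.Agent.H19HP
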