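import Pool.Agent.H19HP.Quat

set_option autoImplicit false

/-!
# Ideals and perfect subalgebras of the pure quaternions
-/

open Quaternion Module

namespace Pool.Agent.H19HP

section Perfect

variable {K W : Type} [Field K] [AddCommGroup W] [Module K W]

/-- A perfect subspace of dimension at most two is zero. -/
theorem perfect_dim (br : W →ₗ[K] W →ₗ[K] W) (halt : ∀ x, br x x = 0) {S : Submodule K W}
    [FiniteDimensional K S] (hS : S ≤ Submodule.span K {z | ∃ x ∈ S, ∃ y ∈ S, z = br x y})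
    (hd : finrank K S ≤ 2) : S = ⊥ := by
  have hanti : ∀ x y, br x y = -br y x := by
    intro x y
    have h := halt (x + y)
    simp only [map_add, LinearMap.add_apply, halt, zero_add, add_zero] at h
    first
    | exact eq_neg_of_add_eq_zero_left h
    | exact eq_neg_of_add_eq_zero_right h
  -- two generators
  obtain ⟨u, v, huv⟩ : ∃ u v : W, S ≤ Submodule.span K {u, v} := by
    have b := finBasis K S
    have h2 : ∀ (x : W) (hx : x ∈ S), x = ∑ i, b.repr ⟨x, hx⟩ i • (b i : W) := by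
      intro x hx
      have h3 := congrArg (fun y : S => (y : W)) (b.sum_repr ⟨x, hx⟩)
      simp only [Submodule.coe_sum, Submodule.coe_smul] at h3
      exact h3.symm
    have h3 : finrank K S = 0 ∨ finrank K S = 1 ∨ finrank K S = 2 := by omega
    rcases h3 with h3 | h3 | h3
    · refine ⟨0, 0, fun x hx => ?_⟩
      have h4 : S = ⊥ := by
        rw [← Submodule.finrank_eq_zero (R := K)]
        exact h3
      rw [h4, Submodule.mem_bot] at hx
      rw [hx]
      exact Submodule.zero_mem _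
    · refine ⟨b ⟨0, by omega⟩, 0, fun x hx => ?_⟩
      rw [h2 x hx]
      refine Submodule.sum_mem _ fun i _ => Submodule.smul_mem _ _ (Submodule.subset_span ?_)
      have h5 : i = ⟨0, by omega⟩ := Fin.ext (by have := i.2; simp only; omega)
      rw [h5]
      exact Or.inl rfl
    · refine ⟨b ⟨0, by omega⟩, b ⟨1, by omega⟩, fun x hx => ?_⟩
      rw [h2 x hx]
      refine Submodule.sum_mem _ fun i _ => Submodule.smul_mem _ _ (Submodule.subset_span ?_)
      have h5 : i = ⟨0, by omega⟩ ∨ i = ⟨1, by omega⟩ := by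
        have := i.2
        rcases Nat.lt_or_ge (i : ℕ) 1 with h | h
        · exact Or.inl (Fin.ext (by simp only; omega))
        · exact Or.inr (Fin.ext (by simp only; omega))
      rcases h5 with h5 | h5
      · rw [h5]
        exact Or.inl rfl
      · rw [h5]
        exact Or.inr rfl
  have h1 : S ≤ Submodule.span K {br u v} := by
    refine hS.trans (Submodule.span_le.2 ?_)
    rintro _ ⟨x, hx, y, hy, rfl⟩
    obtain ⟨a, b, hab⟩ := Submodule.mem_span_pair.1 (huv hx)
    obtain ⟨c, d, hcd⟩ := Submodule.mem_span_pair.1 (huv hy)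
    rw [← hab, ← hcd]
    have h2 : br (a • u + b • v) (c • u + d • v) = (a * d - b * c) • br u v := by
      simp only [map_add, map_smul, LinearMap.add_apply, LinearMap.smul_apply, halt, smul_zero,
        zero_add, add_zero]
      rw [hanti v u]
      module
    rw [h2]
    exact Submodule.smul_mem _ _ (Submodule.mem_span_singleton_self _)
  rw [eq_bot_iff]
  refine hS.trans (Submodule.span_le.2 ?_)
  rintro _ ⟨x, hx, y, hy, rfl⟩
  obtain ⟨a, ha⟩ := Submodule.mem_span_singleton.1 (h1 hx)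
  obtain ⟨b, hb⟩ := Submodule.mem_span_singleton.1 (h1 hy)
  rw [← ha, ← hb]
  simp only [map_smul, LinearMap.smul_apply, halt, smul_zero]
  exact Submodule.zero_mem _

end Perfect

set_option linter.unusedSectionVars false

section Field

variable {F : Type} [Field F] [CharZero F] {a b : F}

/-- the unit `i` -/
abbrev uI : ℍ[F, a, b] := ⟨0, 1, 0, 0⟩
/-- the unit `j` -/
abbrev uJ : ℍ[F, a, b] := ⟨0, 0, 1, 0⟩
/-- the unit `k` -/
abbrev uK : ℍ[F, a, b] := ⟨0, 0, 0, 1⟩

theorem exists_q2_ne (ha : a ≠ 0) (hb : b ≠ 0) {z : ℍ[F, a, b]} (hz : z.re = 0) (hz0 : z ≠ 0) :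
    ∃ y : ℍ[F, a, b], y.re = 0 ∧ q2 y z ≠ 0 := by
  by_contra hcon
  push Not at hcon
  apply hz0
  have h1 := hcon uI rfl
  have h2 := hcon uJ rfl
  have h3 := hcon uK rfl
  simp only [q2] at h1 h2 h3
  ext
  · exact hz
  · have h4 : a * z.imI = 0 := by linear_combination h1
    simpa [ha] using h4
  · have h4 : b * z.imJ = 0 := by linear_combination h2
    simpa [hb] using h4
  · have h4 : a * b * z.imK = 0 := by linear_combination -h3
    simpa [ha, hb] using h4

/-- A nonzero ideal of the Lie algebra of the pure quaternions. -/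
theorem ideal_top (ha : a ≠ 0) (hb : b ≠ 0) {J : Submodule F ℍ[F, a, b]}
    (hJ : ∀ x : ℍ[F, a, b], x.re = 0 → ∀ u ∈ J, cb x u ∈ J) {z : ℍ[F, a, b]} (hz : z ∈ J)
    (hzr : z.re = 0) (hz0 : z ≠ 0) {y : ℍ[F, a, b]} (hy : y.re = 0) : y ∈ J := by
  have h1 : ∀ y : ℍ[F, a, b], y.re = 0 → q2 y z ≠ 0 → y ∈ J := by
    intro y hy h
    have h2 := dbl hy hzr
    have h3 := hJ y hy _ (hJ y hy z hz)
    rw [h2] at h3
    have h4 := J.smul_mem (4 : F)⁻¹ h3
    rw [smul_smul, inv_mul_cancel₀ (by norm_num), one_smul] at h4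
    have h5 := J.sub_mem (J.smul_mem (q2 y y) hz) h4
    rw [sub_sub_cancel] at h5
    have h6 := J.smul_mem (q2 y z)⁻¹ h5
    rwa [smul_smul, inv_mul_cancel₀ h, one_smul] at h6
  obtain ⟨w, hw, hwz⟩ := exists_q2_ne ha hb hzr hz0
  by_cases h2 : q2 y z = 0
  · have h3 : q2 (y + w) z ≠ 0 := by rw [q2_add, h2, zero_add]; exact hwz
    have h4 := h1 (y + w) (by simp [hy, hw]) h3
    have h5 := J.sub_mem h4 (h1 w hw hwz)
    rwa [add_sub_cancel_right] at h5
  · exact h1 y hy h2

/-- An element which commutes with all pure quaternions is zero. -/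
theorem eq_zero_of_comm (ha : a ≠ 0) (hb : b ≠ 0) {z : ℍ[F, a, b]} (hz : z.re = 0)
    (h : ∀ y : ℍ[F, a, b], y.re = 0 → cb y z = 0) : z = 0 := by
  by_contra hz0
  have h1 : ∀ y : ℍ[F, a, b], y.re = 0 → q2 y y • z = q2 y z • y := by
    intro y hy
    have h2 := dbl hy hz
    rw [h y hy, cb_zero'] at h2
    have h3 := congrArg ((4 : F)⁻¹ • ·) h2
    simp only [smul_zero, smul_smul] at h3
    rw [inv_mul_cancel₀ (by norm_num), one_smul] at h3
    exact (sub_eq_zero.1 h3.symm)
  have h2 := h1 uI rfl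
  have h3 := h1 uJ rfl
  apply hz0
  have e1 := congrArg QuaternionAlgebra.imJ h2
  have e2 := congrArg QuaternionAlgebra.imK h2
  have e3 := congrArg QuaternionAlgebra.imI h3
  simp [q2] at e1 e2 e3
  ext
  · exact hz
  · simpa [hb] using e3
  · simpa [ha] using e1
  · simpa [ha] using e2

/-- A nonzero ideal over `ℚ` of the Lie algebra of the pure quaternions. -/
theorem rat_ideal_top (ha : a ≠ 0) (hb : b ≠ 0) {J : Submodule ℚ ℍ[F, a, b]}
    (hre : ∀ x ∈ J, x.re = 0)
    (hJ : ∀ x : ℍ[F, a, b], x.re = 0 → ∀ u ∈ J, cb x u ∈ J) {z : ℍ[F, a, b]} (hz : z ∈ J)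
    (hz0 : z ≠ 0) {y : ℍ[F, a, b]} (hy : y.re = 0) : y ∈ J := by
  let JF : Submodule F ℍ[F, a, b] :=
    { carrier := {u | ∀ f : F, f • u ∈ J}
      zero_mem' := fun f => by rw [smul_zero]; exact J.zero_mem
      add_mem' := fun {u v} hu hv f => by rw [smul_add]; exact J.add_mem (hu f) (hv f)
      smul_mem' := fun c u hu f => by rw [smul_smul]; exact hu _ }
  have h1 : ∀ x : ℍ[F, a, b], x.re = 0 → ∀ u ∈ J, cb x u ∈ JF := by
    intro x hx u hu f
    rw [← cb_smul]
    exact hJ _ (by simp [hx]) u hu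
  have h2 : ∀ x : ℍ[F, a, b], x.re = 0 → ∀ u ∈ JF, cb x u ∈ JF := by
    intro x hx u hu f
    rw [← cb_smul']
    exact hJ x hx _ (hu f)
  obtain ⟨x, hx, hxz⟩ : ∃ x : ℍ[F, a, b], x.re = 0 ∧ cb x z ≠ 0 := by
    by_contra hcon
    push Not at hcon
    exact hz0 (eq_zero_of_comm ha hb (hre z hz) hcon)
  have h3 := ideal_top ha hb h2 (h1 x hx z hz) (cb_re _ _) hxz hy
  have h4 := h3 1
  rwa [one_smul] at h4

/-- the commutator as a bilinear map -/
def cbL : ℍ[F, a, b] →ₗ[F] ℍ[F, a, b] →ₗ[F] ℍ[F, a, b] :=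
  LinearMap.mk₂ F cb cb_add (fun c x z => cb_smul c x z) (fun z x y => cb_add' x y z)
    (fun c z x => cb_smul' c x z)

/-- the pure quaternions -/
def Pu (F : Type) [Field F] (a b : F) : Submodule F ℍ[F, a, b] where
  carrier := {x | x.re = 0}
  zero_mem' := rfl
  add_mem' := fun {x y} hx hy => by
    change (x + y).re = 0
    rw [QuaternionAlgebra.re_add, hx, hy, add_zero]
  smul_mem' := fun c x hx => by
    change (c • x).re = 0
    rw [QuaternionAlgebra.re_smul, hx, smul_zero]

theorem mem_Pu {x : ℍ[F, a, b]} : x ∈ Pu F a b ↔ x.re = 0 := Iff.rfl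

theorem finrank_Pu : finrank F (Pu F a b) ≤ 3 := by
  let v : Fin 3 → ℍ[F, a, b] := ![uI, uJ, uK]
  have h1 : Pu F a b ≤ Submodule.span F (Set.range v) := by
    intro x hx
    have h2 : x = x.imI • v 0 + x.imJ • v 1 + x.imK • v 2 := by
      have hx' : x.re = 0 := hx
      ext <;> simp [v, hx']
    rw [h2]
    refine Submodule.add_mem _ (Submodule.add_mem _ ?_ ?_) ?_ <;>
    exact Submodule.smul_mem _ _ (Submodule.subset_span ⟨_, rfl⟩)
  have h3 : finrank F (Submodule.span F (Set.range v)) ≤ 3 := by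
    have h4 := finrank_range_le_card (R := F) v
    rwa [Fintype.card_fin] at h4
  exact (Submodule.finrank_mono h1).trans h3

end Field

section Main

variable {F : Type} [Field F] [NumberField F] {a b : F}

instance : Module.Finite ℚ ℍ[F, a, b] := Module.Finite.trans F _

/-- **Structure.** A nonzero perfect Lie algebra over `ℚ` in the pure quaternions contains the pure
quaternions of a quaternion algebra over a subfield. -/
theorem alternative (ha : a ≠ 0) (hb : b ≠ 0) {E : Submodule ℚ ℍ[F, a, b]}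
    (hre : ∀ x ∈ E, x.re = 0) (hbr : ∀ x ∈ E, ∀ y ∈ E, cb x y ∈ E)
    (hperf : E ≤ Submodule.span ℚ {z | ∃ x ∈ E, ∃ y ∈ E, z = cb x y}) (hne : E ≠ ⊥) :
    ∃ F' : IntermediateField ℚ F, ∃ x y : ℍ[F, a, b], x.re = 0 ∧ y.re = 0 ∧
      q2 x y = 0 ∧ q2 x x ≠ 0 ∧ q2 y y ≠ 0 ∧ q2 x x ∈ F' ∧ q2 y y ∈ F' ∧
      ∀ f ∈ F', f • x ∈ E ∧ f • y ∈ E ∧ f • cb x y ∈ E := by
  classical
  -- the span over `F`
  have hF : ∀ y : ℍ[F, a, b], y.re = 0 → y ∈ Submodule.span F (E : Set ℍ[F, a, b]) := by
    set S := Submodule.span F (E : Set ℍ[F, a, b]) with hS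
    have h1 : S ≤ Pu F a b := Submodule.span_le.2 hre
    have h2 : S = Pu F a b := by
      by_contra h
      have h3 : finrank F S < finrank F (Pu F a b) :=
        Submodule.finrank_lt_finrank_of_lt (lt_of_le_of_ne h1 h)
      have h4 := finrank_Pu (F := F) (a := a) (b := b)
      have h5 : S = ⊥ := by
        refine perfect_dim (K := F) cbL (fun x => cb_self x) (S := S) ?_ (by omega)
        rw [hS, Submodule.span_le, ← hS]
        intro x hx
        have h6 := hperf hx
        have h7 := Submodule.span_subset_span ℚ F _ h6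
        refine Submodule.span_mono ?_ h7
        rintro _ ⟨x, hx, y, hy, rfl⟩
        exact ⟨x, Submodule.subset_span hx, y, Submodule.subset_span hy, rfl⟩
      apply hne
      rw [eq_bot_iff]
      intro x hx
      have h6 : x ∈ S := Submodule.subset_span hx
      rwa [h5, Submodule.mem_bot] at h6
    intro y hy
    rw [h2]
    exact hy
  -- an element which commutes with `E` is zero
  have hcen : ∀ z : ℍ[F, a, b], z.re = 0 → (∀ x ∈ E, cb x z = 0) → z = 0 := by
    intro z hz h
    refine eq_zero_of_comm ha hb hz fun y hy => ?_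
    have h1 : Submodule.span F (E : Set ℍ[F, a, b]) ≤ LinearMap.ker (cbL.flip z) :=
      Submodule.span_le.2 fun x hx => h x hx
    exact h1 (hF y hy)
  -- a minimal ideal
  let Id : Submodule ℚ ℍ[F, a, b] → Prop := fun I =>
    I ≤ E ∧ I ≠ ⊥ ∧ ∀ x ∈ E, ∀ y ∈ I, cb x y ∈ I
  have hex : ∃ d, ∃ I, Id I ∧ finrank ℚ I = d := ⟨_, E, ⟨le_refl _, hne, hbr⟩, rfl⟩
  obtain ⟨I, ⟨hIE, hI0, hI⟩, hId⟩ := Nat.find_spec hex
  have hmin : ∀ J, Id J → J ≤ I → J = I := by
    intro J hJ hJI
    have h1 := Nat.find_min' hex ⟨J, hJ, rfl⟩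
    rw [← hId] at h1
    exact Submodule.eq_of_le_of_finrank_le hJI h1
  have hIre : ∀ x ∈ I, x.re = 0 := fun x hx => hre x (hIE hx)
  -- the squares act on `I`
  have hsq : ∀ z ∈ I, ∀ u ∈ I, q2 z z • u ∈ I := by
    intro z hz
    by_cases hz0 : z = 0
    · intro u _
      rw [hz0, q2_zero, zero_smul]
      exact I.zero_mem
    let J : Submodule ℚ ℍ[F, a, b] :=
      { carrier := {u | u ∈ I ∧ q2 z z • u ∈ I}
        zero_mem' := ⟨I.zero_mem, by rw [smul_zero]; exact I.zero_mem⟩
        add_mem' := fun {u v} hu hv => ⟨I.add_mem hu.1 hv.1, by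
          rw [smul_add]; exact I.add_mem hu.2 hv.2⟩
        smul_mem' := fun c u hu => ⟨I.smul_mem c hu.1, by
          rw [smul_comm]; exact I.smul_mem c hu.2⟩ }
    have hJI : J ≤ I := fun u hu => hu.1
    have hJ : Id J := by
      refine ⟨hJI.trans hIE, ?_, fun x hx y hy => ⟨hI x hx y hy.1, ?_⟩⟩
      · obtain ⟨x, hx, hxz⟩ : ∃ x ∈ E, cb x z ≠ 0 := by
          by_contra hcon
          push Not at hcon
          exact hz0 (hcen z (hIre z hz) hcon)
        intro hJ0
        have h1 : cb x z ∈ J := by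
          have h2 : cb x z ∈ I := hI x hx z hz
          refine ⟨h2, ?_⟩
          have h3 := dbl (hIre z hz) (hIre _ h2)
          have h4 : q2 z (cb x z) = 0 := by
            rw [cb_anti, show (-cb z x : ℍ[F, a, b]) = (-1 : F) • cb z x by simp, q2_smul', q2_cb,
              mul_zero]
          rw [h4, zero_smul, sub_zero] at h3
          have h5 : cb z (cb z (cb x z)) ∈ I := hI z (hIE hz) _ (hI z (hIE hz) _ h2)
          rw [h3] at h5
          have h6 := I.smul_mem (4 : ℚ)⁻¹ h5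
          have h7 : (4 : ℚ)⁻¹ • (4 : F) • q2 z z • cb x z = q2 z z • cb x z := by
            have h8 : (4 : F) • (q2 z z • cb x z) = (4 : ℚ) • (q2 z z • cb x z) := by
              rw [← Rat.cast_smul_eq_qsmul F]
              norm_num
            rw [h8, smul_smul, inv_mul_cancel₀ (by norm_num), one_smul]
          rwa [h7] at h6
        rw [hJ0, Submodule.mem_bot] at h1
        exact hxz h1
      · rw [← cb_smul']
        exact hI x hx _ hy.2
    intro u hu
    rw [← hmin J hJ hJI] at hu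
    exact hu.2
  -- the subfield
  let C : Subalgebra ℚ F :=
    { carrier := {f | ∀ u ∈ I, f • u ∈ I}
      mul_mem' := fun {f f'} hf hf' u hu => by rw [← smul_smul]; exact hf _ (hf' u hu)
      add_mem' := fun {f f'} hf hf' u hu => by rw [add_smul]; exact I.add_mem (hf u hu) (hf' u hu)
      algebraMap_mem' := fun c u hu => by
        rw [algebraMap_smul]
        exact I.smul_mem c hu }
  let F' : IntermediateField ℚ F := C.toIntermediateField fun x hx =>
    C.inv_mem_of_algebraic (x := ⟨x, hx⟩) (Algebra.IsAlgebraic.isAlgebraic x)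
  have hF' : ∀ f, f ∈ F' ↔ ∀ u ∈ I, f • u ∈ I := fun f => Iff.rfl
  have hIF : ∀ y : ℍ[F, a, b], y.re = 0 → y ∈ Submodule.span F (I : Set ℍ[F, a, b]) := by
    obtain ⟨z, hz, hz0⟩ := Submodule.exists_mem_ne_zero_of_ne_bot hI0
    intro y hy
    refine ideal_top ha hb (J := Submodule.span F (I : Set ℍ[F, a, b])) ?_
      (Submodule.subset_span hz) (hIre z hz) hz0 hy
    intro x hx u hu
    have h1 : Submodule.span F (I : Set ℍ[F, a, b]) ≤
        (Submodule.span F (I : Set ℍ[F, a, b])).comap (cbL x) := by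
      refine Submodule.span_le.2 fun u hu => ?_
      have h2 : Submodule.span F (E : Set ℍ[F, a, b]) ≤
          (Submodule.span F (I : Set ℍ[F, a, b])).comap (cbL.flip u) :=
        Submodule.span_le.2 fun x hx => Submodule.subset_span (hI x hx u hu)
      exact h2 (hF x hx)
    exact h1 hu
  have hlin : ∀ G : ℍ[F, a, b] →ₗ[F] F, (∀ u ∈ I, G u = 0) → ∀ y : ℍ[F, a, b], y.re = 0 →
      G y = 0 := by
    intro G hG y hy
    have h1 : Submodule.span F (I : Set ℍ[F, a, b]) ≤ LinearMap.ker G :=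
      Submodule.span_le.2 fun u hu => hG u hu
    exact h1 (hIF y hy)
  let Q : ℍ[F, a, b] →ₗ[F] ℍ[F, a, b] →ₗ[F] F :=
    LinearMap.mk₂ F q2 q2_add (fun c x z => q2_smul c x z) (fun z x y => q2_add' x y z)
      (fun c z x => q2_smul' c x z)
  -- an invertible element
  obtain ⟨x, hx, hxx⟩ : ∃ x ∈ I, q2 x x ≠ 0 := by
    by_contra hcon
    push Not at hcon
    have h1 : ∀ u ∈ I, ∀ v ∈ I, q2 u v = 0 := by
      intro u hu v hv
      have h2 := hcon _ (I.add_mem hu hv)
      rw [q2_add, q2_add', q2_add', hcon u hu, hcon v hv, q2_comm v u, zero_add, add_zero] at h2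
      have h3 : 2 * q2 u v = 0 := by linear_combination h2
      simpa using h3
    have h2 : ∀ u ∈ I, ∀ y : ℍ[F, a, b], y.re = 0 → q2 u y = 0 := fun u hu =>
      hlin (Q u) fun v hv => h1 u hu v hv
    have h3 := hlin (Q.flip uI) (fun u hu => h2 u hu uI rfl) uI rfl
    have h4 : q2 (uI : ℍ[F, a, b]) uI = 0 := h3
    simp [q2, ha] at h4
  have hxre := hIre x hx
  obtain ⟨u, hu, huu⟩ : ∃ u ∈ I, q2 (cb x u) (cb x u) ≠ 0 := by
    by_contra hcon
    push Not at hcon
    have h1 : ∀ u ∈ I, ∀ v ∈ I, q2 (cb x u) (cb x v) = 0 := by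
      intro u hu v hv
      have h2 := hcon _ (I.add_mem hu hv)
      rw [cb_add', q2_add, q2_add', q2_add', hcon u hu, hcon v hv, q2_comm (cb x v) (cb x u),
        zero_add, add_zero] at h2
      have h3 : 2 * q2 (cb x u) (cb x v) = 0 := by linear_combination h2
      simpa using h3
    have h2 : ∀ u ∈ I, ∀ y : ℍ[F, a, b], y.re = 0 → q2 (cb x u) (cb x y) = 0 := fun u hu =>
      hlin ((Q (cb x u)).comp (cbL x)) fun v hv => h1 u hu v hv
    have h3 : ∀ v : ℍ[F, a, b], v.re = 0 → ∀ y : ℍ[F, a, b], y.re = 0 →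
        q2 (cb x v) (cb x y) = 0 := fun v hv y hy =>
      hlin ((Q.flip (cb x y)).comp (cbL x)) (fun u hu => h2 u hu y hy) v hv
    have h4 : ∀ v y : ℍ[F, a, b], v.re = 0 → y.re = 0 → q2 x x * q2 v y = q2 x v * q2 x y := by
      intro v y hv hy
      have h5 := h3 v hv y hy
      rw [q2_cb_cb hxre hv hy, neg_eq_zero, mul_eq_zero] at h5
      rcases h5 with h5 | h5
      · norm_num at h5
      · exact sub_eq_zero.1 h5
    have e1 := h4 uI uI rfl rfl
    have e2 := h4 uJ uJ rfl rfl
    have e3 := h4 uI uJ rfl rfl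
    have f1 : q2 (uI : ℍ[F, a, b]) uI = a := by simp [q2]
    have f2 : q2 (uJ : ℍ[F, a, b]) uJ = b := by simp [q2]
    have f3 : q2 (uI : ℍ[F, a, b]) uJ = 0 := by simp [q2]
    rw [f1] at e1
    rw [f2] at e2
    rw [f3, mul_zero] at e3
    rcases mul_eq_zero.1 e3.symm with h | h
    · rw [h, mul_zero] at e1
      exact mul_ne_zero hxx ha e1
    · rw [h, mul_zero] at e2
      exact mul_ne_zero hxx hb e2
  have hy : cb x u ∈ I := hI x (hIE hx) u hu
  exact ⟨F', x, cb x u, hxre, cb_re _ _, q2_cb _ _, hxx, huu, (hF' _).2 (hsq x hx),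
    (hF' _).2 (hsq _ hy), fun f hf => ⟨hIE ((hF' f).1 hf _ hx), hIE ((hF' f).1 hf _ hy),
      hIE ((hF' f).1 hf _ (hI x (hIE hx) _ hy))⟩⟩

end Main

end Pool.Agent.H19HP
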