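import Pool.Agent.H19HP.Quat2

set_option autoImplicit false
set_option linter.unusedSectionVars false

/-!
# Quaternion algebras which are not defined over a proper subfield
-/

open Quaternion Module

namespace Pool.Agent.H19HP

section Field

variable {F : Type} [Field F] [CharZero F] {a b : F}

theorem algEquiv_of {x y : ℍ[F, a, b]} (hx : x.re = 0) (hy : y.re = 0) (hxy : q2 x y = 0)
    (hxx : q2 x x ≠ 0) (hyy : q2 y y ≠ 0) :
    ∃ e : ℍ[F, q2 x x, q2 y y] ≃ₐ[F] ℍ[F, a, b], ∀ w, e w = algebraMap F _ w.re + w.imI • x +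
      w.imJ • y + (w.imK * 2⁻¹) • cb x y := by
  have hanti : y * x = -(x * y) := by
    have h1 := anti_eq hx hy
    rw [hxy, mul_zero, map_zero] at h1
    rw [add_comm] at h1
    exact eq_neg_of_add_eq_zero_left h1
  have hcb : cb x y = (2 : F) • (x * y) := by
    rw [cb, hanti, sub_neg_eq_add, two_smul]
  let q : QuaternionAlgebra.Basis ℍ[F, a, b] (q2 x x) 0 (q2 y y) :=
    { i := x
      j := y
      k := x * y
      i_mul_i := by rw [sq_eq hx, zero_smul, add_zero, Algebra.algebraMap_eq_smul_one]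
      j_mul_j := by rw [sq_eq hy, Algebra.algebraMap_eq_smul_one]
      i_mul_j := rfl
      j_mul_i := by rw [hanti, zero_smul, zero_sub] }
  have hzz : q2 (cb x y) (cb x y) = -(4 * (q2 x x * q2 y y)) := by
    rw [q2_cb_cb hx hy hy, hxy, zero_mul, sub_zero]
  have hinj : Function.Injective q.liftHom.toLinearMap := by
    rw [← LinearMap.ker_eq_bot, LinearMap.ker_eq_bot']
    intro w hw
    have h1 : algebraMap F ℍ[F, a, b] w.re + w.imI • x + w.imJ • y + w.imK • (x * y) = 0 := hw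
    have h2 : x * y = (2 : F)⁻¹ • cb x y := by
      rw [hcb, smul_smul, inv_mul_cancel₀ (by norm_num), one_smul]
    rw [h2, smul_smul] at h1
    have h3 : w.re = 0 := by
      have h4 := congrArg QuaternionAlgebra.re h1
      simpa [hx, hy, cb_re, QuaternionAlgebra.algebraMap_eq] using h4
    rw [h3, map_zero, zero_add] at h1
    have e1 : q2 x (w.imI • x + w.imJ • y + (w.imK * 2⁻¹) • cb x y) = 0 := by
      rw [h1, q2_comm, q2_zero]
    have e2 : q2 y (w.imI • x + w.imJ • y + (w.imK * 2⁻¹) • cb x y) = 0 := by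
      rw [h1, q2_comm, q2_zero]
    have e3 : q2 (cb x y) (w.imI • x + w.imJ • y + (w.imK * 2⁻¹) • cb x y) = 0 := by
      rw [h1, q2_comm, q2_zero]
    have f1 : q2 y (cb x y) = 0 := by
      rw [cb_anti, show (-cb y x : ℍ[F, a, b]) = (-1 : F) • cb y x by simp, q2_smul', q2_cb,
        mul_zero]
    simp only [q2_add', q2_smul', hxy, q2_cb, mul_zero, add_zero] at e1
    simp only [q2_add', q2_smul', q2_comm y x, hxy, f1, mul_zero, add_zero, zero_add] at e2
    simp only [q2_add', q2_smul', q2_comm _ x, q2_comm _ y, q2_cb, f1, mul_zero, zero_add] at e3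
    rw [hzz] at e3
    ext
    · exact h3
    · simpa [hxx] using e1
    · simpa [hyy] using e2
    · simpa [hxx, hyy] using e3
  have hsurj : Function.Surjective q.liftHom.toLinearMap :=
    (LinearMap.injective_iff_surjective_of_finrank_eq_finrank (by
      rw [QuaternionAlgebra.finrank_eq_four, QuaternionAlgebra.finrank_eq_four])).1 hinj
  refine ⟨AlgEquiv.ofBijective q.liftHom ⟨hinj, hsurj⟩, fun w => ?_⟩
  change algebraMap F ℍ[F, a, b] w.re + w.imI • x + w.imJ • y + w.imK • (x * y) = _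
  rw [hcb, smul_smul, mul_assoc, inv_mul_cancel₀ (by norm_num), mul_one]

end Field

/-- The quaternion algebra `(a, b)` over `F` is the extension of scalars of a quaternion algebra
`(a', b')` over a proper subfield. -/
def Descends (F : Type) [Field F] [CharZero F] (a b : F) : Prop :=
  ∃ F' : IntermediateField ℚ F, F' ≠ ⊤ ∧ ∃ a' ∈ F', ∃ b' ∈ F', a' ≠ 0 ∧ b' ≠ 0 ∧
    Nonempty (ℍ[F, a', b'] ≃ₐ[F] ℍ[F, a, b])

/-- The structure of perfect Lie algebras in the pure quaternions. -/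
theorem exists_form {F : Type} [Field F] [NumberField F] {a b : F} (ha : a ≠ 0)
    (hb : b ≠ 0) {E : Submodule ℚ ℍ[F, a, b]}
    (hre : ∀ x ∈ E, x.re = 0) (hbr : ∀ x ∈ E, ∀ y ∈ E, cb x y ∈ E)
    (hperf : E ≤ Submodule.span ℚ {z | ∃ x ∈ E, ∃ y ∈ E, z = cb x y}) (hne : E ≠ ⊥) :
    ∃ F' : IntermediateField ℚ F, ∃ a' ∈ F', ∃ b' ∈ F', a' ≠ 0 ∧ b' ≠ 0 ∧
      ∃ e : ℍ[F, a', b'] ≃ₐ[F] ℍ[F, a, b], ∀ w : ℍ[F, a', b'], w.re = 0 → w.imI ∈ F' →
        w.imJ ∈ F' → w.imK ∈ F' → e w ∈ E := by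
  obtain ⟨F', x, y, h2, h3, h4, h5, h6, h7, h8, h9⟩ := alternative ha hb hre hbr hperf hne
  obtain ⟨e, he⟩ := algEquiv_of h2 h3 h4 h5 h6
  refine ⟨F', _, h7, _, h8, h5, h6, e, fun w hw k1 k2 k3 => ?_⟩
  rw [he, hw, map_zero, zero_add]
  have h10 : (2 : F)⁻¹ ∈ F' := F'.inv_mem (ofNat_mem F' 2)
  exact E.add_mem (E.add_mem (h9 _ k1).1 (h9 _ k2).2.1) (h9 _ (F'.mul_mem k3 h10)).2.2

theorem all_of_not_descends {F : Type} [Field F] [NumberField F] {a b : F} (ha : a ≠ 0)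
    (hb : b ≠ 0) (hd : ¬ Descends F a b) {E : Submodule ℚ ℍ[F, a, b]}
    (hre : ∀ x ∈ E, x.re = 0) (hbr : ∀ x ∈ E, ∀ y ∈ E, cb x y ∈ E)
    (hperf : E ≤ Submodule.span ℚ {z | ∃ x ∈ E, ∃ y ∈ E, z = cb x y}) (hne : E ≠ ⊥) :
    ∀ y : ℍ[F, a, b], y.re = 0 → y ∈ E := by
  obtain ⟨F', x, y, h2, h3, h4, h5, h6, h7, h8, h9⟩ := alternative ha hb hre hbr hperf hne
  obtain ⟨e, he⟩ := algEquiv_of h2 h3 h4 h5 h6
  by_cases htop : F' = ⊤
  · intro z hz
    obtain ⟨w, rfl⟩ := e.surjective z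
    rw [he] at hz ⊢
    have h10 : w.re = 0 := by
      simpa [h2, h3, cb_re, QuaternionAlgebra.algebraMap_eq] using hz
    have h11 : ∀ f : F, f ∈ F' := fun f => by rw [htop]; trivial
    rw [h10, map_zero, zero_add]
    exact E.add_mem (E.add_mem (h9 _ (h11 _)).1 (h9 _ (h11 _)).2.1) (h9 _ (h11 _)).2.2
  · exact absurd ⟨F', htop, _, h7, _, h8, h5, h6, ⟨e⟩⟩ hd

/-- the pure quaternions, as a vector space over `ℚ` -/
def pureQ (F : Type) [Field F] [CharZero F] (a b : F) : Submodule ℚ ℍ[F, a, b] where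
  carrier := {x | x.re = 0}
  zero_mem' := rfl
  add_mem' := fun {x y} hx hy => by
    change (x + y).re = 0
    rw [QuaternionAlgebra.re_add, hx, hy, add_zero]
  smul_mem' := fun c x hx => by
    change (c • x).re = 0
    rw [QuaternionAlgebra.re_smul, hx, smul_zero]

/-- The Lie algebras over `ℚ` of the pure quaternions are isomorphic. -/
def PureIso (F : Type) [Field F] [CharZero F] (a b : F) (F' : Type) [Field F'] [CharZero F']
    (a' b' : F') : Prop :=
  ∃ e : pureQ F a b ≃ₗ[ℚ] pureQ F' a' b', ∀ x y z : pureQ F a b,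
    (z : ℍ[F, a, b]) = (x : ℍ[F, a, b]) * y - y * x →
    (e z : ℍ[F', a', b']) = (e x : ℍ[F', a', b']) * e y - e y * e x

section Goursat

variable {q : ℕ} {F : Fin q → Type} [∀ i, Field (F i)] [∀ i, NumberField (F i)]
  {a b : ∀ i, F i}

theorem goursat_step (ha : ∀ i, a i ≠ 0) (hb : ∀ i, b i ≠ 0)
    (hiso : ∀ i j, i ≠ j → ¬ PureIso (F i) (a i) (b i) (F j) (a j) (b j))
    {E : Submodule ℚ (∀ i, ℍ[F i, a i, b i])} (hre : ∀ x ∈ E, ∀ i, (x i).re = 0)
    (hbr : ∀ x ∈ E, ∀ y ∈ E, (fun i => cb (x i) (y i)) ∈ E)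
    (hsurj : ∀ i, ∀ u : ℍ[F i, a i, b i], u.re = 0 → ∃ x ∈ E, x i = u) (T : Finset (Fin q)) :
    ∀ i ∉ T, ∀ u : ℍ[F i, a i, b i], u.re = 0 → ∃ x ∈ E, x i = u ∧ ∀ j ∈ T, x j = 0 := by
  classical
  induction T using Finset.induction_on with
  | empty =>
    intro i _ u hu
    obtain ⟨x, hx, hxi⟩ := hsurj i u hu
    exact ⟨x, hx, hxi, fun j hj => absurd hj (Finset.notMem_empty j)⟩
  | insert j T hj ih =>
    intro i hi u hu
    rw [Finset.mem_insert, not_or] at hi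
    obtain ⟨hij, hiT⟩ := hi
    -- the ideals
    let KK : ∀ l m : Fin q, Submodule ℚ ℍ[F l, a l, b l] := fun l m =>
      { carrier := {v | ∃ z ∈ E, z l = v ∧ z m = 0 ∧ ∀ p ∈ T, z p = 0}
        zero_mem' := ⟨0, E.zero_mem, rfl, rfl, fun _ _ => rfl⟩
        add_mem' := by
          rintro v v' ⟨z, hz, h1, h2, h3⟩ ⟨z', hz', h1', h2', h3'⟩
          refine ⟨z + z', E.add_mem hz hz', ?_, ?_, fun p hp => ?_⟩
          · rw [Pi.add_apply, h1, h1']
          · rw [Pi.add_apply, h2, h2', add_zero]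
          · rw [Pi.add_apply, h3 p hp, h3' p hp, add_zero]
        smul_mem' := by
          rintro c v ⟨z, hz, h1, h2, h3⟩
          refine ⟨c • z, E.smul_mem c hz, ?_, ?_, fun p hp => ?_⟩
          · rw [Pi.smul_apply, h1]
          · rw [Pi.smul_apply, h2, smul_zero]
          · rw [Pi.smul_apply, h3 p hp, smul_zero] }
    have hKre : ∀ l m, ∀ v ∈ KK l m, v.re = 0 := by
      rintro l m v ⟨z, hz, rfl, -⟩
      exact hre z hz l
    have hKid : ∀ l m, ∀ x : ℍ[F l, a l, b l], x.re = 0 → ∀ v ∈ KK l m, cb x v ∈ KK l m := by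
      rintro l m x hx v ⟨z, hz, rfl, h2, h3⟩
      obtain ⟨z', hz', h4⟩ := hsurj l x hx
      refine ⟨_, hbr z' hz' z hz, ?_, ?_, fun p hp => ?_⟩
      · simp only [h4]
      · simp only [h2, cb_zero']
      · simp only [h3 p hp, cb_zero']
    by_cases hK : KK i j = ⊥
    swap
    · obtain ⟨v, hv, hv0⟩ := Submodule.exists_mem_ne_zero_of_ne_bot hK
      obtain ⟨z, hz, h1, h2, h3⟩ := rat_ideal_top (ha i) (hb i) (hKre i j) (hKid i j) hv hv0 hu
      refine ⟨z, hz, h1, fun p hp => ?_⟩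
      rcases Finset.mem_insert.1 hp with rfl | hp
      · exact h2
      · exact h3 p hp
    exfalso
    -- uniqueness
    have huniq : ∀ z ∈ E, (∀ p ∈ T, z p = 0) → z j = 0 → z i = 0 := by
      intro z hz h1 h2
      have h3 : z i ∈ KK i j := ⟨z, hz, rfl, h2, h1⟩
      rwa [hK, Submodule.mem_bot] at h3
    have hne : (uI : ℍ[F i, a i, b i]) ≠ 0 := by
      intro h
      have h1 := congrArg QuaternionAlgebra.imI h
      simp at h1
    have hK' : KK j i = ⊥ := by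
      by_contra hcon
      obtain ⟨v, hv, hv0⟩ := Submodule.exists_mem_ne_zero_of_ne_bot hcon
      obtain ⟨z, hz, h1, h2⟩ := ih i hiT uI rfl
      obtain ⟨z', hz', h1', h2', h3'⟩ := rat_ideal_top (ha j) (hb j) (hKre j i) (hKid j i) hv hv0
        (hre z hz j)
      have h4 := huniq (z - z') (E.sub_mem hz hz') (fun p hp => by
        rw [Pi.sub_apply, h2 p hp, h3' p hp, sub_zero]) (by rw [Pi.sub_apply, h1', sub_self])
      rw [Pi.sub_apply, h1, h2', sub_zero] at h4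
      exact hne h4
    have huniq' : ∀ z ∈ E, (∀ p ∈ T, z p = 0) → z i = 0 → z j = 0 := by
      intro z hz h1 h2
      have h3 : z j ∈ KK j i := ⟨z, hz, rfl, h2, h1⟩
      rwa [hK', Submodule.mem_bot] at h3
    -- the isomorphism
    have hch : ∀ v : pureQ (F i) (a i) (b i), ∃ z : ∀ l, ℍ[F l, a l, b l], z ∈ E ∧ z i = v ∧
        ∀ p ∈ T, z p = 0 := fun v => by
      obtain ⟨z, hz, h1, h2⟩ := ih i hiT v v.2
      exact ⟨z, hz, h1, h2⟩
    choose Z hZ1 hZ2 hZ3 using hch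
    have hval : ∀ (v : pureQ (F i) (a i) (b i)) (z : ∀ l, ℍ[F l, a l, b l]), z ∈ E → z i = v →
        (∀ p ∈ T, z p = 0) → z j = Z v j := by
      intro v z hz h1 h2
      have h3 := huniq' (z - Z v) (E.sub_mem hz (hZ1 v)) (fun p hp => by
        rw [Pi.sub_apply, h2 p hp, hZ3 v p hp, sub_zero]) (by
          rw [Pi.sub_apply, h1, hZ2, sub_self])
      rw [Pi.sub_apply] at h3
      exact sub_eq_zero.1 h3
    let f : pureQ (F i) (a i) (b i) →ₗ[ℚ] pureQ (F j) (a j) (b j) :=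
      { toFun := fun v => ⟨Z v j, hre _ (hZ1 v) j⟩
        map_add' := fun v v' => Subtype.ext (by
          change Z (v + v') j = Z v j + Z v' j
          rw [← hval (v + v') (Z v + Z v') (E.add_mem (hZ1 v) (hZ1 v')) (by
            rw [Pi.add_apply, hZ2, hZ2]; rfl) (fun p hp => by
            rw [Pi.add_apply, hZ3 v p hp, hZ3 v' p hp, add_zero])]
          rfl)
        map_smul' := fun c v => Subtype.ext (by
          change Z (c • v) j = c • Z v j
          rw [← hval (c • v) (c • Z v) (E.smul_mem c (hZ1 v)) (by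
            rw [Pi.smul_apply, hZ2]; rfl) (fun p hp => by
            rw [Pi.smul_apply, hZ3 v p hp, smul_zero])]
          rfl) }
    have hfinj : Function.Injective f := by
      rw [← LinearMap.ker_eq_bot, LinearMap.ker_eq_bot']
      intro v hv
      have h1 : Z v j = 0 := congrArg Subtype.val hv
      have h2 := huniq (Z v) (hZ1 v) (hZ3 v) h1
      rw [hZ2] at h2
      exact Subtype.ext h2
    have hfsurj : Function.Surjective f := by
      intro y
      obtain ⟨z, hz, h1, h2⟩ := ih j hj y y.2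
      refine ⟨⟨z i, hre z hz i⟩, Subtype.ext ?_⟩
      change Z _ j = y
      rw [← h1]
      exact (hval ⟨z i, hre z hz i⟩ z hz rfl h2).symm
    refine hiso i j hij ⟨LinearEquiv.ofBijective f ⟨hfinj, hfsurj⟩, fun x y z hz => ?_⟩
    change Z z j = Z x j * Z y j - Z y j * Z x j
    have h1 := hval z _ (hbr _ (hZ1 x) _ (hZ1 y)) (by simp only [hZ2, hz, cb]) (fun p hp => by
      simp only [hZ3 x p hp, cb_zero])
    rw [← h1, cb]

/-- **Subalgebras of sums of Lie algebras of pure quaternions.** -/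
theorem goursat (ha : ∀ i, a i ≠ 0) (hb : ∀ i, b i ≠ 0)
    (hiso : ∀ i j, i ≠ j → ¬ PureIso (F i) (a i) (b i) (F j) (a j) (b j))
    {E : Submodule ℚ (∀ i, ℍ[F i, a i, b i])} (hre : ∀ x ∈ E, ∀ i, (x i).re = 0)
    (hbr : ∀ x ∈ E, ∀ y ∈ E, (fun i => cb (x i) (y i)) ∈ E)
    (hsurj : ∀ i, ∀ u : ℍ[F i, a i, b i], u.re = 0 → ∃ x ∈ E, x i = u)
    {x : ∀ i, ℍ[F i, a i, b i]} (hx : ∀ i, (x i).re = 0) : x ∈ E := by
  classical
  have h1 : ∀ i, Pi.single i (x i) ∈ E := by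
    intro i
    obtain ⟨z, hz, h2, h3⟩ := goursat_step ha hb hiso hre hbr hsurj (Finset.univ.erase i) i
      (Finset.notMem_erase i _) (x i) (hx i)
    have h4 : Pi.single i (x i) = z := by
      funext j
      by_cases hj : j = i
      · subst hj
        rw [Pi.single_eq_same, h2]
      · rw [Pi.single_eq_of_ne hj, h3 j (Finset.mem_erase.2 ⟨hj, Finset.mem_univ j⟩)]
    rw [h4]
    exact hz
  have h2 : x = ∑ i, Pi.single i (x i) := (Finset.univ_sum_single x).symm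
  rw [h2]
  exact E.sum_mem fun i _ => h1 i

/-- **Perfect subalgebras of sums of Lie algebras of pure quaternions.** -/
theorem full_prod (ha : ∀ i, a i ≠ 0) (hb : ∀ i, b i ≠ 0)
    (hd : ∀ i, ¬ Descends (F i) (a i) (b i))
    (hiso : ∀ i j, i ≠ j → ¬ PureIso (F i) (a i) (b i) (F j) (a j) (b j))
    {E : Submodule ℚ (∀ i, ℍ[F i, a i, b i])} (hre : ∀ x ∈ E, ∀ i, (x i).re = 0)
    (hbr : ∀ x ∈ E, ∀ y ∈ E, (fun i => cb (x i) (y i)) ∈ E)
    (hperf : E ≤ Submodule.span ℚ {z | ∃ x ∈ E, ∃ y ∈ E, z = fun i => cb (x i) (y i)})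
    (hne : ∀ i, ∃ x ∈ E, x i ≠ 0)
    {x : ∀ i, ℍ[F i, a i, b i]} (hx : ∀ i, (x i).re = 0) : x ∈ E := by
  refine goursat ha hb hiso hre hbr (fun i u hu => ?_) hx
  let p : (∀ i, ℍ[F i, a i, b i]) →ₗ[ℚ] ℍ[F i, a i, b i] := LinearMap.proj i
  have h1 : u ∈ E.map p := by
    refine all_of_not_descends (ha i) (hb i) (hd i) ?_ ?_ ?_ ?_ u hu
    · rintro _ ⟨z, hz, rfl⟩
      exact hre z hz i
    · rintro _ ⟨z, hz, rfl⟩ _ ⟨z', hz', rfl⟩
      exact ⟨_, hbr z hz z' hz', rfl⟩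
    · rintro _ ⟨z, hz, rfl⟩
      have h2 := Submodule.mem_map_of_mem (f := p) (hperf hz)
      rw [Submodule.map_span] at h2
      refine Submodule.span_mono ?_ h2
      rintro _ ⟨_, ⟨x, hx, y, hy, rfl⟩, rfl⟩
      exact ⟨_, ⟨x, hx, rfl⟩, _, ⟨y, hy, rfl⟩, rfl⟩
    · obtain ⟨z, hz, hzi⟩ := hne i
      intro h
      apply hzi
      have h2 : p z ∈ E.map p := ⟨z, hz, rfl⟩
      rwa [h, Submodule.mem_bot] at h2
  obtain ⟨z, hz, hzu⟩ := h1
  exact ⟨z, hz, hzu⟩

end Goursat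

end Pool.Agent.H19HP
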